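import Pool.Agent.V5helper95.KV.Pos
import Pool.Agent.Y536.SH.Tame

set_option autoImplicit false

/-!
# Explicit criteria
-/

namespace Pool.Agent.V5helper95.KV

open Pool.Agent.Y536.SH (Standard)

theorem std_cast {n : ℕ} {d : ℕ} {w : Fin n → ℕ} (h : Standard d w) {x : ℝ} (hx : (d : ℝ) ≤ x) :
    Std x (fun i => (w i : ℝ)) := by
  intro i j k h1 h2 h3
  have := h i j k h1 h2 h3
  show (w i : ℝ) + (w j : ℝ) + (w k : ℝ) ≤ x
  have h4 : (w i : ℝ) + (w j : ℝ) + (w k : ℝ) ≤ d := by exact_mod_cast this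
  exact h4.trans hx

theorem std_up {n : ℕ} {d : ℕ} {w : Fin n → ℕ} (h : Standard d w) :
    Std ((d + 3 : ℕ) : ℝ) (fun i => (up w i : ℝ)) := by
  intro i j k h1 h2 h3
  have h4 := h i j k h1 h2 h3
  have h5 : ∀ i, up w i ≤ w i + 1 := by
    intro i
    unfold up
    split_ifs <;> omega
  have : up w i + up w j + up w k ≤ d + 3 := by
    have := h5 i
    have := h5 j
    have := h5 k
    omega
  show (up w i : ℝ) + (up w j : ℝ) + (up w k : ℝ) ≤ ((d + 3 : ℕ) : ℝ)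
  exact_mod_cast this

theorem std_le {n : ℕ} {w : Fin n → ℕ} {M : ℕ} (hM : ∀ i, w i ≤ M) {x : ℝ}
    (hx : 3 * (M : ℝ) ≤ x) : Std x (fun i => (w i : ℝ)) := by
  intro i j k _ _ _
  show (w i : ℝ) + (w j : ℝ) + (w k : ℝ) ≤ x
  have h1 : (w i : ℝ) ≤ M := by exact_mod_cast hM i
  have h2 : (w j : ℝ) ≤ M := by exact_mod_cast hM j
  have h3 : (w k : ℝ) ≤ M := by exact_mod_cast hM k
  linarith

theorem nice_line {n : ℕ} : Nice ((1 : ℝ), (fun _ : Fin n => (0 : ℝ))) :=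
  Nice.nine 1 (fun _ => 0) ∅ (fun _ => le_rfl) (fun _ _ _ _ _ _ => by norm_num) (by simp)
    (by simp)

theorem nice_raise {n : ℕ} {x x' : ℝ} {y : Fin n → ℝ} (h : Nice (x, y)) (hx : x ≤ x') :
    Nice (x', y) := by
  have h1 := Nice.add _ _ h (Nice.smul (x' - x) _ (by linarith) nice_line)
  have h2 : (x, y) + (x' - x) • ((1 : ℝ), (fun _ : Fin n => (0 : ℝ))) = (x', y) := by
    ext i
    · simp
    · simp
  rwa [h2] at h1

/-- The number of different multiplicities `≥ c`. -/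
def vals {n : ℕ} (c : ℕ) (w : Fin n → ℕ) : ℕ := ((Finset.univ.image w).filter (c ≤ ·)).card

theorem vals_up {n : ℕ} (w : Fin n → ℕ) :
    ((Finset.univ.image fun i => (up w i : ℝ)).erase 0).card ≤ vals 2 w := by
  classical
  have h : (Finset.univ.image fun i => (up w i : ℝ)).erase 0 ⊆
      ((Finset.univ.image w).filter (2 ≤ ·)).image fun v : ℕ => ((v + 1 : ℕ) : ℝ) := by
    intro t ht
    rw [Finset.mem_erase, Finset.mem_image] at ht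
    obtain ⟨h1, i, -, rfl⟩ := ht
    have h2 : ¬ w i ≤ 1 := by
      intro h3
      apply h1
      unfold up
      rw [if_pos h3, Nat.cast_zero]
    rw [Finset.mem_image]
    refine ⟨w i, ?_, ?_⟩
    · rw [Finset.mem_filter]
      exact ⟨Finset.mem_image_of_mem w (Finset.mem_univ i), by omega⟩
    · unfold up
      rw [if_neg h2]
  exact (Finset.card_le_card h).trans Finset.card_image_le

theorem vals_cast {n : ℕ} (w : Fin n → ℕ) :
    ((Finset.univ.image fun i => (w i : ℝ)).erase 0).card ≤ vals 1 w := by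
  classical
  have h : (Finset.univ.image fun i => (w i : ℝ)).erase 0 ⊆
      ((Finset.univ.image w).filter (1 ≤ ·)).image fun v : ℕ => (v : ℝ) := by
    intro t ht
    rw [Finset.mem_erase, Finset.mem_image] at ht
    obtain ⟨h1, i, -, rfl⟩ := ht
    rw [Finset.mem_image]
    refine ⟨w i, ?_, rfl⟩
    rw [Finset.mem_filter]
    refine ⟨Finset.mem_image_of_mem w (Finset.mem_univ i), ?_⟩
    rw [Nat.one_le_iff_ne_zero]
    rintro h0
    rw [h0] at h1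
    exact h1 Nat.cast_zero
  exact (Finset.card_le_card h).trans Finset.card_image_le

/-- Few different values. -/
theorem nice_few {n : ℕ} {y : Fin n → ℕ} {M r : ℕ} (hM : ∀ i, y i ≤ M)
    (hr : ((Finset.univ.image fun i => (y i : ℝ)).erase 0).card ≤ r)
    (h1 : 144 * M ^ 2 ≤ ∑ i, y i ^ 2) (h2 : (16 * r + 8) * M ^ 2 ≤ ∑ i, y i ^ 2) :
    Nice (√((∑ i, y i ^ 2 : ℕ) : ℝ), fun i => (y i : ℝ)) := by
  obtain ⟨S, hS⟩ : ∃ S : ℕ, S = ∑ i, y i ^ 2 := ⟨_, rfl⟩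
  rw [← hS] at h1 h2 ⊢
  have hS0 : (0 : ℝ) ≤ S := Nat.cast_nonneg _
  have hsq := Real.sq_sqrt hS0
  have h1' : 144 * (M : ℝ) ^ 2 ≤ S := by exact_mod_cast h1
  have h2' : (16 * (r : ℝ) + 8) * (M : ℝ) ^ 2 ≤ S := by exact_mod_cast h2
  refine Nice.few _ _ (M : ℝ) (fun i => Nat.cast_nonneg _) (fun i => by exact_mod_cast hM i) ?_ ?_
    ?_
  · rw [hsq, hS]
    push_cast
    rfl
  · have : (12 * (M : ℝ)) ^ 2 ≤ √(S : ℝ) ^ 2 := by rw [hsq]; nlinarith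
    exact le_of_sq_le_sq this (Real.sqrt_nonneg _)
  · rw [hsq]
    refine le_trans ?_ h2'
    have h3 : ((((Finset.univ.image fun i => (y i : ℝ)).erase 0).card : ℕ) : ℝ) ≤ r := by
      exact_mod_cast hr
    have h4 : (0 : ℝ) ≤ (M : ℝ) ^ 2 := sq_nonneg _
    nlinarith

/-- The explicit criterion for `D - K`. -/
theorem crit_positive {n d M : ℕ} {w : Fin n → ℕ} (hM0 : 0 < M) (hM : ∀ i, up w i ≤ M)
    (hsq : ∑ i, up w i ^ 2 < (d + 3) ^ 2)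
    (h : (Standard d w ∧ (40 * ∑ i, up w i ^ 2 ≤ 39 * (d + 3) ^ 2 ∨
        160 * M ^ 4 + (d + 3) ^ 2 * ∑ i, up w i ^ 2 ≤ (d + 3) ^ 4)) ∨
      (24 * M ≤ d + 3 ∧ 700 * M ^ 6 + (d + 3) ^ 4 * ∑ i, up w i ^ 2 ≤ (d + 3) ^ 6) ∨
      (144 * M ^ 2 ≤ ∑ i, up w i ^ 2 ∧ (16 * vals 2 w + 8) * M ^ 2 ≤ ∑ i, up w i ^ 2)) :
    Positive d w := by
  refine ⟨d, w, le_rfl, fun i => le_rfl, ?_, hsq⟩
  obtain ⟨S, hS⟩ : ∃ S : ℕ, S = ∑ i, up w i ^ 2 := ⟨_, rfl⟩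
  have hS' : ∑ i, ((up w i : ℕ) : ℝ) ^ 2 = S := by
    rw [hS]
    push_cast
    rfl
  have hM0' : (0 : ℝ) < M := by exact_mod_cast hM0
  rcases h with ⟨hs, h | h⟩ | ⟨h24, h⟩ | ⟨h144, h⟩
  · refine Nice.nine _ _ ∅ (fun i => Nat.cast_nonneg _) (std_up hs) (by simp) ?_
    rw [Finset.compl_empty, Finset.sum_empty, Finset.card_empty, hS']
    rw [← hS] at h
    have : 40 * (S : ℝ) ≤ 39 * ((d : ℝ) + 3) ^ 2 := by exact_mod_cast h
    push_cast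
    linarith
  · refine Nice.sext _ _ M hM0' (fun i => Nat.cast_nonneg _) (fun i => by exact_mod_cast hM i)
      (std_up hs) (Or.inl ?_)
    rw [hS']
    rw [← hS] at h
    have : 160 * (M : ℝ) ^ 4 + ((d : ℝ) + 3) ^ 2 * S ≤ ((d : ℝ) + 3) ^ 4 := by exact_mod_cast h
    push_cast
    nlinarith
  · refine Nice.sext _ _ M hM0' (fun i => Nat.cast_nonneg _) (fun i => by exact_mod_cast hM i)
      (std_le hM ?_) (Or.inr ⟨by exact_mod_cast h24, ?_⟩)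
    · have : 24 * (M : ℝ) ≤ ((d + 3 : ℕ) : ℝ) := by exact_mod_cast h24
      linarith
    · rw [hS']
      rw [← hS] at h
      have : 700 * (M : ℝ) ^ 6 + ((d : ℝ) + 3) ^ 4 * S ≤ ((d : ℝ) + 3) ^ 6 := by exact_mod_cast h
      push_cast
      nlinarith
  · refine nice_raise (nice_few hM (vals_up w) h144 h) ?_
    refine Real.sqrt_le_iff.2 ⟨Nat.cast_nonneg _, ?_⟩
    exact_mod_cast hsq.le

/-- A nef class `(x; w)` with `x d < ∑ w i ^ 2`. -/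
theorem neg_of {n d : ℕ} {w : Fin n → ℕ} {x : ℝ} (hx : Nice (x, fun i => (w i : ℝ)))
    (h : x * d < ((∑ i, w i ^ 2 : ℕ) : ℝ)) : Negative d w := by
  refine ⟨_, hx, ?_⟩
  have h1 : ∑ i, ((w i : ℝ)) * (w i : ℝ) = ((∑ i, w i ^ 2 : ℕ) : ℝ) := by
    push_cast
    exact Finset.sum_congr rfl fun i _ => by ring
  show x * d < ∑ i, ((w i : ℝ)) * (w i : ℝ)
  rw [h1]
  exact h

/-- The explicit criterion for empty systems. -/
theorem crit_negative {n d M : ℕ} {w : Fin n → ℕ} (hM0 : 0 < M) (hM : ∀ i, w i ≤ M)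
    (h : (Standard d w ∧ (40 * d ^ 2 < 39 * ∑ i, w i ^ 2 ∨
        d ^ 2 * (∑ i, w i ^ 2) + 160 * M ^ 4 < (∑ i, w i ^ 2) ^ 2)) ∨
      (576 * M ^ 2 ≤ ∑ i, w i ^ 2 ∧
        d ^ 2 * (∑ i, w i ^ 2) ^ 2 + 700 * M ^ 6 < (∑ i, w i ^ 2) ^ 3) ∨
      (144 * M ^ 2 ≤ ∑ i, w i ^ 2 ∧ (16 * vals 1 w + 8) * M ^ 2 ≤ ∑ i, w i ^ 2 ∧
        d ^ 2 < ∑ i, w i ^ 2)) :
    Negative d w := by
  obtain ⟨S, hS⟩ : ∃ S : ℕ, S = ∑ i, w i ^ 2 := ⟨_, rfl⟩
  have hS' : ∑ i, (w i : ℝ) ^ 2 = S := by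
    rw [hS]
    push_cast
    rfl
  have hM0' : (0 : ℝ) < M := by exact_mod_cast hM0
  have hd0 : (0 : ℝ) ≤ d := Nat.cast_nonneg _
  have hS0 : (0 : ℝ) ≤ S := Nat.cast_nonneg _
  rw [← hS] at h
  -- a degree `x` with `x ^ 2 = S + δ`
  have key : ∀ δ : ℝ, 0 ≤ δ → ((d : ℝ) ^ 2 * (S + δ) < (S : ℝ) ^ 2) → (√(S + δ)) * d < S := by
    intro δ hδ h1
    have h2 : (√(S + δ) * d) ^ 2 < (S : ℝ) ^ 2 := by
      rw [mul_pow, Real.sq_sqrt (by linarith)]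
      linarith
    exact lt_of_pow_lt_pow_left₀ 2 hS0 h2
  rcases h with ⟨hs, h | h⟩ | ⟨h576, h⟩ | ⟨h144, h, hlt⟩
  · -- `x ^ 2 = (40 / 39) S`
    have h' : 40 * (d : ℝ) ^ 2 < 39 * S := by exact_mod_cast h
    have hS1 : (0 : ℝ) < S := by nlinarith [sq_nonneg (d : ℝ)]
    refine neg_of (x := √(S + S / 39)) (Nice.nine _ _ ∅ (fun i => Nat.cast_nonneg _)
      (std_cast hs ?_) (by simp) ?_) ?_
    · refine Real.le_sqrt_of_sq_le ?_
      linarith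
    · rw [Finset.compl_empty, Finset.sum_empty, Finset.card_empty, hS',
        Real.sq_sqrt (by positivity)]
      push_cast
      linarith
    · rw [← hS]
      refine key _ (by positivity) ?_
      nlinarith
  · -- `x ^ 2 = S + 160 M ^ 4 / S`
    have h' : (d : ℝ) ^ 2 * S + 160 * (M : ℝ) ^ 4 < (S : ℝ) ^ 2 := by exact_mod_cast h
    have hS1 : (0 : ℝ) < S := by
      rcases hS0.eq_or_lt with h0 | h0
      · rw [← h0] at h'
        have : (0 : ℝ) < 160 * (M : ℝ) ^ 4 := by positivity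
        nlinarith
      · exact h0
    have hdS : (d : ℝ) ^ 2 ≤ S := by
      by_contra hcon
      push Not at hcon
      have : (0 : ℝ) < 160 * (M : ℝ) ^ 4 := by positivity
      nlinarith
    have hδ0 : (0 : ℝ) ≤ 160 * (M : ℝ) ^ 4 / S := by positivity
    have hδS : 160 * (M : ℝ) ^ 4 / S * S = 160 * (M : ℝ) ^ 4 := by field_simp
    refine neg_of (x := √(S + 160 * (M : ℝ) ^ 4 / S)) (Nice.sext _ _ M hM0'
      (fun i => Nat.cast_nonneg _) (fun i => by exact_mod_cast hM i) (std_cast hs ?_)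
      (Or.inl ?_)) ?_
    · refine Real.le_sqrt_of_sq_le ?_
      linarith
    · rw [hS', Real.sq_sqrt (by linarith)]
      nlinarith
    · rw [← hS]
      refine key _ hδ0 ?_
      have : (d : ℝ) ^ 2 * (160 * (M : ℝ) ^ 4 / S) ≤ S * (160 * (M : ℝ) ^ 4 / S) :=
        mul_le_mul_of_nonneg_right hdS hδ0
      nlinarith
  · -- `x ^ 2 = S + 700 M ^ 6 / S ^ 2`
    have h' : (d : ℝ) ^ 2 * (S : ℝ) ^ 2 + 700 * (M : ℝ) ^ 6 < (S : ℝ) ^ 3 := by exact_mod_cast h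
    have h576' : 576 * (M : ℝ) ^ 2 ≤ S := by exact_mod_cast h576
    have hS1 : (0 : ℝ) < S := by nlinarith
    have hdS : (d : ℝ) ^ 2 ≤ S := by
      by_contra hcon
      push Not at hcon
      have h1 : (0 : ℝ) < 700 * (M : ℝ) ^ 6 := by positivity
      have h2 : (0 : ℝ) < (S : ℝ) ^ 2 := by positivity
      nlinarith
    obtain ⟨δ, hδ⟩ : ∃ δ : ℝ, δ = 700 * (M : ℝ) ^ 6 / (S : ℝ) ^ 2 := ⟨_, rfl⟩
    have hδ0 : (0 : ℝ) ≤ δ := by rw [hδ]; positivity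
    have hδS : δ * (S : ℝ) ^ 2 = 700 * (M : ℝ) ^ 6 := by rw [hδ]; field_simp
    have hx24 : 24 * (M : ℝ) ≤ √(S + δ) := by
      refine Real.le_sqrt_of_sq_le ?_
      nlinarith
    refine neg_of (x := √(S + δ)) (Nice.sext _ _ M hM0'
      (fun i => Nat.cast_nonneg _) (fun i => by exact_mod_cast hM i) (std_le hM ?_)
      (Or.inr ⟨hx24, ?_⟩)) ?_
    · linarith
    · have h4 : √(S + δ) ^ 4 = (S + δ) ^ 2 := by
        rw [show (4 : ℕ) = 2 * 2 from rfl, pow_mul, Real.sq_sqrt (by linarith)]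
      rw [hS', h4, Real.sq_sqrt (by linarith)]
      have h5 : (S : ℝ) ^ 2 ≤ (S + δ) ^ 2 := by nlinarith
      have h6 : (S : ℝ) ^ 2 * δ ≤ (S + δ) ^ 2 * δ := mul_le_mul_of_nonneg_right h5 hδ0
      have h7 : (S : ℝ) + δ - S = δ := by ring
      rw [h7]
      linarith
    · rw [← hS]
      refine key _ hδ0 ?_
      have h5 : (d : ℝ) ^ 2 * δ ≤ S * δ := mul_le_mul_of_nonneg_right hdS hδ0
      have h6 : (d : ℝ) ^ 2 * S + S * δ < S ^ 2 := by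
        have h7 : ((d : ℝ) ^ 2 * S + S * δ) * S < S ^ 2 * S := by nlinarith
        exact lt_of_mul_lt_mul_right h7 hS1.le
      nlinarith
  · rw [hS] at h144 h hlt
    refine neg_of (nice_few hM (vals_cast w) h144 h) ?_
    rw [← hS]
    have hlt' : (d : ℝ) ^ 2 < S := by
      rw [hS]
      exact_mod_cast hlt
    have := key 0 le_rfl (by nlinarith)
    rwa [add_zero] at this

/-- Large degrees. -/
theorem window_pos {n d M : ℕ} {w : Fin n → ℕ} (hM0 : 0 < M) (hM : ∀ i, up w i ≤ M)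
    (h1 : 576 * M ^ 2 ≤ ∑ i, up w i ^ 2) (h2 : 122500 * M ^ 12 ≤ (∑ i, up w i ^ 2) ^ 5)
    (hd : ∑ i, up w i ^ 2 ≤ (d + 2) ^ 2) : Positive d w := by
  obtain ⟨S, hS⟩ : ∃ S : ℕ, S = ∑ i, up w i ^ 2 := ⟨_, rfl⟩
  have hlt : ∑ i, up w i ^ 2 < (d + 3) ^ 2 := lt_of_le_of_lt hd (Nat.pow_lt_pow_left (by omega) (by norm_num))
  refine crit_positive hM0 hM hlt (Or.inr (Or.inl ?_))
  rw [← hS] at h1 h2 hd ⊢
  obtain ⟨x, hx⟩ : ∃ x : ℝ, x = √(S : ℝ) := ⟨_, rfl⟩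
  have hx0 : 0 ≤ x := by rw [hx]; exact Real.sqrt_nonneg _
  have hx2 : x ^ 2 = S := by rw [hx]; exact Real.sq_sqrt (Nat.cast_nonneg _)
  have h1' : 576 * (M : ℝ) ^ 2 ≤ x ^ 2 := by rw [hx2]; exact_mod_cast h1
  have hMx : 24 * (M : ℝ) ≤ x := by
    have : (24 * (M : ℝ)) ^ 2 ≤ x ^ 2 := by linarith
    exact le_of_sq_le_sq this hx0
  have hd' : x ≤ (d : ℝ) + 2 := by
    have : x ^ 2 ≤ ((d : ℝ) + 2) ^ 2 := by rw [hx2]; exact_mod_cast hd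
    exact le_of_sq_le_sq this (by positivity)
  have h2' : 350 * (M : ℝ) ^ 6 ≤ x ^ 5 := by
    have h3 : (350 * (M : ℝ) ^ 6) ^ 2 ≤ (x ^ 5) ^ 2 := by
      have h4 : (x ^ 5) ^ 2 = (S : ℝ) ^ 5 := by rw [← hx2]; ring
      rw [h4]
      have h5 : 122500 * (M : ℝ) ^ 12 ≤ (S : ℝ) ^ 5 := by exact_mod_cast h2
      nlinarith
    exact le_of_sq_le_sq h3 (by positivity)
  have hM0' : (0 : ℝ) ≤ M := Nat.cast_nonneg _
  constructor
  · have : 24 * (M : ℝ) ≤ ((d + 3 : ℕ) : ℝ) := by push_cast; linarith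
    exact_mod_cast this
  · have h3 : 700 * (M : ℝ) ^ 6 + ((d : ℝ) + 3) ^ 4 * S ≤ ((d : ℝ) + 3) ^ 6 := by
      obtain ⟨e, he⟩ : ∃ e : ℝ, e = (d : ℝ) + 3 := ⟨_, rfl⟩
      rw [← he]
      have hex : x + 1 ≤ e := by rw [he]; linarith
      have h4 : x ^ 4 ≤ e ^ 4 := pow_le_pow_left₀ hx0 (by linarith) 4
      have h5 : 2 * x ≤ e ^ 2 - S := by
        rw [← hx2]
        nlinarith
      have h6 : x ^ 4 * (2 * x) ≤ e ^ 4 * (e ^ 2 - S) :=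
        mul_le_mul h4 h5 (by linarith) (by positivity)
      nlinarith
    exact_mod_cast h3

/-- Small degrees. -/
theorem window_neg {n d M : ℕ} {w : Fin n → ℕ} (hM0 : 0 < M) (hM : ∀ i, w i ≤ M)
    (h1 : 576 * M ^ 2 ≤ ∑ i, w i ^ 2) (h2 : 130000 * M ^ 12 ≤ (∑ i, w i ^ 2) ^ 5)
    (hd : (d + 1) ^ 2 ≤ ∑ i, w i ^ 2) : Negative d w := by
  refine crit_negative hM0 hM (Or.inr (Or.inl ⟨h1, ?_⟩))
  obtain ⟨S, hS⟩ : ∃ S : ℕ, S = ∑ i, w i ^ 2 := ⟨_, rfl⟩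
  rw [← hS] at h1 h2 hd ⊢
  obtain ⟨x, hx⟩ : ∃ x : ℝ, x = √(S : ℝ) := ⟨_, rfl⟩
  have hx0 : 0 ≤ x := by rw [hx]; exact Real.sqrt_nonneg _
  have hx2 : x ^ 2 = S := by rw [hx]; exact Real.sq_sqrt (Nat.cast_nonneg _)
  have h1' : 576 * (M : ℝ) ^ 2 ≤ x ^ 2 := by rw [hx2]; exact_mod_cast h1
  have hMx : 24 * (M : ℝ) ≤ x := by
    have : (24 * (M : ℝ)) ^ 2 ≤ x ^ 2 := by linarith
    exact le_of_sq_le_sq this hx0
  have hM1 : (1 : ℝ) ≤ M := by exact_mod_cast hM0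
  have hd' : (d : ℝ) + 1 ≤ x := by
    have : ((d : ℝ) + 1) ^ 2 ≤ x ^ 2 := by rw [hx2]; exact_mod_cast hd
    exact le_of_sq_le_sq this hx0
  have h2' : 360 * (M : ℝ) ^ 6 ≤ x ^ 5 := by
    have h3 : (360 * (M : ℝ) ^ 6) ^ 2 ≤ (x ^ 5) ^ 2 := by
      have h4 : (x ^ 5) ^ 2 = (S : ℝ) ^ 5 := by rw [← hx2]; ring
      rw [h4]
      have h5 : 130000 * (M : ℝ) ^ 12 ≤ (S : ℝ) ^ 5 := by exact_mod_cast h2
      have h6 : (0 : ℝ) ≤ (M : ℝ) ^ 12 := by positivity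
      nlinarith
    exact le_of_sq_le_sq h3 (by positivity)
  have h3 : (d : ℝ) ^ 2 * (S : ℝ) ^ 2 + 700 * (M : ℝ) ^ 6 < (S : ℝ) ^ 3 := by
    have hd0 : (0 : ℝ) ≤ d := Nat.cast_nonneg _
    have h4 : 2 * x - 1 ≤ x ^ 2 - (d : ℝ) ^ 2 := by nlinarith
    have h5 : (47 / 24) * x ≤ 2 * x - 1 := by linarith
    have h6 : x ^ 4 * ((47 / 24) * x) ≤ x ^ 4 * (x ^ 2 - (d : ℝ) ^ 2) :=
      mul_le_mul_of_nonneg_left (by linarith) (by positivity)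
    have h7 : (0 : ℝ) < (M : ℝ) ^ 6 := by positivity
    rw [← hx2]
    nlinarith
  exact_mod_cast h3

end Pool.Agent.V5helper95.KV
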