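import Pool.Agent.V5helper95.KV.Mtx

set_option autoImplicit false

/-!
# The trace of Frobenius: independence of the conditions of `p L + K` implies that of `L + K`
-/

namespace Pool.Agent.V5helper95.KV

open MvPolynomial Pool.Agent.H248R5

/-- The entries. -/
def kf {R : Type} [CommRing R] {n : ℕ} (P : Fin n → Fin 2 → R) (l : Fin n) (x c : ℕ × ℕ) : R :=
  ((c.1.choose x.1 * c.2.choose x.2 : ℕ) : R) * P l 0 ^ (c.1 - x.1) * P l 1 ^ (c.2 - x.2)

theorem tmul {R : Type} [CommRing R] {n : ℕ} {w : Fin n → ℕ} {P : Fin n → Fin 2 → R} {d : ℕ}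
    (y : (Σ l : Fin n, {x // x ∈ J (w l)}) → R) (Y : Fin n → ℕ × ℕ → R)
    (h : ∀ r, y r = Y r.1 r.2.1) (c : {x // x ∈ J (d + 1)}) :
    (cm w P d).transpose.mulVec y c = ∑ l, ∑ x ∈ J (w l), kf P l x c.1 * Y l x := by
  unfold Matrix.mulVec dotProduct
  show ∑ r, cm w P d r c * y r = _
  rw [Fintype.sum_sigma]
  refine Finset.sum_congr rfl fun l _ => ?_
  rw [← Finset.sum_coe_sort (J (w l)) (fun x => kf P l x c.1 * Y l x)]
  exact Finset.sum_congr rfl fun x _ => by rw [h]; rfl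

/-- The exponents seen by the trace. -/
def fr (p : ℕ) (x : ℕ × ℕ) : ℕ × ℕ := (p * x.1 + (p - 1), p * x.2 + (p - 1))

theorem div_fr {p : ℕ} (hp : 0 < p) (x : ℕ) : (p * x + (p - 1)) / p = x := by
  rw [Nat.mul_add_div hp, Nat.div_eq_of_lt (by omega), add_zero]

theorem mod_fr {p : ℕ} (hp : 0 < p) (x : ℕ) : (p * x + (p - 1)) % p = p - 1 := by
  rw [Nat.mul_add_mod, Nat.mod_eq_of_lt (by omega)]

theorem luc {K : Type} [Field K] (p : ℕ) [Fact p.Prime] [CharP K p] (c x : ℕ) :
    (c.choose (p * x + (p - 1)) : K) = if c % p = p - 1 then ((c / p).choose x : K) else 0 := by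
  have hp : 0 < p := (Fact.out : p.Prime).pos
  have h := Choose.choose_modEq_choose_mod_mul_choose_div_nat (n := c) (k := p * x + (p - 1))
    (p := p)
  rw [mod_fr hp, div_fr hp] at h
  rw [(CharP.natCast_eq_natCast K p).2 h]
  split_ifs with h1
  · rw [h1, Nat.choose_self, one_mul]
  · have h2 : c % p < p := Nat.mod_lt _ hp
    rw [Nat.choose_eq_zero_of_lt (by omega), zero_mul, Nat.cast_zero]

theorem cast_pow_char {K : Type} [Field K] (p : ℕ) [Fact p.Prime] [CharP K p] (m : ℕ) :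
    (m : K) ^ p = m := by
  have := map_natCast (frobenius K p) m
  rwa [frobenius_def] at this

theorem exp_fr {p c x : ℕ} (h : c % p = p - 1) :
    c - (p * x + (p - 1)) = (c / p - x) * p := by
  have h1 := Nat.div_add_mod c p
  rw [h] at h1
  conv_lhs => rw [← h1]
  rw [Nat.add_sub_add_right, ← Nat.mul_sub, mul_comm]

theorem kf_fr {K : Type} [Field K] (p : ℕ) [Fact p.Prime] [CharP K p] {n : ℕ}
    (P : Fin n → Fin 2 → K) (l : Fin n) (x c : ℕ × ℕ) :
    kf P l (fr p x) c = if c.1 % p = p - 1 ∧ c.2 % p = p - 1 then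
      (kf P l x (c.1 / p, c.2 / p)) ^ p else 0 := by
  unfold kf fr
  simp only [Nat.cast_mul]
  rw [luc, luc]
  by_cases h1 : c.1 % p = p - 1
  · by_cases h2 : c.2 % p = p - 1
    · rw [if_pos h1, if_pos h2, if_pos ⟨h1, h2⟩, mul_pow, mul_pow, mul_pow, cast_pow_char,
        cast_pow_char, exp_fr h1, exp_fr h2, pow_mul, pow_mul]
    · rw [if_neg h2, if_neg (show ¬ (c.1 % p = p - 1 ∧ c.2 % p = p - 1) from fun h => h2 h.2),
        mul_zero, zero_mul, zero_mul]
  · rw [if_neg h1, if_neg (show ¬ (c.1 % p = p - 1 ∧ c.2 % p = p - 1) from fun h => h1 h.1),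
      zero_mul, zero_mul, zero_mul]

theorem num_fr {p e a b : ℕ} (hp : 0 < p) (he : 3 ≤ e) (ha : a % p = p - 1)
    (hb : b % p = p - 1) (h : a + b < p * e - 3 + 1) : a / p + b / p < e - 3 + 1 := by
  have h3 := Nat.div_add_mod a p
  have h4 := Nat.div_add_mod b p
  rw [ha] at h3
  rw [hb] at h4
  by_contra hcon
  have h5 : p * (e - 2) ≤ p * (a / p + b / p) := Nat.mul_le_mul_left p (by omega)
  obtain ⟨t, rfl⟩ : ∃ t, e = t + 3 := ⟨e - 3, by omega⟩
  have e1 : p * (a / p + b / p) = p * (a / p) + p * (b / p) := by ring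
  have e2 : p * (t + 3 - 2) = p * t + p := by
    rw [show t + 3 - 2 = t + 1 by omega]
    ring
  have e3 : p * (t + 3) = p * t + 3 * p := by ring
  rw [e1, e2] at h5
  rw [e3] at h
  omega

theorem trace_step {K : Type} [Field K] (p : ℕ) [Fact p.Prime] [CharP K p] {n : ℕ}
    {s s' : Fin n → ℕ} {P : Fin n → Fin 2 → K} {e : ℕ} (he : 3 ≤ e)
    (hs' : ∀ i, s' i = if s i = 0 then 0 else p * (s i + 1) - 1)
    (h : ∀ y, (cm s' P (p * e - 3)).transpose.mulVec y = 0 → y = 0) :
    ∀ y, (cm s P (e - 3)).transpose.mulVec y = 0 → y = 0 := by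
  classical
  intro y hy
  have hp : 0 < p := (Fact.out : p.Prime).pos
  obtain ⟨Y, hY⟩ : ∃ Y : Fin n → ℕ × ℕ → K,
      Y = fun l x => if h : x ∈ J (s l) then y ⟨l, ⟨x, h⟩⟩ else 0 := ⟨_, rfl⟩
  have hyY : ∀ r, y r = Y r.1 r.2.1 := by
    intro r
    rw [hY]
    simp only
    rw [dif_pos r.2.2]
  obtain ⟨Z, hZ⟩ : ∃ Z : Fin n → ℕ × ℕ → K,
      Z = fun l x => if x.1 % p = p - 1 ∧ x.2 % p = p - 1 then Y l (x.1 / p, x.2 / p) ^ p
        else 0 := ⟨_, rfl⟩
  have hZf : ∀ l x, Z l (fr p x) = Y l x ^ p := by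
    intro l x
    rw [hZ]
    unfold fr
    simp only
    rw [if_pos ⟨mod_fr hp _, mod_fr hp _⟩, div_fr hp, div_fr hp]
  have hmaps : ∀ l x, x ∈ J (s l) → fr p x ∈ J (s' l) := by
    intro l x hx
    rw [mem_J] at hx ⊢
    rw [hs' l, if_neg (by omega)]
    unfold fr
    simp only
    obtain ⟨t, ht⟩ : ∃ t, s l = x.1 + x.2 + 1 + t := ⟨s l - (x.1 + x.2 + 1), by omega⟩
    rw [ht]
    have e1 : p * (x.1 + x.2 + 1 + t + 1) = p * x.1 + p * x.2 + p * t + 2 * p := by ring
    rw [e1]
    omega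
  -- the new functional
  have key : ∀ c' : {x // x ∈ J (p * e - 3 + 1)},
      (cm s' P (p * e - 3)).transpose.mulVec (fun r => Z r.1 r.2.1) c' = 0 := by
    intro c'
    rw [tmul _ Z (fun r => rfl)]
    have h1 : ∀ l, ∑ x ∈ J (s' l), kf P l x c'.1 * Z l x =
        ∑ x ∈ J (s l), kf P l (fr p x) c'.1 * Y l x ^ p := by
      intro l
      symm
      refine Finset.sum_of_injOn (fr p) ?_ ?_ ?_ ?_
      · intro a _ b _ hab
        unfold fr at hab
        simp only [Prod.mk.injEq, Nat.add_right_cancel_iff] at hab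
        exact Prod.ext (Nat.eq_of_mul_eq_mul_left hp hab.1) (Nat.eq_of_mul_eq_mul_left hp hab.2)
      · intro x hx
        exact hmaps l x hx
      · intro x hx hnot
        rw [hZ]
        simp only
        by_cases hc : x.1 % p = p - 1 ∧ x.2 % p = p - 1
        · exfalso
          apply hnot
          have h1 := Nat.div_add_mod x.1 p
          have h2 := Nat.div_add_mod x.2 p
          rw [hc.1] at h1
          rw [hc.2] at h2
          refine ⟨(x.1 / p, x.2 / p), ?_, Prod.ext h1 h2⟩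
          rw [Finset.mem_coe, mem_J]
          rw [mem_J, hs' l] at hx
          by_cases hs0 : s l = 0
          · rw [if_pos hs0] at hx
            omega
          · rw [if_neg hs0] at hx
            show x.1 / p + x.2 / p < s l
            obtain ⟨t, ht⟩ : ∃ t, s l = t + 1 := ⟨s l - 1, by omega⟩
            rw [ht] at hx ⊢
            by_contra hcon
            have h3 : p * (t + 1) ≤ p * (x.1 / p + x.2 / p) := Nat.mul_le_mul_left p (by omega)
            have e1 : p * (x.1 / p + x.2 / p) = p * (x.1 / p) + p * (x.2 / p) := by ring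
            have e2 : p * (t + 1) = p * t + p := by ring
            have e3 : p * (t + 1 + 1) = p * t + 2 * p := by ring
            rw [e1, e2] at h3
            rw [e3] at hx
            omega
        · rw [if_neg hc, mul_zero]
      · intro x _
        rw [hZf]
    rw [Finset.sum_congr rfl fun l _ => h1 l]
    by_cases hc : c'.1.1 % p = p - 1 ∧ c'.1.2 % p = p - 1
    · have hmem : (c'.1.1 / p, c'.1.2 / p) ∈ J (e - 3 + 1) := by
        rw [mem_J]
        exact num_fr hp he hc.1 hc.2 (mem_J.1 c'.2)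
      have h2 : ∑ l, ∑ x ∈ J (s l), kf P l (fr p x) c'.1 * Y l x ^ p =
          (∑ l, ∑ x ∈ J (s l), kf P l x (c'.1.1 / p, c'.1.2 / p) * Y l x) ^ p := by
        rw [sum_pow_char]
        refine Finset.sum_congr rfl fun l _ => ?_
        rw [sum_pow_char]
        refine Finset.sum_congr rfl fun x _ => ?_
        rw [kf_fr, if_pos hc, mul_pow]
      have h3 := tmul (P := P) (d := e - 3) y Y hyY ⟨_, hmem⟩
      rw [hy] at h3
      rw [h2, ← h3]
      exact zero_pow hp.ne'
    · refine Finset.sum_eq_zero fun l _ => Finset.sum_eq_zero fun x _ => ?_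
      rw [kf_fr, if_neg hc, zero_mul]
  have h2 := h (fun r => Z r.1 r.2.1) (funext fun c => key c)
  funext r
  have h3 := congrFun h2 ⟨r.1, ⟨fr p r.2.1, hmaps r.1 _ r.2.2⟩⟩
  simp only [Pi.zero_apply] at h3
  rw [hZf] at h3
  rw [hyY]
  exact pow_eq_zero_iff hp.ne' |>.1 h3

end Pool.Agent.V5helper95.KV
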