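import Pool.Agent.V5helper95.KV.Ram

set_option autoImplicit false

/-!
# The vanishing theorem of Ramanujam, Kawamata and Viehweg on blow-ups of the plane
-/

namespace Pool.Agent.V5helper95.KV

open MvPolynomial Pool.Agent.W609 Pool.Agent.W609.CR Pool.Agent.TH167.SH Pool.Agent.H248R5
  Pool.Agent.H248R6

theorem num_hodge {a b A B C : ℝ} (ha : 0 < a) (hb : 0 < b) (gA : 0 ≤ A) (gB : 0 ≤ B) (h1 : A + C ≤ (a + b) * a)
    (h2 : C + B ≤ (a + b) * b) (h3 : a * b ≤ C) (h4 : C ^ 2 ≤ A * B)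
    (h5 : A + 2 * C + B < (a + b) ^ 2) : False := by
  obtain ⟨δ, hδ⟩ : ∃ δ, δ = C - a * b := ⟨_, rfl⟩
  have hδ0 : 0 ≤ δ := by rw [hδ]; linarith
  have hC : C = a * b + δ := by rw [hδ]; ring
  have hA : A ≤ a ^ 2 - δ := by rw [hC] at h1; nlinarith
  have hB : B ≤ b ^ 2 - δ := by rw [hC] at h2; nlinarith
  have hab : 0 < a * b := mul_pos ha hb
  have hAB : 0 < A * B := lt_of_lt_of_le (by rw [hC]; positivity) h4
  -- both are positive
  have hpos : 0 < A ∧ 0 < B := by
    constructor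
    · rcases gA.eq_or_lt with h | h
      · rw [← h, zero_mul] at hAB
        exact absurd hAB (lt_irrefl _)
      · exact h
    · rcases gB.eq_or_lt with h | h
      · rw [← h, mul_zero] at hAB
        exact absurd hAB (lt_irrefl _)
      · exact h
  obtain ⟨hA0, hB0⟩ := hpos
  have h6 : A * B ≤ (a ^ 2 - δ) * (b ^ 2 - δ) :=
    mul_le_mul hA hB hB0.le (by linarith)
  have h7 : δ * (a + b) ^ 2 ≤ 0 := by
    have : (a * b + δ) ^ 2 ≤ (a ^ 2 - δ) * (b ^ 2 - δ) := by
      rw [hC] at h4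
      exact h4.trans h6
    nlinarith
  have h8 : δ = 0 := by
    have h9 : 0 < (a + b) ^ 2 := by positivity
    nlinarith
  rw [h8] at hA hB hC
  have h10 : A * B ≤ a ^ 2 * B := mul_le_mul_of_nonneg_right (by linarith) hB0.le
  have h11 : (a * b) ^ 2 ≤ A * B := by
    rw [hC, add_zero] at h4
    exact h4
  -- equality
  have h12 : b ^ 2 ≤ B := by
    have h13 : a ^ 2 * b ^ 2 ≤ a ^ 2 * B := by nlinarith
    exact le_of_mul_le_mul_left h13 (by positivity)
  have h14 : a ^ 2 ≤ A := by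
    have h13 : a ^ 2 * b ^ 2 ≤ A * b ^ 2 := by nlinarith
    exact le_of_mul_le_mul_right h13 (by positivity)
  nlinarith

variable {K : Type} [Field K]

/-- The vanishing theorem: `L = (e; u)` nonnegative on the effective classes, `L ^ 2 > 0`,
`χ (L) > 0`; the conditions of orders `u i - 1` at the points are independent in degree `e - 3`. -/
theorem vanishing [IsAlgClosed K] {n : ℕ} {s u : Fin n → ℕ} {P : Fin n → Fin 2 → K}
    (hx : Function.Injective fun j => P j 0) (hy : Function.Injective fun j => P j 1) {e : ℕ}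
    (he : 3 ≤ e) (hu : ∀ i, u i = if s i = 0 then 0 else s i + 1)
    (hchi : ∑ i, (u i + 1).choose 2 < (e + 2).choose 2)
    (hsq : ∑ i, (u i : ℝ) ^ 2 < (e : ℝ) ^ 2)
    (hnef : ∀ (d : ℕ) (m : Fin n → ℕ) (G : (MvPolynomial (Fin 3) K)), G ≠ 0 → G.IsHomogeneous d →
      (∀ i, Van (aff (P i)) (m i) G) → ∑ i, (u i : ℝ) * (m i : ℝ) ≤ e * d) :
    Module.finrank K ↥(forms s P (e - 3)) + ∑ i, (s i + 1).choose 2 = (e - 3 + 2).choose 2 := by
  classical
  have h0 := le_dim s P (e - 3)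
  by_contra hcon
  have hdep : (e - 3 + 2).choose 2 < Module.finrank K ↥(forms s P (e - 3)) +
      ∑ i, (s i + 1).choose 2 := lt_of_le_of_ne h0 (Ne.symm hcon)
  -- the curve
  obtain ⟨F, hF, hF0⟩ : ∃ F ∈ forms u P e, F ≠ 0 := by
    by_contra hno
    push Not at hno
    have h1 := le_dim u P e
    have h2 : forms u P e = ⊥ := (Submodule.eq_bot_iff _).2 hno
    rw [h2, finrank_bot] at h1
    omega
  obtain ⟨hFh, hFt⟩ := mem_forms.1 hF
  have hFs : ∀ i, 0 < s i → tau (P i) F ∈ (idealOfVars (Fin 2) K) ^ (s i + 1) := by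
    intro i hi
    have h1 := hFt i
    rw [hu i, if_neg (by omega)] at h1
    exact h1
  obtain ⟨A, B, e1, e2, β, hAB, hA, hB, hee, he1, he2, hβ, hle⟩ :=
    ramanujam hx hy he hdep hF0 hFh hFs
  have hA0 : A ≠ 0 := by
    rintro rfl
    rw [zero_mul] at hAB
    exact hF0 hAB
  have hB0 : B ≠ 0 := by
    rintro rfl
    rw [mul_zero] at hAB
    exact hF0 hAB
  obtain ⟨b, hb⟩ : ∃ b : Fin n → ℕ, b = fun i => min (u i) (β i) := ⟨_, rfl⟩
  obtain ⟨a, ha⟩ : ∃ a : Fin n → ℕ, a = fun i => u i - min (u i) (β i) := ⟨_, rfl⟩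
  have hab : ∀ i, u i = a i + b i := by
    intro i
    rw [ha, hb]
    simp only
    have : min (u i) (β i) ≤ u i := min_le_left _ _
    omega
  have n1 := hnef e2 b B hB0 hB fun i => van_mono (by rw [hb]; exact min_le_right _ _) (hβ i).1
  have n2 := hnef e1 a A hA0 hA fun i => by
    have h1 : a i = u i - β i := by
      rw [ha]
      simp only
      rcases le_total (u i) (β i) with h | h
      · rw [min_eq_left h]
        omega
      · rw [min_eq_right h]
    rw [h1]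
    rcases le_total (u i) (β i) with h | h
    · rw [Nat.sub_eq_zero_of_le h]
      exact van_zero _ _
    · refine van_of_mul (hβ i) ?_
      rw [Nat.add_sub_cancel' h, mul_comm, ← hAB]
      exact (Pool.Agent.TH167.TT.van_tau hFh).2 (hFt i)
  have n3 : e1 * e2 ≤ ∑ i, a i * b i := by
    refine hle.trans (Finset.sum_le_sum fun i _ => ?_)
    rw [ha, hb]
    simp only
    rcases Nat.eq_zero_or_pos (s i) with h | h
    · rw [h]
      have : min (0 + 1) (β i) * (0 + 1 - min (0 + 1) (β i)) = 0 := by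
        rcases Nat.eq_zero_or_pos (β i) with h2 | h2
        · rw [h2]
          simp
        · rw [min_eq_left (by omega)]
      rw [this]
      exact Nat.zero_le _
    · rw [hu i, if_neg (by omega), mul_comm]
  have c1 : ∑ i, (u i : ℝ) * (b i : ℝ) = ∑ i, (a i : ℝ) * (b i : ℝ) + ∑ i, (b i : ℝ) ^ 2 := by
    rw [← Finset.sum_add_distrib]
    refine Finset.sum_congr rfl fun i _ => ?_
    rw [hab i]
    push_cast
    ring
  have c2 : ∑ i, (u i : ℝ) * (a i : ℝ) = ∑ i, (a i : ℝ) ^ 2 + ∑ i, (a i : ℝ) * (b i : ℝ) := by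
    rw [← Finset.sum_add_distrib]
    refine Finset.sum_congr rfl fun i _ => ?_
    rw [hab i]
    push_cast
    ring
  have c3 : ∑ i, (u i : ℝ) ^ 2 = ∑ i, (a i : ℝ) ^ 2 + 2 * ∑ i, (a i : ℝ) * (b i : ℝ) +
      ∑ i, (b i : ℝ) ^ 2 := by
    rw [Finset.mul_sum, ← Finset.sum_add_distrib, ← Finset.sum_add_distrib]
    refine Finset.sum_congr rfl fun i _ => ?_
    rw [hab i]
    push_cast
    ring
  have c4 : (∑ i, (a i : ℝ) * (b i : ℝ)) ^ 2 ≤ (∑ i, (a i : ℝ) ^ 2) * ∑ i, (b i : ℝ) ^ 2 :=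
    Finset.sum_mul_sq_le_sq_mul_sq _ _ _
  have c5 : (e1 : ℝ) * e2 ≤ ∑ i, (a i : ℝ) * (b i : ℝ) := by exact_mod_cast n3
  have he' : (e : ℝ) = e1 + e2 := by rw [hee]; push_cast; ring
  rw [c1, he'] at n1
  rw [c2, he'] at n2
  rw [c3, he'] at hsq
  exact num_hodge (by exact_mod_cast he1) (by exact_mod_cast he2)
    (Finset.sum_nonneg fun i _ => sq_nonneg _) (Finset.sum_nonneg fun i _ => sq_nonneg _)
    n2 n1 c5 c4 hsq

end Pool.Agent.V5helper95.KV
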