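import Pool.Agent.V5helper95.KV.Spr
import Pool.Agent.V5helper95.KV.Tra
import Pool.Agent.V5helper95.KV.Van
import Pool.Agent.R355.Round3

set_option autoImplicit false

/-!
# The vanishing theorem of Kawamata and Viehweg for general points, without sections
-/

namespace Pool.Agent.V5helper95.KV

open MvPolynomial Pool.Agent.W609 Pool.Agent.W609.CR Pool.Agent.TH167 Pool.Agent.TH167.SH
  Pool.Agent.H248R5

/-- From the irreducible curves to all curves. -/
theorem eff_le {K : Type} [Field K] {s : ℕ} {P : Fin s → Fin 2 → K} {x : ℝ} {y : Fin s → ℝ}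
    (hy : ∀ i, 0 ≤ y i)
    (h : ∀ (G : MvPolynomial (Fin 3) K) (d : ℕ) (w : Fin s → ℕ), Irreducible G →
      G.IsHomogeneous d → (∀ j, Ord (aff (P j)) (w j) G) → ∑ l, y l * (w l : ℝ) ≤ x * d) :
    ∀ (d : ℕ) (w : Fin s → ℕ) (F : MvPolynomial (Fin 3) K), F ≠ 0 → F.IsHomogeneous d →
      (∀ j, Van (aff (P j)) (w j) F) → ∑ l, y l * (w l : ℝ) ≤ x * d := by
  intro d
  induction d using Nat.strong_induction_on with
  | _ d ih =>
    intro w F hF0 hF hv
    rcases Nat.eq_zero_or_pos d with rfl | hd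
    · have h0 : ∀ j, w j = 0 := fun j => Nat.le_zero.1 (van_le hF0 hF (hv j))
      simp [h0]
    · have hFu : ¬ IsUnit F := by
        intro hu
        have h1 := (isUnit_iff_totalDegree_of_isReduced.1 hu).2
        rw [hF.totalDegree hF0] at h1
        omega
      obtain ⟨G, hG, H, hH⟩ := WfDvdMonoid.exists_irreducible_factor hFu hF0
      have hH0 : H ≠ 0 := by
        rintro rfl
        exact hF0 (by rw [hH, mul_zero])
      have hGh := Pool.Agent.Chud.homog_of_dvd hF hF0 ⟨H, hH⟩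
      have hHh := Pool.Agent.Chud.homog_of_dvd hF hF0 ⟨G, by rw [hH, mul_comm]⟩
      obtain ⟨e, he⟩ : ∃ e, e = G.totalDegree := ⟨_, rfl⟩
      obtain ⟨e', he'⟩ : ∃ e', e' = H.totalDegree := ⟨_, rfl⟩
      rw [← he] at hGh
      rw [← he'] at hHh
      have hde : d = e + e' := by
        rw [he, he', ← MvPolynomial.totalDegree_mul_of_isDomain hG.ne_zero hH0, ← hH,
          hF.totalDegree hF0]
      have he0 : e ≠ 0 := by
        intro h0
        rw [h0] at he
        refine hG.not_isUnit ?_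
        rw [(MvPolynomial.totalDegree_eq_zero_iff_eq_C).1 he.symm]
        refine (isUnit_iff_ne_zero.2 fun hc => hG.ne_zero ?_).map (C : K →+* _)
        rw [(MvPolynomial.totalDegree_eq_zero_iff_eq_C).1 he.symm, hc, map_zero]
      choose u hu using fun j => TT.exists_ord (p := P j) hG.ne_zero hGh
      have h1 := h G e u hG hGh hu
      have h2 := ih e' (by omega) (fun j => w j - u j) H hH0 hHh (fun j => by
        rcases Nat.lt_or_ge (w j) (u j) with h3 | h3
        · have : w j - u j = 0 := by omega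
          rw [this]
          exact van_zero _ _
        · refine van_of_mul (hu j) ?_
          have h4 : u j + (w j - u j) = w j := by omega
          rw [h4, ← hH]
          exact hv j)
      have h3 : ∑ l, y l * (w l : ℝ) ≤ ∑ l, y l * (u l : ℝ) + ∑ l, y l * ((w l - u l : ℕ) : ℝ) := by
        rw [← Finset.sum_add_distrib]
        refine Finset.sum_le_sum fun l _ => ?_
        rw [← mul_add]
        refine mul_le_mul_of_nonneg_left ?_ (hy l)
        have : w l ≤ u l + (w l - u l) := by omega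
        exact_mod_cast this
      rw [hde]
      push_cast
      have h4 : x * ((e : ℝ) + e') = x * e + x * e' := by ring
      rw [h4]
      linarith

theorem two_ch (m : ℕ) : 2 * ((m + 1).choose 2 : ℤ) = (m : ℤ) * (m + 1) := by
  have h := Nat.choose_two_right (m + 1)
  have h2 : 2 ∣ (m + 1) * (m + 1 - 1) := by
    rw [Nat.add_sub_cancel, mul_comm]
    exact (Nat.even_mul_succ_self m).two_dvd
  obtain ⟨t, ht⟩ := h2
  rw [ht, Nat.mul_div_cancel_left _ (by norm_num)] at h
  rw [h]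
  rw [Nat.add_sub_cancel] at ht
  have : (((m + 1) * m : ℕ) : ℤ) = ((2 * t : ℕ) : ℤ) := by rw [ht]
  push_cast at this
  linarith

/-- The multiples of a class of positive square have positive Euler characteristic. -/
theorem exists_mult {n : ℕ} {u : Fin n → ℕ} {e : ℕ} (hsq : ∑ i, u i ^ 2 < e ^ 2) :
    ∃ N0 : ℕ, 0 < N0 ∧ ∀ N, N0 ≤ N →
      ∑ i, (N * u i + 1).choose 2 < (N * e + 2).choose 2 := by
  refine ⟨∑ i, u i + 1, by omega, fun N hN => ?_⟩
  have h1 : 2 * ((∑ i, (N * u i + 1).choose 2 : ℕ) : ℤ) =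
      (N : ℤ) ^ 2 * ((∑ i, u i ^ 2 : ℕ) : ℤ) + N * ((∑ i, u i : ℕ) : ℤ) := by
    push_cast
    rw [Finset.mul_sum, Finset.mul_sum, Finset.mul_sum, ← Finset.sum_add_distrib]
    refine Finset.sum_congr rfl fun i _ => ?_
    have := two_ch (N * u i)
    push_cast at this
    rw [this]
    ring
  have h2 := two_ch (N * e + 1)
  have h3 : ((∑ i, u i ^ 2 : ℕ) : ℤ) + 1 ≤ (e : ℤ) ^ 2 := by exact_mod_cast hsq
  have h4 : ((∑ i, u i : ℕ) : ℤ) + 1 ≤ N := by exact_mod_cast hN
  have h5 : (0 : ℤ) ≤ ((∑ i, u i : ℕ) : ℤ) := Int.natCast_nonneg _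
  have h6 : 2 * ((∑ i, (N * u i + 1).choose 2 : ℕ) : ℤ) <
      2 * (((N * e + 1 + 1).choose 2 : ℕ) : ℤ) := by
    rw [h1, h2]
    push_cast
    obtain ⟨S, hS⟩ : ∃ S : ℤ, S = ((∑ i, u i ^ 2 : ℕ) : ℤ) := ⟨_, rfl⟩
    obtain ⟨T, hT⟩ : ∃ T : ℤ, T = ((∑ i, u i : ℕ) : ℤ) := ⟨_, rfl⟩
    rw [← hS] at h3
    rw [← hT] at h4 h5
    have h7 : (∑ i, (u i : ℤ) ^ 2) = S := by rw [hS]; push_cast; rfl
    have h8 : (∑ i, (u i : ℤ)) = T := by rw [hT]; push_cast; rfl
    rw [h7, h8]
    have h9 : (N : ℤ) ^ 2 * (S + 1) ≤ (N : ℤ) ^ 2 * (e : ℤ) ^ 2 :=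
      mul_le_mul_of_nonneg_left h3 (sq_nonneg _)
    have h10 : (N : ℤ) * (T + 1) ≤ N * N := mul_le_mul_of_nonneg_left h4 (Int.natCast_nonneg _)
    have h11 : (0 : ℤ) ≤ N * e := by positivity
    nlinarith
  have h7 : N * e + 2 = N * e + 1 + 1 := rfl
  rw [h7]
  exact_mod_cast (mul_lt_mul_iff_right₀ (by norm_num : (0 : ℤ) < 2)).1 h6

/-- Nonnegativity on all curves modulo large primes. -/
theorem nef_mod {K : Type} [Field K] {n : ℕ} {u : Fin n → ℕ} {P : Fin n → Fin 2 → K}
    (hP : Function.Injective P) {e N : ℕ} (hN : 0 < N)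
    (hchi : ∑ i, (N * u i + 1).choose 2 < (N * e + 2).choose 2)
    (hemp : ∀ (d : ℕ) (m : Fin n → ℕ), d ≤ N * e → (∀ i, m i ≤ d) →
      e * d < ∑ i, u i * m i → forms m P d = ⊥)
    (d : ℕ) (m : Fin n → ℕ) (G : MvPolynomial (Fin 3) K) (hG0 : G ≠ 0) (hG : G.IsHomogeneous d)
    (hm : ∀ i, Van (aff (P i)) (m i) G) : ∑ i, (u i : ℝ) * (m i : ℝ) ≤ e * d := by
  classical
  have hlow : ∀ (d : ℕ) (m : Fin n → ℕ) (G : MvPolynomial (Fin 3) K), G ≠ 0 →
      G.IsHomogeneous d → (∀ i, Van (aff (P i)) (m i) G) → d ≤ N * e →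
      ∑ i, u i * m i ≤ e * d := by
    intro d m G hG0 hG hm hd
    by_contra hcon
    push Not at hcon
    have h1 := hemp d m hd (fun i => van_le hG0 hG (hm i)) hcon
    have h2 : G ∈ forms m P d := by
      rw [← vs_eq_forms]
      exact (mem_VS _ _ _ _).2 ⟨hG, hm⟩
    rw [h1, Submodule.mem_bot] at h2
    exact hG0 h2
  -- the auxiliary curve
  obtain ⟨F, hF, hF0⟩ : ∃ F ∈ forms (fun i => N * u i) P (N * e), F ≠ 0 := by
    by_contra hno
    push Not at hno
    have h1 := le_dim (fun i => N * u i) P (N * e)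
    have h2 : forms (fun i => N * u i) P (N * e) = ⊥ := (Submodule.eq_bot_iff _).2 hno
    rw [h2, finrank_bot] at h1
    omega
  rw [← vs_eq_forms] at hF
  obtain ⟨hFh, hFv⟩ := (mem_VS _ _ _ _).1 hF
  refine eff_le (P := P) (x := e) (y := fun i => (u i : ℝ)) (fun i => Nat.cast_nonneg _)
    (fun G d w hG hGh hGo => ?_) d m G hG0 hG hm
  have key : ∑ i, u i * w i ≤ e * d := by
    rcases Nat.lt_or_ge (N * e) d with hd | hd
    · have hnd : ¬ G ∣ F := by
        rintro ⟨H, hH⟩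
        have hH0 : H ≠ 0 := by
          rintro rfl
          exact hF0 (by rw [hH, mul_zero])
        have h1 := MvPolynomial.totalDegree_mul_of_isDomain hG.ne_zero hH0
        rw [← hH, hFh.totalDegree hF0, hGh.totalDegree hG.ne_zero] at h1
        omega
      have h1 := bez hP hG hGh (fun j => (hGo j).1) hF0 hFh hFv hnd
      have h2 : ∑ j, w j * (N * u j) = N * ∑ j, u j * w j := by
        rw [Finset.mul_sum]
        exact Finset.sum_congr rfl fun j _ => by ring
      rw [h2] at h1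
      have h3 : N * ∑ j, u j * w j ≤ N * (e * d) := h1.trans (le_of_eq (by ring))
      exact Nat.le_of_mul_le_mul_left h3 hN
    · exact hlow d w G hG.ne_zero hGh (fun j => (hGo j).1) hd
  exact_mod_cast key

/-- Vanishing at generic complex points: the class `L = (e; u)` is nonnegative on all curves and
has `L ^ 2 > 0`. -/
theorem van_full {n : ℕ} {s u : Fin n → ℕ} {P : Fin n → Fin 2 → ℂ}
    (hP : AlgebraicIndependent ℚ (fun ij : Fin n × Fin 2 => P ij.1 ij.2)) {e : ℕ} (he : 3 ≤ e)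
    (hu : ∀ i, u i = if s i = 0 then 0 else s i + 1) (hsq : ∑ i, u i ^ 2 < e ^ 2)
    (hnef : ∀ (d : ℕ) (m : Fin n → ℕ) (G : MvPolynomial (Fin 3) ℂ), G ≠ 0 →
      G.IsHomogeneous d → (∀ i, Van (aff (P i)) (m i) G) →
      ∑ i, (u i : ℝ) * (m i : ℝ) ≤ e * d) :
    Module.finrank ℂ ↥(forms s P (e - 3)) + ∑ i, (s i + 1).choose 2 = (e - 3 + 2).choose 2 := by
  classical
  rw [reg_iff]
  by_contra hcon
  -- the universal points
  have hPZ : AlgebraicIndependent ℤ (fun ij : Fin n × Fin 2 => P ij.1 ij.2) :=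
    hP.restrictScalars (K := ℚ) (by
      intro a b hab
      simpa using hab)
  obtain ⟨ψ, hψ⟩ : ∃ ψ : MvPolynomial (Fin n × Fin 2) ℤ →+* ℂ,
      ψ = (aeval (fun ij : Fin n × Fin 2 => P ij.1 ij.2)).toRingHom := ⟨_, rfl⟩
  have hψi : Function.Injective ψ := by
    rw [hψ]
    exact hPZ
  obtain ⟨U, hU⟩ : ∃ U : Fin n → Fin 2 → MvPolynomial (Fin n × Fin 2) ℤ,
      U = fun i j => X (i, j) := ⟨_, rfl⟩
  have hψU : (fun i j => ψ (U i j)) = P := by
    rw [hψ, hU]
    funext i j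
    show aeval (fun ij : Fin n × Fin 2 => P ij.1 ij.2) (X (i, j) : MvPolynomial _ ℤ) = P i j
    rw [aeval_X]
  -- the dependence
  obtain ⟨b1, hb1, hdep⟩ := ker_spread' (A := (cm s U (e - 3)).transpose) ψ hψi (by
    rw [Matrix.transpose_map, cm_map, hψU]
    exact hcon)
  -- the multiple
  obtain ⟨N, hN, hchi⟩ := exists_mult hsq
  -- the empty systems
  have hb : ∀ (d : ℕ) (m : Fin n → ℕ), ∃ b : MvPolynomial (Fin n × Fin 2) ℤ, b ≠ 0 ∧
      (e * d < ∑ i, u i * m i → ∀ (K : Type) [Field K]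
        (φ : MvPolynomial (Fin n × Fin 2) ℤ →+* K), φ b ≠ 0 →
        forms m (fun i j => φ (U i j)) d = ⊥) := by
    intro d m
    by_cases h : e * d < ∑ i, u i * m i
    · have h1 : forms m P d = ⊥ := by
        rw [Submodule.eq_bot_iff]
        intro G hG
        by_contra hG0
        rw [← vs_eq_forms] at hG
        obtain ⟨h2, h3⟩ := (mem_VS _ _ _ _).1 hG
        have h4 := hnef d m G hG0 h2 h3
        have h5 : ((e * d : ℕ) : ℝ) < ((∑ i, u i * m i : ℕ) : ℝ) := by exact_mod_cast h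
        push_cast at h5
        linarith
      rw [emp_iff, ← hψU, ← cm_map] at h1
      obtain ⟨b, hb0, hb'⟩ := ker_spread ψ hψi h1
      refine ⟨b, hb0, fun _ K _ φ hφ => ?_⟩
      rw [emp_iff, ← cm_map]
      exact hb' K φ hφ
    · exact ⟨1, one_ne_zero, fun h' => absurd h' h⟩
  choose b hb0 hb' using hb
  obtain ⟨I, hI⟩ : ∃ I : Finset (ℕ × (Fin n → ℕ)), I = Finset.range (N * e + 1) ×ˢ
      Fintype.piFinset fun _ => Finset.range (N * e + 1) := ⟨_, rfl⟩
  have hb2 : b1 * ∏ x ∈ I, b x.1 x.2 ≠ 0 :=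
    mul_ne_zero hb1 (Finset.prod_ne_zero_iff.2 fun x _ => hb0 x.1 x.2)
  obtain ⟨B, hB⟩ := phi_ne hb2
  obtain ⟨p, hpB, hpp⟩ := Nat.exists_infinite_primes (B + 1 + N)
  have : Fact p.Prime := ⟨hpp⟩
  have hp2 := hpp.two_le
  have hφ := hB p (by omega)
  obtain ⟨φ, hφd⟩ : ∃ φ, φ = phi (Fin n × Fin 2) p := ⟨_, rfl⟩
  rw [← hφd, map_mul] at hφ
  have hφ1 := left_ne_zero_of_mul hφ
  have hφ2 := right_ne_zero_of_mul hφ
  rw [map_prod, Finset.prod_ne_zero_iff] at hφ2
  obtain ⟨Q, hQ⟩ : ∃ Q : Fin n → Fin 2 → Kp (Fin n × Fin 2) p,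
      Q = fun i j => φ (U i j) := ⟨_, rfl⟩
  have hdep' := hdep _ φ hφ1
  rw [Matrix.transpose_map, cm_map, ← hQ] at hdep'
  -- injectivity
  have hinj : ∀ c : Fin 2, Function.Injective fun j => Q j c := by
    intro c a b hab
    by_contra hne
    have h1 : φ (U a c - U b c) = 0 := by
      rw [map_sub, sub_eq_zero]
      have : Q a c = Q b c := hab
      rwa [hQ] at this
    rw [hφd] at h1
    have h2 := phi_eq_zero h1
    rw [hU, map_sub, map_X, map_X, sub_eq_zero] at h2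
    have h3 := X_injective h2
    exact hne (Prod.mk.inj h3).1
  have hQi : Function.Injective Q := fun a b hab => hinj 0 (congrFun hab 0)
  have hnefp := nef_mod hQi hN (hchi N le_rfl) (fun d m hd hm hlt => by
    rw [hQ]
    refine hb' d m hlt _ φ (hφ2 (d, m) ?_)
    rw [hI, Finset.mem_product, Finset.mem_range, Fintype.mem_piFinset]
    refine ⟨by show d < N * e + 1; omega, fun i => ?_⟩
    rw [Finset.mem_range]
    have := hm i
    show m i < N * e + 1
    omega)
  -- the vanishing for the multiple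
  obtain ⟨s', hs'⟩ : ∃ s' : Fin n → ℕ, s' = fun i => if s i = 0 then 0 else p * (s i + 1) - 1 :=
    ⟨_, rfl⟩
  have hs'' : ∀ i, s' i = if s i = 0 then 0 else p * (s i + 1) - 1 := fun i => by rw [hs']
  have hu' : ∀ i, p * u i = if s' i = 0 then 0 else s' i + 1 := by
    intro i
    rw [hs'' i, hu i]
    by_cases h0 : s i = 0
    · rw [if_pos h0, if_pos h0, if_pos rfl, mul_zero]
    · rw [if_neg h0, if_neg h0]
      have h1 : 2 * 2 ≤ p * (s i + 1) := Nat.mul_le_mul hp2 (by omega)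
      rw [if_neg (by omega)]
      omega
  have hpe : 3 ≤ p * e := by nlinarith
  have hv := vanishing (s := s') (u := fun i => p * u i) (P := Q) (hinj 0) (hinj 1)
    (e := p * e) hpe hu' (hchi p (by omega)) (by
      have h1 : ∑ i, (p * u i) ^ 2 < (p * e) ^ 2 := by
        have h2 : ∑ i, (p * u i) ^ 2 = p ^ 2 * ∑ i, u i ^ 2 := by
          rw [Finset.mul_sum]
          exact Finset.sum_congr rfl fun i _ => by ring
        rw [h2, mul_pow]
        exact Nat.mul_lt_mul_of_pos_left hsq (by positivity)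
      exact_mod_cast h1) (fun d m G hG0 hG hm => by
      have h1 := hnefp d m G hG0 hG hm
      have h2 : ∑ i, ((p * u i : ℕ) : ℝ) * (m i : ℝ) = p * ∑ i, (u i : ℝ) * (m i : ℝ) := by
        rw [Finset.mul_sum]
        exact Finset.sum_congr rfl fun i _ => by push_cast; ring
      rw [h2]
      push_cast
      rw [mul_assoc]
      exact mul_le_mul_of_nonneg_left h1 (Nat.cast_nonneg _))
  rw [reg_iff] at hv
  exact hdep' (trace_step p he hs'' hv)

end Pool.Agent.V5helper95.KV
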