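import Pool.Agent.V5helper95.KV.Nice
import Pool.Agent.V5helper95.KV.Neo
import Pool.Agent.TH885.CO.Red

set_option autoImplicit false

/-!
# The classes `D` such that `D - K` is in the cone `Nice`, and the classes which are negative on
a class of the cone `Nice`
-/

namespace Pool.Agent.V5helper95.KV

open MvPolynomial Pool.Agent.W609 Pool.Agent.W609.CR Pool.Agent.TH167 Pool.Agent.TH167.SH
open Pool.Agent.R355.ConeAct (curveClasses curvCone dot kap nef_of_gen nagata_nef nef_carries)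
open Pool.Agent.H932R3 (ExpDim)
open Pool.Agent.H248R5 (forms)

/-- From particular generic complex points to generic points over all fields of characteristic
zero. -/
theorem transfer_one {n : ℕ} {d : ℕ} {w : Fin n → ℕ} {P0 : Fin n → Fin 2 → ℂ}
    (hP0 : AlgebraicIndependent ℚ (fun ij : Fin n × Fin 2 => P0 ij.1 ij.2))
    (h0 : ExpDim ℂ w P0 d)
    {K : Type} [Field K] [CharZero K] {P : Fin n → Fin 2 → K}
    (hP : AlgebraicIndependent ℚ (fun ij : Fin n × Fin 2 => P ij.1 ij.2)) : ExpDim K w P d := by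
  obtain ⟨g, F, hF, hF'⟩ := dim_gen w d
  rw [TH442.NF.expDim_iff, hF' ℂ P0 fun h0 =>
    hF (hP0.eq_zero_of_aeval_eq_zero F h0)] at h0
  rw [TH442.NF.expDim_iff, hF' K P fun h0 => hF (hP.eq_zero_of_aeval_eq_zero F h0)]
  exact h0

/-- A nef class is nonnegative on all forms. -/
theorem forms_of_cone {n : ℕ} {P : Fin n → Fin 2 → ℂ} {x : ℝ} {y : Fin n → ℝ}
    (hN : ∀ z ∈ curvCone P, 0 ≤ dot (x, y) z) (d : ℕ) (w : Fin n → ℕ)
    (F : MvPolynomial (Fin 3) ℂ) (hF0 : F ≠ 0) (hF : F.IsHomogeneous d)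
    (hw : ∀ j, Van (aff (P j)) (w j) F) : ∑ l, y l * (w l : ℝ) ≤ x * d := by
  classical
  have hy : ∀ i, 0 ≤ y i := by
    intro i
    have h1 := hN _ (subset_closure (Submodule.subset_span (Or.inr ⟨i, rfl⟩)))
    rw [dot_exc] at h1
    exact h1
  have h1 := Pool.Agent.R355.Round.eff_nonneg (x := x) hy (fun G e u hG hGe hGo => by
    exact hN _ (subset_closure (Submodule.subset_span
      (Or.inl ⟨G, e, u, curve_iff.2 ⟨hG, hGe, hGo⟩, rfl⟩)))) d w F hF0 hF hw
  linarith

/-- Independent conditions stay independent if the degree is raised and the multiplicities are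
lowered. -/
theorem reg_mono {K : Type} [Field K] {n : ℕ} {s t : Fin n → ℕ} {P : Fin n → Fin 2 → K}
    {k l : ℕ} (hst : ∀ i, s i ≤ t i) (hkl : k ≤ l)
    (h : Module.finrank K ↥(forms t P k) + ∑ i, (t i + 1).choose 2 = (k + 2).choose 2) :
    Module.finrank K ↥(forms s P l) + ∑ i, (s i + 1).choose 2 = (l + 2).choose 2 := by
  classical
  rw [reg_iff] at h ⊢
  intro y hy
  obtain ⟨Y, hY⟩ : ∃ Y : Fin n → ℕ × ℕ → K,
      Y = fun i x => if h : x ∈ J (s i) then y ⟨i, ⟨x, h⟩⟩ else 0 := ⟨_, rfl⟩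
  have hyY : ∀ r, y r = Y r.1 r.2.1 := by
    intro r
    rw [hY]
    simp only
    rw [dif_pos r.2.2]
  have hsub : ∀ i, J (s i) ⊆ J (t i) := by
    intro i x hx
    rw [mem_J] at hx ⊢
    exact hx.trans_le (hst i)
  have h1 := h (fun r => Y r.1 r.2.1) (by
    funext c
    rw [tmul _ Y (fun r => rfl)]
    have hc : c.1 ∈ J (l + 1) := by
      have := mem_J.1 c.2
      rw [mem_J]
      omega
    have h2 := tmul (P := P) (d := l) y Y hyY ⟨c.1, hc⟩
    rw [hy] at h2
    rw [Pi.zero_apply] at h2 ⊢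
    rw [h2]
    refine Finset.sum_congr rfl fun i _ => ?_
    symm
    refine Finset.sum_subset (hsub i) fun x _ hx => ?_
    rw [hY]
    simp only
    rw [dif_neg hx, mul_zero])
  funext r
  have h2 := congrFun h1 ⟨r.1, ⟨r.2.1, hsub r.1 r.2.2⟩⟩
  rw [hyY]
  exact h2

theorem pos_exp0 {n : ℕ} {d : ℕ} {w : Fin n → ℕ} (h : Positive d w)
    {P : Fin n → Fin 2 → ℂ}
    (hP : AlgebraicIndependent ℚ (fun ij : Fin n × Fin 2 => P ij.1 ij.2))
    (hN : ∀ D, Nice D → ∀ z ∈ curvCone P, 0 ≤ dot D z) : ExpDim ℂ w P d := by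
  classical
  obtain ⟨d', v, hd, hwv, h1, h2⟩ := h
  obtain ⟨s', hs'⟩ : ∃ s' : Fin n → ℕ, s' = fun i => if v i ≤ 1 then 0 else v i := ⟨_, rfl⟩
  have hu : ∀ i, up v i = if s' i = 0 then 0 else s' i + 1 := by
    intro i
    rw [hs']
    unfold up
    by_cases hi : v i ≤ 1
    · simp only [if_pos hi, if_true]
    · simp only [if_neg hi]
      rw [if_neg (by omega)]
  have hnef := forms_of_cone (hN _ h1)
  have hv' := van_full (s := s') (u := up v) hP (e := d' + 3) (by omega) hu h2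
    (fun e m G hG0 hG hm => hnef e m G hG0 hG hm)
  rw [Nat.add_sub_cancel] at hv'
  obtain ⟨s, hs⟩ : ∃ s : Fin n → ℕ, s = fun i => if w i ≤ 1 then 0 else w i := ⟨_, rfl⟩
  have hv := reg_mono (s := s) (fun i => by
    rw [hs, hs']
    have := hwv i
    show (if w i ≤ 1 then 0 else w i) ≤ if v i ≤ 1 then 0 else v i
    split_ifs <;> omega) hd hv'
  -- the simple points
  obtain ⟨T, hT⟩ : ∃ T : Finset (Fin n), T = Finset.univ.filter fun i => w i = 1 := ⟨_, rfl⟩
  have hmT : ∀ i, i ∈ T ↔ w i = 1 := by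
    intro i
    rw [hT, Finset.mem_filter]
    exact ⟨fun h => h.2, fun h => ⟨Finset.mem_univ i, h⟩⟩
  have e1 : w = fun i => if i ∈ T then 1 else s i := by
    funext i
    by_cases hi : i ∈ T
    · rw [if_pos hi]
      exact (hmT i).1 hi
    · rw [if_neg hi, hs]
      show w i = if w i ≤ 1 then 0 else w i
      by_cases hr : w i ≤ 1
      · rw [if_pos hr]
        have h4 : w i ≠ 1 := fun h5 => hi ((hmT i).2 h5)
        omega
      · rw [if_neg hr]
  have h4 := Pool.Agent.TH885.CO.simple_many hP s d T (fun i hi => by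
    rw [hs]
    exact if_pos ((hmT i).1 hi).le)
  rw [← e1, vs_eq_forms P s] at h4
  have h6 : ∑ j, (w j + 1).choose 2 = ∑ j, (s j + 1).choose 2 + T.card := by
    rw [hT, Finset.card_filter, ← Finset.sum_add_distrib]
    refine Finset.sum_congr rfl fun i _ => ?_
    rw [hs]
    show (w i + 1).choose 2 = ((if w i ≤ 1 then 0 else w i) + 1).choose 2 + if w i = 1 then 1 else 0
    by_cases h7 : w i = 1
    · rw [if_pos h7, if_pos h7.le, h7]
      rfl
    · rw [if_neg h7]
      by_cases h8 : w i ≤ 1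
      · rw [if_pos h8]
        have h9 : w i = 0 := by omega
        rw [h9]
        rfl
      · rw [if_neg h8]
        rfl
  have h8 : chi d w = ((d + 2).choose 2 : ℤ) - ((∑ i, (w i + 1).choose 2 : ℕ) : ℤ) := by
    unfold chi
    push_cast
    rfl
  rw [TH442.NF.expDim_iff, h4, h8, h6]
  omega

/-- `Positive` implies the expected dimension. -/
theorem pos_exp {r : ℕ} {d : ℕ} {w : Fin (r + 4) → ℕ} (h : Positive d w)
    {K : Type} [Field K] [CharZero K] {P : Fin (r + 4) → Fin 2 → K}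
    (hP : AlgebraicIndependent ℚ (fun ij : Fin (r + 4) × Fin 2 => P ij.1 ij.2)) :
    ExpDim K w P d := by
  obtain ⟨P0, hP0, hN⟩ := exists_pts r
  exact transfer_one hP0 (pos_exp0 h hP0 hN) hP

/-- `Negative` implies that the virtual dimension is at most zero. -/
theorem neg_chi {r : ℕ} {d : ℕ} {w : Fin (r + 4) → ℕ} (h : Negative d w) :
    (d + 2).choose 2 ≤ ∑ i, (w i + 1).choose 2 := by
  obtain ⟨P0, hP0, hN⟩ := exists_pts r
  obtain ⟨N, h1, h2⟩ := h
  have h3 : SHDefs.sys P0 d w = ⊥ := Pool.Agent.R355.Round.nef_empty (hN N h1) (by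
    unfold dot
    linarith)
  have h4 := le_dim w P0 d
  rw [← vs_eq_forms P0 w d, ← sys_eq, h3, finrank_bot, zero_add] at h4
  exact h4

/-- `Negative` implies the expected dimension. -/
theorem neg_exp {r : ℕ} {d : ℕ} {w : Fin (r + 4) → ℕ} (h : Negative d w)
    {K : Type} [Field K] [CharZero K] {P : Fin (r + 4) → Fin 2 → K}
    (hP : AlgebraicIndependent ℚ (fun ij : Fin (r + 4) × Fin 2 => P ij.1 ij.2)) :
    ExpDim K w P d := by
  classical
  obtain ⟨P0, hP0, hN⟩ := exists_pts r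
  obtain ⟨N, h1, h2⟩ := h
  have h3 : SHDefs.sys P0 d w = ⊥ := Pool.Agent.R355.Round.nef_empty (hN N h1) (by
    unfold dot
    linarith)
  refine transfer_one hP0 ?_ hP
  have h4 := le_dim w P0 d
  rw [← vs_eq_forms P0 w d, ← sys_eq, h3, finrank_bot, zero_add] at h4
  have h8 : chi d w = ((d + 2).choose 2 : ℤ) - ((∑ i, (w i + 1).choose 2 : ℕ) : ℤ) := by
    unfold chi
    push_cast
    rfl
  rw [TH442.NF.expDim_iff, ← sys_eq, h3, finrank_bot, h8]
  omega

end Pool.Agent.V5helper95.KV
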