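import Mathlib

set_option autoImplicit false

/-!
# Points outside countably many hypersurfaces
-/

namespace Pool.Agent.V5helper95.KV

open MvPolynomial

theorem avoid_fin (m : ℕ) : ∀ f : ℕ → MvPolynomial (Fin m) ℂ, (∀ k, f k ≠ 0) →
    ∃ x : Fin m → ℂ, ∀ k, eval x (f k) ≠ 0 := by
  induction m with
  | zero =>
    intro f hf
    refine ⟨fun i => i.elim0, fun k h => hf k ?_⟩
    have h1 := MvPolynomial.eq_C_of_isEmpty (f k)
    rw [h1, eval_C] at h
    rw [h1, h, map_zero]
  | succ m ih =>
    intro f hf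
    have h1 : ∀ k, ∃ j, (finSuccEquiv ℂ m (f k)).coeff j ≠ 0 := by
      intro k
      by_contra hcon
      push Not at hcon
      apply hf k
      have : finSuccEquiv ℂ m (f k) = 0 := Polynomial.ext fun j => by
        rw [hcon j, Polynomial.coeff_zero]
      exact (map_eq_zero_iff _ (finSuccEquiv ℂ m).injective).1 this
    choose j hj using h1
    obtain ⟨x, hx⟩ := ih (fun k => (finSuccEquiv ℂ m (f k)).coeff (j k)) hj
    obtain ⟨p, hp⟩ : ∃ p : ℕ → Polynomial ℂ, p = fun k =>
      (finSuccEquiv ℂ m (f k)).map (eval x) := ⟨_, rfl⟩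
    have hp0 : ∀ k, p k ≠ 0 := by
      intro k h
      apply hx k
      have := congrArg (fun q => Polynomial.coeff q (j k)) h
      rw [hp] at this
      simpa [Polynomial.coeff_map] using this
    have hcount : (⋃ k, ((p k).roots.toFinset : Set ℂ)).Countable :=
      Set.countable_iUnion fun k => (Finset.countable_toSet _)
    obtain ⟨y, hy⟩ : ∃ y : ℂ, y ∉ ⋃ k, ((p k).roots.toFinset : Set ℂ) := by
      by_contra hcon
      push Not at hcon
      have h2 : (Set.univ : Set ℂ).Countable := hcount.mono fun y _ => hcon y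
      have h3 : Countable ℂ := Set.countable_univ_iff.1 h2
      have h4 := Cardinal.mk_le_aleph0_iff.2 h3
      rw [Cardinal.mk_complex] at h4
      exact absurd h4 (not_le.2 Cardinal.aleph0_lt_continuum)
    refine ⟨Fin.cons y x, fun k h => hy ?_⟩
    rw [Set.mem_iUnion]
    refine ⟨k, ?_⟩
    rw [Finset.mem_coe, Multiset.mem_toFinset, Polynomial.mem_roots (hp0 k)]
    rw [Polynomial.IsRoot.def, hp]
    rw [eval_eq_eval_mv_eval'] at h
    simpa using h

theorem avoid {σ : Type} [Finite σ] (f : ℕ → MvPolynomial σ ℂ) (hf : ∀ k, f k ≠ 0) :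
    ∃ x : σ → ℂ, ∀ k, eval x (f k) ≠ 0 := by
  obtain ⟨m, ⟨e⟩⟩ := Finite.exists_equiv_fin σ
  obtain ⟨x, hx⟩ := avoid_fin m (fun k => rename e (f k)) fun k h => hf k
    ((map_eq_zero_iff _ (rename_injective e e.injective)).1 h)
  refine ⟨x ∘ e, fun k => ?_⟩
  have := hx k
  rwa [eval_rename] at this

end Pool.Agent.V5helper95.KV
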