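import Mathlib

set_option autoImplicit false

/-!
# Greatest common divisors of three elements
-/

namespace Pool.Agent.V5helper95.KV

variable {R : Type} [CommRing R] [IsDomain R] [UniqueFactorizationMonoid R]

/-- Only units divide all three elements. -/
def Cop3 (a b c : R) : Prop := ∀ d, d ∣ a → d ∣ b → d ∣ c → IsUnit d

theorem cop3_dvd {a b c x : R} (h : Cop3 a b c) (h1 : a ∣ x * b) (h2 : a ∣ x * c) : a ∣ x := by
  classical
  letI : GCDMonoid R := UniqueFactorizationMonoid.toGCDMonoid R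
  have h3 : a ∣ gcd (x * a) (gcd (x * b) (x * c)) :=
    dvd_gcd (dvd_mul_left a x) (dvd_gcd h1 h2)
  have h4 : Associated (gcd (x * b) (x * c)) (x * gcd b c) := gcd_mul_left' x b c
  have h5 : a ∣ gcd (x * a) (x * gcd b c) :=
    dvd_gcd (dvd_mul_left a x) ((dvd_gcd h1 h2).trans h4.dvd)
  have h6 : a ∣ x * gcd a (gcd b c) := h5.trans (gcd_mul_left' x a (gcd b c)).dvd
  have h7 : IsUnit (gcd a (gcd b c)) := h _ (gcd_dvd_left _ _)
    ((gcd_dvd_right _ _).trans (gcd_dvd_left _ _)) ((gcd_dvd_right _ _).trans (gcd_dvd_right _ _))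
  exact (h7.dvd_mul_right).1 h6

theorem exists_gcd3 (a b c : R) (ha : a ≠ 0) : ∃ g a' b' c' : R, a = g * a' ∧ b = g * b' ∧
    c = g * c' ∧ Cop3 a' b' c' := by
  classical
  letI : GCDMonoid R := UniqueFactorizationMonoid.toGCDMonoid R
  obtain ⟨g, hg⟩ : ∃ g, g = gcd a (gcd b c) := ⟨_, rfl⟩
  have h1 : g ∣ a := by
    rw [hg]
    exact gcd_dvd_left _ _
  have h2 : g ∣ b := by
    rw [hg]
    exact (gcd_dvd_right _ _).trans (gcd_dvd_left _ _)
  have h3 : g ∣ c := by
    rw [hg]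
    exact (gcd_dvd_right _ _).trans (gcd_dvd_right _ _)
  obtain ⟨a', ha'⟩ := h1
  obtain ⟨b', hb'⟩ := h2
  obtain ⟨c', hc'⟩ := h3
  refine ⟨g, a', b', c', ha', hb', hc', fun d d1 d2 d3 => ?_⟩
  have hg0 : g ≠ 0 := by
    rintro rfl
    rw [zero_mul] at ha'
    exact ha ha'
  have h4 : g * d ∣ g := by
    conv_rhs => rw [hg]
    exact dvd_gcd (by rw [ha']; exact mul_dvd_mul_left g d1)
      (dvd_gcd (by rw [hb']; exact mul_dvd_mul_left g d2) (by rw [hc']; exact mul_dvd_mul_left g d3))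
  obtain ⟨e, he⟩ := h4
  have h5 : g * 1 = g * (d * e) := by
    rw [mul_one, ← mul_assoc]
    exact he
  exact IsUnit.of_mul_eq_one e (mul_left_cancel₀ hg0 h5).symm

/-- Two relatively prime elements. -/
theorem rel_dvd {a b x g : R} (h : IsRelPrime a b) (h1 : g ∣ x * a) (h2 : g ∣ x * b) : g ∣ x := by
  classical
  letI : GCDMonoid R := UniqueFactorizationMonoid.toGCDMonoid R
  have h3 : g ∣ x * gcd a b := (dvd_gcd h1 h2).trans (gcd_mul_left' x a b).dvd
  have h7 : IsUnit (gcd a b) := h (gcd_dvd_left _ _) (gcd_dvd_right _ _)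
  exact (h7.dvd_mul_right).1 h3

/-- The syzygies of two relatively prime elements. -/
theorem syz {P Q A B : R} (h : IsRelPrime P Q) (hP : P ≠ 0) (hQ : Q ≠ 0)
    (he : A * Q = B * P) : ∃ S, A = P * S ∧ B = Q * S := by
  have h1 : P ∣ A := by
    refine rel_dvd h (dvd_mul_left P A) ?_
    rw [he]
    exact dvd_mul_left P B
  obtain ⟨S, hS⟩ := h1
  refine ⟨S, hS, ?_⟩
  rw [hS] at he
  have : P * (S * Q) = P * B := by
    rw [← mul_assoc, he, mul_comm]
  rw [mul_comm Q S]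
  exact (mul_left_cancel₀ hP this).symm

end Pool.Agent.V5helper95.KV
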