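import Mathlib
import Pool.Agent.V5helper95.KV.Gcd

set_option autoImplicit false

/-!
# The Bezoutian of two products of linear forms
-/

namespace Pool.Agent.V5helper95.KV

open MvPolynomial

variable {K : Type} [Field K]

/-- The product of the linear forms `X i - a X 2`. -/
noncomputable def pl (i : Fin 3) (l : List K) : MvPolynomial (Fin 3) K :=
  (l.map fun a => X i - C a * X 2).prod

theorem pl_nil (i : Fin 3) : pl i ([] : List K) = 1 := rfl

theorem pl_cons (i : Fin 3) (a : K) (l : List K) :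
    pl i (a :: l) = (X i - C a * X 2) * pl i l := by
  simp [pl]

theorem lin_homog (i : Fin 3) (a : K) : (X i - C a * X 2 : (MvPolynomial (Fin 3) K)).IsHomogeneous 1 := by
  refine (isHomogeneous_X _ _).sub ?_
  have := (isHomogeneous_C (Fin 3) a).mul (isHomogeneous_X K (2 : Fin 3))
  rwa [zero_add] at this

theorem pl_homog (i : Fin 3) (l : List K) : (pl i l).IsHomogeneous l.length := by
  induction l with
  | nil => exact isHomogeneous_one _ _
  | cons a l ih =>
    rw [pl_cons, List.length_cons, add_comm]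
    exact (lin_homog i a).mul ih

/-- The `x`-part of the Bezoutian. -/
noncomputable def U (i : Fin 3) : List K → ((MvPolynomial (Fin 3) K) →ₗ[K] (MvPolynomial (Fin 3) K)) → (MvPolynomial (Fin 3) K)
  | [], _ => 0
  | a :: l, Ψ => Ψ 1 * pl i l + X 2 * U i l (Ψ ∘ₗ LinearMap.mulLeft K (X i - C a * X 2))

theorem U_nil (i : Fin 3) (Ψ : (MvPolynomial (Fin 3) K) →ₗ[K] (MvPolynomial (Fin 3) K)) : U i [] Ψ = 0 := rfl

theorem U_cons (i : Fin 3) (a : K) (l : List K) (Ψ : (MvPolynomial (Fin 3) K) →ₗ[K] (MvPolynomial (Fin 3) K)) : U i (a :: l) Ψ =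
    Ψ 1 * pl i l + X 2 * U i l (Ψ ∘ₗ LinearMap.mulLeft K (X i - C a * X 2)) := rfl

theorem U_add (i : Fin 3) (l : List K) (Ψ Ψ' : (MvPolynomial (Fin 3) K) →ₗ[K] (MvPolynomial (Fin 3) K)) :
    U i l (Ψ + Ψ') = U i l Ψ + U i l Ψ' := by
  induction l generalizing Ψ Ψ' with
  | nil => simp [U_nil]
  | cons a l ih =>
    rw [U_cons, U_cons, U_cons, LinearMap.add_comp, ih, LinearMap.add_apply]
    ring

/-- Multiplication of the values. -/
noncomputable def vm (g : (MvPolynomial (Fin 3) K)) (Ψ : (MvPolynomial (Fin 3) K) →ₗ[K] (MvPolynomial (Fin 3) K)) : (MvPolynomial (Fin 3) K) →ₗ[K] (MvPolynomial (Fin 3) K) := LinearMap.mulLeft K g ∘ₗ Ψ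

theorem vm_apply (g : (MvPolynomial (Fin 3) K)) (Ψ : (MvPolynomial (Fin 3) K) →ₗ[K] (MvPolynomial (Fin 3) K)) (f : (MvPolynomial (Fin 3) K)) : vm g Ψ f = g * Ψ f := rfl

theorem U_vm (i : Fin 3) (l : List K) (g : (MvPolynomial (Fin 3) K)) (Ψ : (MvPolynomial (Fin 3) K) →ₗ[K] (MvPolynomial (Fin 3) K)) :
    U i l (vm g Ψ) = g * U i l Ψ := by
  induction l generalizing Ψ with
  | nil => simp [U_nil]
  | cons a l ih =>
    rw [U_cons, U_cons]
    have : vm g Ψ ∘ₗ LinearMap.mulLeft K (X i - C a * X 2) =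
      vm g (Ψ ∘ₗ LinearMap.mulLeft K (X i - C a * X 2)) := rfl
    rw [this, ih, vm_apply]
    ring

theorem U_congr_zero (i : Fin 3) (l : List K) {Ψ : (MvPolynomial (Fin 3) K) →ₗ[K] (MvPolynomial (Fin 3) K)} (h : ∀ f, Ψ f = 0) :
    U i l Ψ = 0 := by
  induction l generalizing Ψ with
  | nil => rfl
  | cons a l ih =>
    rw [U_cons, h, zero_mul, zero_add, ih (Ψ := Ψ ∘ₗ LinearMap.mulLeft K (X i - C a * X 2))
      (fun f => h _), mul_zero]

/-- The main identity. -/
theorem U_mul (i : Fin 3) (l : List K) {Ψ : (MvPolynomial (Fin 3) K) →ₗ[K] (MvPolynomial (Fin 3) K)} (h : ∀ f, Ψ (X 2 * f) = Ψ f) :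
    X i * U i l Ψ = X 2 * U i l (Ψ ∘ₗ LinearMap.mulLeft K (X i)) + Ψ 1 * pl i l -
      Ψ (pl i l) * X 2 ^ l.length := by
  induction l generalizing Ψ with
  | nil => simp [U_nil, pl_nil]
  | cons a l ih =>
    have h1 := ih (Ψ := Ψ ∘ₗ LinearMap.mulLeft K (X i - C a * X 2)) (fun f => by
      simp only [LinearMap.comp_apply, LinearMap.mulLeft_apply]
      rw [mul_left_comm, h])
    have h2 : (Ψ ∘ₗ LinearMap.mulLeft K (X i - C a * X 2)) ∘ₗ LinearMap.mulLeft K (X i) =
        (Ψ ∘ₗ LinearMap.mulLeft K (X i)) ∘ₗ LinearMap.mulLeft K (X i - C a * X 2) := by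
      refine LinearMap.ext fun f => ?_
      simp only [LinearMap.comp_apply, LinearMap.mulLeft_apply]
      rw [mul_left_comm]
    rw [h2] at h1
    simp only [LinearMap.comp_apply, LinearMap.mulLeft_apply, mul_one] at h1
    have h3 : Ψ (X i - C a * X 2) = Ψ (X i) - C a * Ψ 1 := by
      rw [map_sub, ← smul_eq_C_mul, ← smul_eq_C_mul, map_smul, smul_eq_C_mul, smul_eq_C_mul]
      have := h 1
      rw [mul_one] at this
      rw [this]
    rw [U_cons, U_cons, pl_cons, List.length_cons, pow_succ]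
    simp only [LinearMap.comp_apply, LinearMap.mulLeft_apply, mul_one]
    rw [h3] at h1
    linear_combination X 2 * h1

/-- Divisibility by powers of `X 2`. -/
theorem U_dvd (i : Fin 3) (l : List K) (r : ℕ) {Ψ : (MvPolynomial (Fin 3) K) →ₗ[K] (MvPolynomial (Fin 3) K)}
    (h : ∀ (j : ℕ) (f : (MvPolynomial (Fin 3) K)), f.IsHomogeneous j → X 2 ^ (r - j) ∣ Ψ f) : X 2 ^ r ∣ U i l Ψ := by
  induction l generalizing Ψ r with
  | nil => exact dvd_zero _
  | cons a l ih =>
    rw [U_cons]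
    refine dvd_add (Dvd.dvd.mul_right (h 0 1 (isHomogeneous_one _ _)) _) ?_
    rcases r with - | r
    · simp
    · rw [pow_succ, mul_comm]
      refine mul_dvd_mul_left _ (ih r fun j f hf => ?_)
      have := h (1 + j) ((X i - C a * X 2) * f) ((lin_homog i a).mul hf)
      have e : r + 1 - (1 + j) = r - j := by omega
      rwa [e] at this

theorem U_homog (i : Fin 3) (l : List K) (D : ℕ) {Ψ : (MvPolynomial (Fin 3) K) →ₗ[K] (MvPolynomial (Fin 3) K)}
    (h : ∀ f, (Ψ f).IsHomogeneous D) (a : K) : (U i (a :: l) Ψ).IsHomogeneous (D + l.length) := by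
  induction l generalizing Ψ a with
  | nil =>
    rw [U_cons, U_nil, mul_zero, add_zero, pl_nil, mul_one]
    exact h 1
  | cons b l ih =>
    rw [U_cons]
    refine IsHomogeneous.add ((h 1).mul (pl_homog _ _)) ?_
    have := (isHomogeneous_X K (2 : Fin 3)).mul
      (ih (Ψ := Ψ ∘ₗ LinearMap.mulLeft K (X i - C a * X 2)) (fun f => h _) b)
    rw [List.length_cons]
    convert this using 1
    ring

/-! ## The form attached to a functional -/

/-- The functional `f ↦ φ (g f)` with values in the constants. -/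
noncomputable def cf (φ : (MvPolynomial (Fin 3) K) →ₗ[K] K) (g : (MvPolynomial (Fin 3) K)) : (MvPolynomial (Fin 3) K) →ₗ[K] (MvPolynomial (Fin 3) K) :=
  (Algebra.linearMap K (MvPolynomial (Fin 3) K)) ∘ₗ φ ∘ₗ LinearMap.mulLeft K g

theorem cf_apply (φ : (MvPolynomial (Fin 3) K) →ₗ[K] K) (g f : (MvPolynomial (Fin 3) K)) : cf φ g f = C (φ (g * f)) := rfl

theorem cf_comp (φ : (MvPolynomial (Fin 3) K) →ₗ[K] K) (g f : (MvPolynomial (Fin 3) K)) :
    cf φ g ∘ₗ LinearMap.mulLeft K f = cf φ (g * f) := by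
  refine LinearMap.ext fun x => ?_
  simp only [LinearMap.comp_apply, LinearMap.mulLeft_apply, cf_apply, mul_assoc]

/-- The inner part of the Bezoutian. -/
noncomputable def Vin (m : List K) (φ : (MvPolynomial (Fin 3) K) →ₗ[K] K) : (MvPolynomial (Fin 3) K) →ₗ[K] (MvPolynomial (Fin 3) K) where
  toFun f := U 1 m (cf φ f)
  map_add' f g := by
    rw [← U_add]
    congr 1
    refine LinearMap.ext fun x => ?_
    rw [LinearMap.add_apply, cf_apply, cf_apply, cf_apply, add_mul, map_add, map_add]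
  map_smul' c f := by
    rw [RingHom.id_apply, smul_eq_C_mul, smul_eq_C_mul, ← U_vm]
    congr 1
    refine LinearMap.ext fun x => ?_
    rw [vm_apply, cf_apply, cf_apply, mul_assoc, ← smul_eq_C_mul, map_smul, smul_eq_mul, map_mul]

theorem Vin_apply (m : List K) (φ : (MvPolynomial (Fin 3) K) →ₗ[K] K) (f : (MvPolynomial (Fin 3) K)) : Vin m φ f = U 1 m (cf φ f) := rfl

/-- The Bezoutian form of degree `|l| + |m| - 2`. -/
noncomputable def Tf (l m : List K) (φ : (MvPolynomial (Fin 3) K) →ₗ[K] K) : (MvPolynomial (Fin 3) K) := U 0 l (Vin m φ)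

theorem Vin_comp (m : List K) (φ : (MvPolynomial (Fin 3) K) →ₗ[K] K) (g : (MvPolynomial (Fin 3) K)) :
    Vin m φ ∘ₗ LinearMap.mulLeft K g = Vin m (φ ∘ₗ LinearMap.mulLeft K g) := by
  refine LinearMap.ext fun f => ?_
  simp only [LinearMap.comp_apply, LinearMap.mulLeft_apply, Vin_apply]
  congr 1
  refine LinearMap.ext fun x => ?_
  simp only [cf_apply, LinearMap.comp_apply, LinearMap.mulLeft_apply, mul_assoc]

/-- Admissible functionals. -/
structure Adm (l m : List K) (φ : (MvPolynomial (Fin 3) K) →ₗ[K] K) : Prop where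
  two : ∀ f, φ (X 2 * f) = φ f
  P : ∀ f, φ (pl 0 l * f) = 0
  Q : ∀ f, φ (pl 1 m * f) = 0

theorem Adm.comp {l m : List K} {φ : (MvPolynomial (Fin 3) K) →ₗ[K] K} (h : Adm l m φ) (g : (MvPolynomial (Fin 3) K)) :
    Adm l m (φ ∘ₗ LinearMap.mulLeft K g) where
  two f := by
    simp only [LinearMap.comp_apply, LinearMap.mulLeft_apply]
    rw [mul_left_comm, h.two]
  P f := by
    simp only [LinearMap.comp_apply, LinearMap.mulLeft_apply]
    rw [mul_left_comm, h.P]
  Q f := by
    simp only [LinearMap.comp_apply, LinearMap.mulLeft_apply]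
    rw [mul_left_comm, h.Q]

theorem Tf_X0 {l m : List K} {φ : (MvPolynomial (Fin 3) K) →ₗ[K] K} (h : Adm l m φ) :
    ∃ B, X 0 * Tf l m φ = X 2 * Tf l m (φ ∘ₗ LinearMap.mulLeft K (X 0)) + B * pl 0 l := by
  refine ⟨Vin m φ 1, ?_⟩
  unfold Tf
  rw [U_mul, Vin_comp]
  · have : Vin m φ (pl 0 l) = 0 := by
      rw [Vin_apply]
      apply U_congr_zero
      intro f
      rw [cf_apply, h.P, map_zero]
    rw [this, zero_mul, sub_zero]
  · intro f
    rw [Vin_apply, Vin_apply]
    congr 1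
    refine LinearMap.ext fun x => ?_
    rw [cf_apply, cf_apply, mul_assoc, h.two]

theorem Tf_X1 {l m : List K} {φ : (MvPolynomial (Fin 3) K) →ₗ[K] K} (h : Adm l m φ) :
    ∃ B, X 1 * Tf l m φ = X 2 * Tf l m (φ ∘ₗ LinearMap.mulLeft K (X 1)) + B * pl 1 m := by
  refine ⟨U 0 l (cf φ 1), ?_⟩
  unfold Tf
  have h1 : vm (X 1) (Vin m φ) = vm (X 2) (Vin m (φ ∘ₗ LinearMap.mulLeft K (X 1))) +
      vm (pl 1 m) (cf φ 1) := by
    refine LinearMap.ext fun f => ?_
    rw [LinearMap.add_apply, vm_apply, vm_apply, vm_apply, Vin_apply, Vin_apply, U_mul]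
    · have e1 : cf φ f (pl 1 m) = 0 := by
        rw [cf_apply, mul_comm, h.Q, map_zero]
      have e2 : cf φ f ∘ₗ LinearMap.mulLeft K (X 1) = cf (φ ∘ₗ LinearMap.mulLeft K (X 1)) f := by
        refine LinearMap.ext fun x => ?_
        simp only [LinearMap.comp_apply, LinearMap.mulLeft_apply, cf_apply]
        congr 2
        ring
      have e3 : cf φ f 1 = cf φ 1 f := by
        rw [cf_apply, cf_apply, mul_one, one_mul]
      rw [e1, e2, e3, zero_mul, sub_zero, mul_comm (pl 1 m)]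
    · intro x
      rw [cf_apply, cf_apply, mul_left_comm, h.two]
  rw [← U_vm, h1, U_add, U_vm, U_vm, mul_comm (pl 1 m)]

theorem Tf_X2 {l m : List K} {φ : (MvPolynomial (Fin 3) K) →ₗ[K] K} (h : Adm l m φ) :
    φ ∘ₗ LinearMap.mulLeft K (X 2) = φ := by
  refine LinearMap.ext fun f => ?_
  exact h.two f

/-- The ideal of the complete intersection. -/
noncomputable def CI (l m : List K) : Ideal (MvPolynomial (Fin 3) K) := Ideal.span {pl 0 l, pl 1 m}

theorem P_mem (l m : List K) (B : (MvPolynomial (Fin 3) K)) : B * pl 0 l ∈ CI l m :=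
  Ideal.mul_mem_left _ _ (Ideal.subset_span (Or.inl rfl))

theorem Q_mem (l m : List K) (B : (MvPolynomial (Fin 3) K)) : B * pl 1 m ∈ CI l m :=
  Ideal.mul_mem_left _ _ (Ideal.subset_span (Or.inr rfl))

theorem Tf_X {l m : List K} {φ : (MvPolynomial (Fin 3) K) →ₗ[K] K} (h : Adm l m φ) (i : Fin 3) :
    X i * Tf l m φ - X 2 * Tf l m (φ ∘ₗ LinearMap.mulLeft K (X i)) ∈ CI l m := by
  fin_cases i
  · obtain ⟨B, hB⟩ := Tf_X0 h
    show X 0 * Tf l m φ - X 2 * Tf l m (φ ∘ₗ LinearMap.mulLeft K (X 0)) ∈ CI l m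
    rw [hB, add_sub_cancel_left]
    exact P_mem l m B
  · obtain ⟨B, hB⟩ := Tf_X1 h
    show X 1 * Tf l m φ - X 2 * Tf l m (φ ∘ₗ LinearMap.mulLeft K (X 1)) ∈ CI l m
    rw [hB, add_sub_cancel_left]
    exact Q_mem l m B
  · show X 2 * Tf l m φ - X 2 * Tf l m (φ ∘ₗ LinearMap.mulLeft K (X 2)) ∈ CI l m
    rw [Tf_X2 h, sub_self]
    exact Submodule.zero_mem _

theorem Vin_add (m : List K) (φ φ' : (MvPolynomial (Fin 3) K) →ₗ[K] K) (f : (MvPolynomial (Fin 3) K)) :
    Vin m (φ + φ') f = Vin m φ f + Vin m φ' f := by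
  rw [Vin_apply, Vin_apply, Vin_apply, ← U_add]
  congr 1
  refine LinearMap.ext fun x => ?_
  rw [LinearMap.add_apply, cf_apply, cf_apply, cf_apply, LinearMap.add_apply, map_add]

theorem Tf_add (l m : List K) (φ φ' : (MvPolynomial (Fin 3) K) →ₗ[K] K) : Tf l m (φ + φ') = Tf l m φ + Tf l m φ' := by
  unfold Tf
  rw [← U_add]
  congr 1
  refine LinearMap.ext fun f => ?_
  rw [LinearMap.add_apply, Vin_add]

theorem Vin_smul (m : List K) (c : K) (φ : (MvPolynomial (Fin 3) K) →ₗ[K] K) (f : (MvPolynomial (Fin 3) K)) :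
    Vin m (c • φ) f = C c * Vin m φ f := by
  rw [Vin_apply, Vin_apply, ← U_vm]
  congr 1
  refine LinearMap.ext fun x => ?_
  rw [vm_apply, cf_apply, cf_apply, LinearMap.smul_apply, smul_eq_mul, map_mul]

theorem Tf_smul (l m : List K) (c : K) (φ : (MvPolynomial (Fin 3) K) →ₗ[K] K) : Tf l m (c • φ) = C c * Tf l m φ := by
  unfold Tf
  rw [← U_vm]
  congr 1
  refine LinearMap.ext fun f => ?_
  rw [vm_apply, Vin_smul]

theorem comp_mul (φ : (MvPolynomial (Fin 3) K) →ₗ[K] K) (f g : (MvPolynomial (Fin 3) K)) : (φ ∘ₗ LinearMap.mulLeft K f) ∘ₗ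
    LinearMap.mulLeft K g = φ ∘ₗ LinearMap.mulLeft K (f * g) := by
  refine LinearMap.ext fun x => ?_
  simp only [LinearMap.comp_apply, LinearMap.mulLeft_apply, mul_assoc]

/-- The form of a multiple of the functional. -/
theorem Tf_monomial {l m : List K} : ∀ (k : ℕ) (α : Fin 3 →₀ ℕ), α.degree = k →
    ∀ φ : (MvPolynomial (Fin 3) K) →ₗ[K] K, Adm l m φ → (monomial α (1 : K)) * Tf l m φ -
      X 2 ^ k * Tf l m (φ ∘ₗ LinearMap.mulLeft K (monomial α (1 : K))) ∈ CI l m := by
  intro k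
  induction k with
  | zero =>
    intro α hα φ h
    rw [Finsupp.degree_eq_zero_iff] at hα
    subst hα
    have e1 : (monomial (0 : Fin 3 →₀ ℕ) (1 : K)) = (1 : (MvPolynomial (Fin 3) K)) := rfl
    have e2 : φ ∘ₗ LinearMap.mulLeft K (1 : (MvPolynomial (Fin 3) K)) = φ := by
      refine LinearMap.ext fun f => ?_
      simp
    rw [e1, e2]
    simp
  | succ k ih =>
    intro α hα φ h
    obtain ⟨i, hi⟩ : ∃ i, α i ≠ 0 := by
      by_contra hcon
      push Not at hcon
      have : α = 0 := Finsupp.ext hcon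
      rw [this] at hα
      simp at hα
    obtain ⟨β, hβ⟩ : ∃ β : Fin 3 →₀ ℕ, α = β + Finsupp.single i 1 := by
      refine ⟨α - Finsupp.single i 1, ?_⟩
      rw [tsub_add_cancel_of_le]
      rw [Finsupp.single_le_iff]
      omega
    have hβk : β.degree = k := by
      rw [hβ, map_add, Finsupp.degree_single] at hα
      omega
    have e1 : (monomial α (1 : K)) = monomial β (1 : K) * X i := by
      rw [hβ, X, monomial_mul, one_mul]
    have h1 := ih β hβk _ (h.comp (X i))
    have h2 := Tf_X h i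
    rw [comp_mul] at h1
    rw [e1, mul_comm (monomial β (1 : K)) (X i)]
    have h3 := Ideal.add_mem _ (Ideal.mul_mem_left _ (monomial β (1 : K)) h2)
      (Ideal.mul_mem_left _ (X 2) h1)
    convert h3 using 1
    ring

theorem Tf_mul {l m : List K} {φ : (MvPolynomial (Fin 3) K) →ₗ[K] K} (h : Adm l m φ) {k : ℕ} {G : (MvPolynomial (Fin 3) K)}
    (hG : G.IsHomogeneous k) : G * Tf l m φ -
      X 2 ^ k * Tf l m (φ ∘ₗ LinearMap.mulLeft K G) ∈ CI l m := by
  classical
  have key : ∀ s : Finset (Fin 3 →₀ ℕ), (∀ α ∈ s, α.degree = k) →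
      (∑ α ∈ s, monomial α (coeff α G)) * Tf l m φ - X 2 ^ k * Tf l m (φ ∘ₗ LinearMap.mulLeft K
        (∑ α ∈ s, monomial α (coeff α G))) ∈ CI l m := by
    intro s
    induction s using Finset.induction_on with
    | empty =>
      intro _
      have e : φ ∘ₗ LinearMap.mulLeft K (0 : (MvPolynomial (Fin 3) K)) = 0 := by
        refine LinearMap.ext fun x => ?_
        simp
      have e2 : Tf l m (0 : (MvPolynomial (Fin 3) K) →ₗ[K] K) = 0 := by
        have := Tf_smul l m 0 (0 : (MvPolynomial (Fin 3) K) →ₗ[K] K)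
        simpa using this
      rw [Finset.sum_empty, e, e2]
      simp
    | insert α s hα ih =>
      intro hs
      have h1 := ih fun β hβ => hs β (Finset.mem_insert_of_mem hβ)
      have h2 := Tf_monomial (l := l) (m := m) k α (hs α (Finset.mem_insert_self _ _)) φ h
      rw [Finset.sum_insert hα]
      have e0 : (monomial α (coeff α G)) = C (coeff α G) * monomial α (1 : K) := by
        rw [C_mul_monomial, mul_one]
      have e : φ ∘ₗ LinearMap.mulLeft K (monomial α (coeff α G) +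
          ∑ β ∈ s, monomial β (coeff β G)) = coeff α G • (φ ∘ₗ LinearMap.mulLeft K
            (monomial α (1 : K))) + φ ∘ₗ LinearMap.mulLeft K
              (∑ β ∈ s, monomial β (coeff β G)) := by
        refine LinearMap.ext fun x => ?_
        simp only [LinearMap.comp_apply, LinearMap.mulLeft_apply, LinearMap.add_apply,
          LinearMap.smul_apply]
        rw [add_mul, map_add, e0, mul_assoc, ← smul_eq_C_mul, map_smul]
      rw [e, Tf_add, Tf_smul, e0]
      have h3 := Ideal.add_mem _ (Ideal.mul_mem_left _ (C (coeff α G)) h2) h1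
      convert h3 using 1
      ring
  have h1 := key G.support fun α hα => by
    by_contra hcon
    exact (mem_support_iff.1 hα) (hG.coeff_eq_zero hcon)
  rw [support_sum_monomial_coeff] at h1
  exact h1

/-- Multiples of the form in the ideal. -/
theorem Tf_mem {l m : List K} {φ : (MvPolynomial (Fin 3) K) →ₗ[K] K} (h : Adm l m φ) {k : ℕ} {G : (MvPolynomial (Fin 3) K)}
    (hG : G.IsHomogeneous k) (h0 : ∀ f, φ (G * f) = 0) : G * Tf l m φ ∈ CI l m := by
  have h1 := Tf_mul h hG
  have e : φ ∘ₗ LinearMap.mulLeft K G = 0 := by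
    refine LinearMap.ext fun x => ?_
    simp only [LinearMap.comp_apply, LinearMap.mulLeft_apply, h0, LinearMap.zero_apply]
  have e2 : Tf l m (0 : (MvPolynomial (Fin 3) K) →ₗ[K] K) = 0 := by
    have := Tf_smul l m 0 (0 : (MvPolynomial (Fin 3) K) →ₗ[K] K)
    simpa using this
  rw [e, e2, mul_zero, sub_zero] at h1
  exact h1

/-- Divisibility by a power of `X 2`. -/
theorem Tf_dvd (l m : List K) {φ : (MvPolynomial (Fin 3) K) →ₗ[K] K} {r : ℕ}
    (h : ∀ (j : ℕ) (f : (MvPolynomial (Fin 3) K)), j < r → f.IsHomogeneous j → φ f = 0) : X 2 ^ r ∣ Tf l m φ := by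
  refine U_dvd 0 l r fun j f hf => ?_
  rw [Vin_apply]
  refine U_dvd 1 m (r - j) fun j' f' hf' => ?_
  rw [cf_apply]
  rcases Nat.lt_or_ge (j + j') r with h1 | h1
  · rw [h (j + j') (f * f') h1 (hf.mul hf'), map_zero]
    exact dvd_zero _
  · have : r - j - j' = 0 := by omega
    rw [this, pow_zero]
    exact one_dvd _

theorem Tf_homog (a b : K) (l m : List K) (φ : (MvPolynomial (Fin 3) K) →ₗ[K] K) :
    (Tf (a :: l) (b :: m) φ).IsHomogeneous (m.length + l.length) := by
  refine U_homog 0 l m.length (fun f => ?_) a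
  rw [Vin_apply]
  have := U_homog 1 m 0 (Ψ := cf φ f) (fun x => by
    rw [cf_apply]
    exact isHomogeneous_C _ _) b
  rwa [zero_add] at this

/-- The form of the evaluation at a point of the complete intersection. -/
theorem Tf_eval (a b : K) (l m : List K) {φ : (MvPolynomial (Fin 3) K) →ₗ[K] K}
    (h0 : ∀ f, φ ((X 0 - C a * X 2) * f) = 0) (h1 : ∀ f, φ ((X 1 - C b * X 2) * f) = 0) :
    Tf (a :: l) (b :: m) φ = C (φ 1) * pl 1 m * pl 0 l := by
  have hV : ∀ f, Vin (b :: m) φ f = C (φ f) * pl 1 m := by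
    intro f
    rw [Vin_apply, U_cons, cf_apply, mul_one, U_congr_zero, mul_zero, add_zero]
    intro x
    simp only [LinearMap.comp_apply, LinearMap.mulLeft_apply, cf_apply]
    rw [mul_left_comm, h1, map_zero]
  unfold Tf
  rw [U_cons, hV, U_congr_zero, mul_zero, add_zero]
  intro x
  simp only [LinearMap.comp_apply, LinearMap.mulLeft_apply]
  rw [hV, h0, map_zero, zero_mul]

end Pool.Agent.V5helper95.KV
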