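import Mathlib
import Pool.Agent.V5helper95.KV.Tee

set_option autoImplicit false

/-!
# The complete intersection of two products of lines
-/

namespace Pool.Agent.V5helper95.KV

open MvPolynomial

variable {K : Type} [Field K]

theorem rel_lin (a b : K) : IsRelPrime (X 0 - C a * X 2 : (MvPolynomial (Fin 3) K)) (X 1 - C b * X 2) := by
  have hne : (X 0 - C a * X 2 : (MvPolynomial (Fin 3) K)) ≠ 0 := by
    intro h
    have := congrArg (eval (![a + 1, 0, 1] : Fin 3 → K)) h
    simp at this
  intro d h0 h1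
  obtain ⟨e, he⟩ := h0
  have hd0 : d ≠ 0 := by
    rintro rfl
    rw [zero_mul] at he
    exact hne he
  have he0 : e ≠ 0 := by
    rintro rfl
    rw [mul_zero] at he
    exact hne he
  have h2 : d.totalDegree + e.totalDegree = 1 := by
    rw [← totalDegree_mul_of_isDomain hd0 he0, ← he, (lin_homog 0 a).totalDegree hne]
  rcases Nat.eq_zero_or_pos d.totalDegree with h3 | h3
  · rw [totalDegree_eq_zero_iff_eq_C] at h3
    rw [h3]
    refine (isUnit_iff_ne_zero.2 fun h4 => hd0 ?_).map C
    rw [h3, h4, map_zero]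
  · exfalso
    have h4 : e.totalDegree = 0 := by omega
    rw [totalDegree_eq_zero_iff_eq_C] at h4
    obtain ⟨f, hf⟩ := h1
    have h5 : coeff 0 e ≠ 0 := fun h6 => he0 (by rw [h4, h6, map_zero])
    have h6 := congrArg (eval (![a, b + 1, 1] : Fin 3 → K)) he
    have h7 := congrArg (eval (![a, b + 1, 1] : Fin 3 → K)) hf
    rw [h4] at h6
    simp at h6 h7
    rcases h6 with h6 | h6
    · rw [h6, zero_mul] at h7
      exact one_ne_zero h7
    · exact h5 h6

theorem pl_ne (i : Fin 3) (hi : i ≠ 2) (l : List K) : pl i l ≠ 0 := by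
  induction l with
  | nil => exact one_ne_zero
  | cons a l ih =>
    rw [pl_cons]
    refine mul_ne_zero ?_ ih
    intro h
    have := congrArg (eval (fun j => if j = i then a + 1 else 1 : Fin 3 → K)) h
    simp [hi.symm] at this

theorem rel_pl (l m : List K) : IsRelPrime (pl 0 l) (pl 1 m) := by
  induction l with
  | nil => exact isRelPrime_one_left
  | cons a l ih =>
    rw [pl_cons]
    refine IsRelPrime.mul_left ?_ ih
    clear ih
    induction m with
    | nil => exact isRelPrime_one_right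
    | cons b m ih =>
      rw [pl_cons]
      exact IsRelPrime.mul_right (rel_lin a b) ih

theorem mem_CI {l m : List K} {H : (MvPolynomial (Fin 3) K)} : H ∈ CI l m ↔ ∃ A B, H = A * pl 1 m - B * pl 0 l := by
  unfold CI
  rw [Ideal.mem_span_pair]
  constructor
  · rintro ⟨a, b, h⟩
    exact ⟨b, -a, by rw [← h]; ring⟩
  · rintro ⟨A, B, h⟩
    exact ⟨-B, A, by rw [h]; ring⟩

/-- The substitution `X 2 ↦ 0`. -/
noncomputable def sg (K : Type) [Field K] : MvPolynomial (Fin 3) K →ₐ[K] MvPolynomial (Fin 3) K :=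
  aeval ![X 0, X 1, 0]

theorem sg_sg (f : (MvPolynomial (Fin 3) K)) : sg K (sg K f) = sg K f := by
  have h : (sg K).comp (sg K) = sg K := by
    refine algHom_ext fun i => ?_
    fin_cases i <;> simp [sg]
  exact AlgHom.congr_fun h f

theorem sg_dvd (f : (MvPolynomial (Fin 3) K)) : X 2 ∣ f - sg K f := by
  induction f using MvPolynomial.induction_on with
  | C a =>
    have : sg K (C a) = C a := (sg K).commutes a
    rw [this, sub_self]
    exact dvd_zero _
  | add f g hf hg =>
    rw [map_add, add_sub_add_comm]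
    exact dvd_add hf hg
  | mul_X f i hf =>
    have h1 : f * X i - sg K (f * X i) = (f - sg K f) * X i + sg K f * (X i - sg K (X i)) := by
      rw [map_mul]
      ring
    rw [h1]
    refine dvd_add (hf.mul_right _) (Dvd.dvd.mul_left ?_ _)
    fin_cases i
    · simp [sg]
    · simp [sg]
    · simp [sg]

theorem sg_pl (i : Fin 3) (hi : i ≠ 2) (l : List K) : sg K (pl i l) = X i ^ l.length := by
  induction l with
  | nil => rw [pl_nil, map_one]; rfl
  | cons a l ih =>
    rw [pl_cons, map_mul, ih, List.length_cons, pow_succ, mul_comm]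
    congr 1
    have h1 : sg K (X i) = X i := by
      fin_cases i
      · simp [sg]
      · simp [sg]
      · exact absurd rfl hi
    have h2 : sg K (X 2) = 0 := by simp [sg]
    have h3 : sg K (C a) = C a := (sg K).commutes a
    rw [map_sub, map_mul, h1, h2, h3, mul_zero, sub_zero]

theorem rel_X : IsRelPrime (X 0 : (MvPolynomial (Fin 3) K)) (X 1) := by
  have := rel_lin (0 : K) 0
  simpa using this

/-- `X 2` is not a zero divisor modulo the complete intersection. -/
theorem CI_X2 {l m : List K} {H : (MvPolynomial (Fin 3) K)} (h : X 2 * H ∈ CI l m) : H ∈ CI l m := by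
  rw [mem_CI] at h
  obtain ⟨A, B, h⟩ := h
  have h1 := congrArg (sg K) h
  have h2 : sg K (X 2) = 0 := by simp [sg]
  rw [map_sub, map_mul, map_mul, map_mul, sg_pl 0 (by decide), sg_pl 1 (by decide), h2, zero_mul]
    at h1
  have h3 : sg K A * X 1 ^ m.length = sg K B * X 0 ^ l.length := (sub_eq_zero.1 h1.symm)
  obtain ⟨S, hA, hB⟩ := syz (P := X 0 ^ l.length) (Q := X 1 ^ m.length)
    (IsRelPrime.pow rel_X) (pow_ne_zero _ (X_ne_zero _))
    (pow_ne_zero _ (X_ne_zero _)) h3
  have hS : sg K S = S := by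
    have h4 := congrArg (sg K) hA
    have h5 : sg K (X 0) = X 0 := by simp [sg]
    rw [sg_sg, map_mul, map_pow, h5, hA] at h4
    exact (mul_left_cancel₀ (pow_ne_zero _ (X_ne_zero _)) h4).symm
  obtain ⟨A', hA'⟩ : X 2 ∣ A - pl 0 l * S := by
    have h4 := sg_dvd (A - pl 0 l * S)
    rwa [map_sub, map_mul, sg_pl 0 (by decide), hS, hA, sub_self, sub_zero] at h4
  obtain ⟨B', hB'⟩ : X 2 ∣ B - pl 1 m * S := by
    have h4 := sg_dvd (B - pl 1 m * S)
    rwa [map_sub, map_mul, sg_pl 1 (by decide), hS, hB, sub_self, sub_zero] at h4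
  rw [mem_CI]
  refine ⟨A', B', mul_left_cancel₀ (X_ne_zero (2 : Fin 3)) ?_⟩
  rw [h]
  linear_combination pl 1 m * hA' - pl 0 l * hB'

theorem CI_X2_pow {l m : List K} {H : (MvPolynomial (Fin 3) K)} (r : ℕ) (h : X 2 ^ r * H ∈ CI l m) : H ∈ CI l m := by
  induction r with
  | zero => simpa using h
  | succ r ih =>
    rw [pow_succ', mul_assoc] at h
    exact ih (CI_X2 h)

theorem hc_mul {N D : ℕ} {P A : (MvPolynomial (Fin 3) K)} (hP : P.IsHomogeneous N) :
    homogeneousComponent (N + D) (P * A) = P * homogeneousComponent D A := by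
  conv_lhs => rw [← sum_homogeneousComponent A, Finset.mul_sum, map_sum]
  rw [Finset.sum_congr rfl fun j _ => homogeneousComponent_of_mem
    (hP.mul (homogeneousComponent_isHomogeneous j A))]
  simp only [Nat.add_left_cancel_iff]
  rw [Finset.sum_ite_eq]
  split_ifs with h
  · rfl
  · rw [homogeneousComponent_eq_zero, mul_zero]
    rw [Finset.mem_range] at h
    omega

/-- Homogeneous cofactors. -/
theorem CI_homog {l m : List K} {H : (MvPolynomial (Fin 3) K)} {N D : ℕ} (hl : l.length = N) (hm : m.length = N)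
    (hH : H.IsHomogeneous (N + D)) (h : H ∈ CI l m) : ∃ A B : (MvPolynomial (Fin 3) K), A.IsHomogeneous D ∧
      B.IsHomogeneous D ∧ H = A * pl 1 m - B * pl 0 l := by
  rw [mem_CI] at h
  obtain ⟨A, B, h⟩ := h
  refine ⟨_, _, homogeneousComponent_isHomogeneous D A, homogeneousComponent_isHomogeneous D B, ?_⟩
  have h1 := congrArg (homogeneousComponent (N + D)) h
  rw [homogeneousComponent_eq_self (by exact hH), map_sub, mul_comm A, mul_comm B,
    hc_mul (hm ▸ pl_homog 1 m), hc_mul (hl ▸ pl_homog 0 l)] at h1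
  rw [h1]
  ring

/-- The Bezoutian form is not in the ideal. -/
theorem notMem_CI (a b : K) (l m : List K) {c : K} (hc : c ≠ 0) :
    C c * pl 1 m * pl 0 l ∉ CI (a :: l) (b :: m) := by
  intro h
  rw [mem_CI] at h
  obtain ⟨A, B, h⟩ := h
  rw [pl_cons, pl_cons] at h
  have h1 : pl 0 l ∣ A := by
    refine rel_dvd (a := (X 0 - C a * X 2) * pl 0 l) (b := (X 1 - C b * X 2) * pl 1 m)
      ?_ (dvd_mul_of_dvd_right (dvd_mul_left _ _) _) ?_
    · rw [← pl_cons, ← pl_cons]
      exact rel_pl _ _
    · refine ⟨C c * pl 1 m + B * (X 0 - C a * X 2), ?_⟩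
      linear_combination -h
  have h2 : pl 1 m ∣ B := by
    refine rel_dvd (a := (X 1 - C b * X 2) * pl 1 m) (b := (X 0 - C a * X 2) * pl 0 l)
      ?_ (dvd_mul_of_dvd_right (dvd_mul_left _ _) _) ?_
    · rw [← pl_cons, ← pl_cons]
      exact (rel_pl _ _).symm
    · refine ⟨A * (X 1 - C b * X 2) - C c * pl 0 l, ?_⟩
      linear_combination h
  obtain ⟨A', rfl⟩ := h1
  obtain ⟨B', rfl⟩ := h2
  have h3 : C c = A' * (X 1 - C b * X 2) - B' * (X 0 - C a * X 2) := by
    refine mul_left_cancel₀ (mul_ne_zero (pl_ne 1 (by decide) m) (pl_ne 0 (by decide) l)) ?_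
    linear_combination h
  have h4 := congrArg (eval (![a, b, 1] : Fin 3 → K)) h3
  simp at h4
  exact hc h4

end Pool.Agent.V5helper95.KV
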