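import Pool.Agent.V5helper95.KV.Eig

set_option autoImplicit false

/-!
# The count of dimensions, and the factorization of Ramanujam
-/

namespace Pool.Agent.V5helper95.KV

open MvPolynomial Pool.Agent.W609 Pool.Agent.W609.CR Pool.Agent.TH167.SH Pool.Agent.H248R5
  Pool.Agent.H248R6

variable {K : Type} [Field K]

/-- The abstract count. -/
theorem count {V1 V2 V3 V4 : Submodule K (MvPolynomial (Fin 3) K)} (f1 : Module.Finite K ↥V1) (f2 : Module.Finite K ↥V2)
    (f3 : Module.Finite K ↥V3) {B g1 g2 P Q : (MvPolynomial (Fin 3) K)} (hB : B ≠ 0)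
    (hrel : ∀ G ∈ V1, ∃ S ∈ V2, B ∣ G * g1 - P * S ∧ B ∣ G * g2 - Q * S)
    (h4 : ∀ H ∈ V4, B * H ∈ V2)
    (h3 : ∀ G ∈ V1, B ∣ G * g1 → B ∣ G * g2 → ∃ H ∈ V3, G = B * H) :
    Module.finrank K ↥V1 + Module.finrank K ↥V4 ≤ Module.finrank K ↥V2 + Module.finrank K ↥V3 := by
  let W : Submodule K (↥V1 × ↥V2) :=
    { carrier := {x | B ∣ x.1.1 * g1 - P * x.2.1 ∧ B ∣ x.1.1 * g2 - Q * x.2.1}
      add_mem' := by
        rintro ⟨a, b⟩ ⟨c, d⟩ ⟨h1, h2⟩ ⟨h3, h4⟩
        have h1' : B ∣ a.1 * g1 - P * b.1 := h1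
        have h2' : B ∣ a.1 * g2 - Q * b.1 := h2
        have h3' : B ∣ c.1 * g1 - P * d.1 := h3
        have h4' : B ∣ c.1 * g2 - Q * d.1 := h4
        constructor
        · show B ∣ (a.1 + c.1) * g1 - P * (b.1 + d.1)
          have := dvd_add h1' h3'
          convert this using 1
          ring
        · show B ∣ (a.1 + c.1) * g2 - Q * (b.1 + d.1)
          have := dvd_add h2' h4'
          convert this using 1
          ring
      zero_mem' := by
        constructor
        · simp
        · simp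
      smul_mem' := by
        rintro r ⟨a, b⟩ ⟨h1, h2⟩
        have h1' : B ∣ a.1 * g1 - P * b.1 := h1
        have h2' : B ∣ a.1 * g2 - Q * b.1 := h2
        constructor
        · show B ∣ (r • a.1) * g1 - P * (r • b.1)
          have := Dvd.dvd.mul_left h1' (C r)
          convert this using 1
          rw [smul_eq_C_mul, smul_eq_C_mul]
          ring
        · show B ∣ (r • a.1) * g2 - Q * (r • b.1)
          have := Dvd.dvd.mul_left h2' (C r)
          convert this using 1
          rw [smul_eq_C_mul, smul_eq_C_mul]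
          ring }
  let p1 : ↥W →ₗ[K] ↥V1 := (LinearMap.fst K ↥V1 ↥V2) ∘ₗ W.subtype
  let p2 : ↥W →ₗ[K] ↥V2 := (LinearMap.snd K ↥V1 ↥V2) ∘ₗ W.subtype
  have hp1 : Function.Surjective p1 := by
    rintro ⟨G, hG⟩
    obtain ⟨S, hS, h1, h2⟩ := hrel G hG
    exact ⟨⟨(⟨G, hG⟩, ⟨S, hS⟩), h1, h2⟩, rfl⟩
  have e1 := LinearMap.finrank_range_add_finrank_ker (K := K) (V := ↥W) (V₂ := ↥V1) p1
  rw [LinearMap.range_eq_top.2 hp1, finrank_top] at e1
  have e2 := LinearMap.finrank_range_add_finrank_ker (K := K) (V := ↥W) (V₂ := ↥V2) p2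
  have e3 : Module.finrank K ↥(LinearMap.range p2) ≤ Module.finrank K ↥V2 :=
    Submodule.finrank_le _
  -- the kernel of the second projection
  have e4 : Module.finrank K ↥(LinearMap.ker p2) ≤ Module.finrank K ↥V3 := by
    let q : ↥(LinearMap.ker p2) →ₗ[K] (MvPolynomial (Fin 3) K) := V1.subtype ∘ₗ p1 ∘ₗ (LinearMap.ker p2).subtype
    have hq0 : ∀ x : ↥(LinearMap.ker p2), x.1.1.2 = 0 := fun x => x.2
    have hq : Function.Injective q := by
      intro x y hxy
      have h1 : x.1.1.1.1 = y.1.1.1.1 := hxy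
      refine Subtype.ext (Subtype.ext (Prod.ext (Subtype.ext h1) ?_))
      rw [hq0 x, hq0 y]
    rw [← LinearMap.finrank_range_of_inj hq]
    have h5 : LinearMap.range q ≤ V3.map (LinearMap.mulLeft K B) := by
      rintro _ ⟨x, rfl⟩
      have h6 : B ∣ x.1.1.1.1 * g1 - P * x.1.1.2.1 := x.1.2.1
      have h7 : B ∣ x.1.1.1.1 * g2 - Q * x.1.1.2.1 := x.1.2.2
      rw [hq0 x, Submodule.coe_zero, mul_zero, sub_zero] at h6 h7
      obtain ⟨H, hH, hG⟩ := h3 _ x.1.1.1.2 h6 h7
      exact ⟨H, hH, hG.symm⟩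
    exact (Submodule.finrank_mono h5).trans (Submodule.finrank_map_le _ _)
  -- the kernel of the first projection
  have e5 : Module.finrank K ↥V4 ≤ Module.finrank K ↥(LinearMap.ker p1) := by
    have hmem : ∀ H : ↥V4, (((0 : ↥V1), (⟨B * H.1, h4 H.1 H.2⟩ : ↥V2)) : ↥V1 × ↥V2) ∈ W := by
      intro H
      constructor
      · show B ∣ 0 * g1 - P * (B * H.1)
        rw [zero_mul, zero_sub, dvd_neg]
        exact Dvd.intro (P * H.1) (by ring)
      · show B ∣ 0 * g2 - Q * (B * H.1)
        rw [zero_mul, zero_sub, dvd_neg]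
        exact Dvd.intro (Q * H.1) (by ring)
    let r : ↥V4 →ₗ[K] ↥(LinearMap.ker p1) :=
      { toFun := fun H => ⟨⟨(0, ⟨B * H.1, h4 H.1 H.2⟩), hmem H⟩, rfl⟩
        map_add' := fun a b => by
          refine Subtype.ext (Subtype.ext (Prod.ext ?_ (Subtype.ext ?_)))
          · show (0 : ↥V1) = 0 + 0
            rw [add_zero]
          · show B * (a.1 + b.1) = B * a.1 + B * b.1
            ring
        map_smul' := fun c a => by
          refine Subtype.ext (Subtype.ext (Prod.ext ?_ (Subtype.ext ?_)))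
          · show (0 : ↥V1) = c • 0
            rw [smul_zero]
          · show B * (c • a.1) = c • (B * a.1)
            rw [mul_smul_comm] }
    refine LinearMap.finrank_le_finrank_of_injective (f := r) fun a b hab => ?_
    have h5 : B * a.1 = B * b.1 := by
      have h6 : (r a).1.1.2.1 = (r b).1.1.2.1 := by rw [hab]
      exact h6
    exact Subtype.ext (mul_left_cancel₀ hB h5)
  omega

theorem choose_second (x a b : ℕ) : (x + a + b + 2).choose 2 + (x + 2).choose 2 =
    (x + a + 2).choose 2 + (x + b + 2).choose 2 + a * b := by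
  have h : ∀ y : ℕ, 2 * (y + 2).choose 2 = (y + 2) * (y + 1) := fun y =>
    Pool.Agent.H248R6.two_choose (y + 1)
  have h1 := h (x + a + b)
  have h2 := h x
  have h3 := h (x + a)
  have h4 := h (x + b)
  nlinarith

end Pool.Agent.V5helper95.KV
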