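import Mathlib

set_option autoImplicit false

/-!
# Classes on the blow-up of the plane which are known to be nef

Classes `x H - ∑ y i E i` with real coefficients are pairs `(x, y)`.
-/

namespace Pool.Agent.V5helper95.KV

/-- The class is standard: the sum of any three of the `y i` is at most `x`. -/
def Std {n : ℕ} (x : ℝ) (y : Fin n → ℝ) : Prop :=
  ∀ i j k : Fin n, i ≠ j → i ≠ k → j ≠ k → y i + y j + y k ≤ x

/-- The reflection of the class `a` in the class `H - E (i 0) - E (i 1) - E (i 2)`: with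
`δ = a.1 - a.2 (i 0) - a.2 (i 1) - a.2 (i 2)`, the numbers `a.1`, `a.2 (i 0)`, `a.2 (i 1)`,
`a.2 (i 2)` are increased by `δ`. -/
def refl {n : ℕ} (i : Fin 3 → Fin n) (a : ℝ × (Fin n → ℝ)) : ℝ × (Fin n → ℝ) :=
  (a.1 + (a.1 - a.2 (i 0) - a.2 (i 1) - a.2 (i 2)),
    fun l => a.2 l + if l = i 0 ∨ l = i 1 ∨ l = i 2 then a.1 - a.2 (i 0) - a.2 (i 1) - a.2 (i 2)
      else 0)

/-- The smallest convex cone of classes which is invariant under the reflections and contains the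
following classes `N = (x, y)` with `y i ≥ 0`, `N ^ 2 = x ^ 2 - ∑ y i ^ 2`:

* `nine`: standard classes with `(40 - 4 t) a ≤ (39 - 4 t) q` for a set `T` of `t ≤ 9` of the
  points, where `q = x ^ 2 - ∑_{i ∈ T} y i ^ 2`, `a = ∑_{i ∉ T} y i ^ 2`;
* `sext`: standard classes with `y i ≤ M` and `x ^ 2 N ^ 2 ≥ 160 M ^ 4`, or with `x ≥ 24 M` and
  `x ^ 4 N ^ 2 ≥ 700 M ^ 6`, where `M > 0`;
* `few`: `y i ≤ M`, `N ^ 2 = 0`, `x ≥ 12 M` and `x ^ 2 ≥ (16 r + 8) M ^ 2` for the number `r` of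
  different nonzero values of the `y i`;
* `root`: `√t H - ∑_{i ∈ T} E i` for a set `T` of `t ≥ 10` of the points. -/
inductive Nice {n : ℕ} : ℝ × (Fin n → ℝ) → Prop
  | nine (x : ℝ) (y : Fin n → ℝ) (T : Finset (Fin n)) (hy : ∀ i, 0 ≤ y i) (hs : Std x y)
      (hT : T.card ≤ 9)
      (h : (40 - 4 * (T.card : ℝ)) * ∑ i ∈ Tᶜ, y i ^ 2 ≤
        (39 - 4 * (T.card : ℝ)) * (x ^ 2 - ∑ i ∈ T, y i ^ 2)) : Nice (x, y)
  | sext (x : ℝ) (y : Fin n → ℝ) (M : ℝ) (hM : 0 < M) (hy : ∀ i, 0 ≤ y i) (hyM : ∀ i, y i ≤ M)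
      (hs : Std x y)
      (h : 160 * M ^ 4 ≤ x ^ 2 * (x ^ 2 - ∑ i, y i ^ 2) ∨
        24 * M ≤ x ∧ 700 * M ^ 6 ≤ x ^ 4 * (x ^ 2 - ∑ i, y i ^ 2)) : Nice (x, y)
  | few (x : ℝ) (y : Fin n → ℝ) (M : ℝ) (hy : ∀ i, 0 ≤ y i) (hyM : ∀ i, y i ≤ M)
      (hq : ∑ i, y i ^ 2 = x ^ 2) (h12 : 12 * M ≤ x)
      (h : (16 * (((Finset.univ.image y).erase 0).card : ℝ) + 8) * M ^ 2 ≤ x ^ 2) : Nice (x, y)
  | root (T : Finset (Fin n)) (hT : 10 ≤ T.card) :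
      Nice (√(T.card : ℝ), fun i => if i ∈ T then 1 else 0)
  | add (a b : ℝ × (Fin n → ℝ)) (ha : Nice a) (hb : Nice b) : Nice (a + b)
  | smul (c : ℝ) (a : ℝ × (Fin n → ℝ)) (hc : 0 ≤ c) (ha : Nice a) : Nice (c • a)
  | refl (i : Fin 3 → Fin n) (hi : Function.Injective i) (a : ℝ × (Fin n → ℝ)) (ha : Nice a) :
      Nice (refl i a)

/-- The multiplicities of `D - K`, where only the points with `w i ≥ 2` are blown up. -/
def up {n : ℕ} (w : Fin n → ℕ) (i : Fin n) : ℕ := if w i ≤ 1 then 0 else w i + 1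

/-- For some `d' ≤ d` and some `v ≥ w` the class
`L = (d' + 3) H - ∑_{v i ≥ 2} (v i + 1) E i` is in the cone `Nice` and has `L ^ 2 > 0`. For
`(d', v) = (d, w)` it is `D - K`, `D = d H - ∑ w i E i`, where `K` is the canonical class of the
blow-up at the points with `w i ≥ 2`. -/
def Positive {n : ℕ} (d : ℕ) (w : Fin n → ℕ) : Prop :=
  ∃ (d' : ℕ) (v : Fin n → ℕ), d' ≤ d ∧ (∀ i, w i ≤ v i) ∧
    Nice (((d' + 3 : ℕ) : ℝ), fun i => (up v i : ℝ)) ∧ ∑ i, up v i ^ 2 < (d' + 3) ^ 2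

/-- `N D < 0` for a class `N` of the cone `Nice`. -/
def Negative {n : ℕ} (d : ℕ) (w : Fin n → ℕ) : Prop :=
  ∃ N : ℝ × (Fin n → ℝ), Nice N ∧ N.1 * d < ∑ i, N.2 i * (w i : ℝ)

end Pool.Agent.V5helper95.KV
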