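import Mathlib

set_option autoImplicit false

/-!
# The local computations at a point of the plane
-/

namespace Pool.Agent.V5helper95.KV

open MvPolynomial

variable {K : Type} [Field K]

theorem X_mem (i : Fin 2) : (X i : MvPolynomial (Fin 2) K) ∈ (idealOfVars (Fin 2) K) := Ideal.subset_span ⟨i, rfl⟩

theorem Xpow_mem (i : Fin 2) (s : ℕ) : (X i : MvPolynomial (Fin 2) K) ^ s ∈ (idealOfVars (Fin 2) K) ^ s :=
  Ideal.pow_mem_pow (X_mem i) s

theorem sub_const_mem (V : MvPolynomial (Fin 2) K) : V - C (constantCoeff V) ∈ (idealOfVars (Fin 2) K) := by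
  have h := (mem_pow_idealOfVars_iff' 1 (V - C (constantCoeff V))).2 (by
    intro x hx
    have hx0 : x = 0 := by
      rw [← Finsupp.degree_eq_zero_iff]
      omega
    subst hx0
    rw [coeff_sub, coeff_zero_C, constantCoeff_eq, sub_self])
  rwa [pow_one] at h

/-- The key lemma on leading forms: `g1 y ^ s V - g2 x ^ s U` with units `U`, `V`. -/
theorem split {s m : ℕ} {g1 g2 U V : MvPolynomial (Fin 2) K} (hU : constantCoeff U ≠ 0)
    (hV : constantCoeff V ≠ 0) (hm : m ≤ s)
    (h : g1 * (X 1 ^ s * V) - g2 * (X 0 ^ s * U) ∈ (idealOfVars (Fin 2) K) ^ (s + m)) : g1 ∈ (idealOfVars (Fin 2) K) ^ m ∧ g2 ∈ (idealOfVars (Fin 2) K) ^ m := by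
  induction m with
  | zero => simp
  | succ m ih =>
    obtain ⟨h1, h2⟩ := ih (by omega) (Ideal.pow_le_pow_right (by omega) h)
    have e1 : g1 * (X 1 ^ s * (V - C (constantCoeff V))) ∈ (idealOfVars (Fin 2) K) ^ (s + (m + 1)) := by
      have : s + (m + 1) = m + (s + 1) := by omega
      rw [this, pow_add, pow_add]
      refine Ideal.mul_mem_mul h1 (Ideal.mul_mem_mul (Xpow_mem 1 s) ?_)
      rw [pow_one]
      exact sub_const_mem V
    have e2 : g2 * (X 0 ^ s * (U - C (constantCoeff U))) ∈ (idealOfVars (Fin 2) K) ^ (s + (m + 1)) := by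
      have : s + (m + 1) = m + (s + 1) := by omega
      rw [this, pow_add, pow_add]
      refine Ideal.mul_mem_mul h2 (Ideal.mul_mem_mul (Xpow_mem 0 s) ?_)
      rw [pow_one]
      exact sub_const_mem U
    have e3 : C (constantCoeff V) * (g1 * X 1 ^ s) - C (constantCoeff U) * (g2 * X 0 ^ s) ∈
        (idealOfVars (Fin 2) K) ^ (s + (m + 1)) := by
      have := Ideal.add_mem _ (Ideal.sub_mem _ h e1) e2
      convert this using 1
      ring
    rw [mem_pow_idealOfVars_iff'] at e3 h1 h2
    constructor
    · rw [mem_pow_idealOfVars_iff']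
      intro x hx
      by_cases hxm : x.degree < m
      · exact h1 x hxm
      · have hxm' : x.degree = m := by omega
        have h4 := e3 (x + Finsupp.single 1 s) (by
          rw [map_add, Finsupp.degree_single, hxm']
          omega)
        rw [coeff_sub, coeff_C_mul, coeff_C_mul, X_pow_eq_monomial, X_pow_eq_monomial,
          coeff_mul_monomial, coeff_mul_monomial', if_neg, mul_zero, sub_zero, mul_one] at h4
        · rcases mul_eq_zero.1 h4 with h5 | h5
          · exact absurd h5 hV
          · exact h5
        · intro hle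
          have h5 := hle 0
          have h6 : x 0 ≤ x.degree := Finsupp.le_degree 0 x
          simp at h5
          omega
    · rw [mem_pow_idealOfVars_iff']
      intro x hx
      by_cases hxm : x.degree < m
      · exact h2 x hxm
      · have hxm' : x.degree = m := by omega
        have h4 := e3 (x + Finsupp.single 0 s) (by
          rw [map_add, Finsupp.degree_single, hxm']
          omega)
        rw [coeff_sub, coeff_C_mul, coeff_C_mul, X_pow_eq_monomial, X_pow_eq_monomial,
          coeff_mul_monomial', if_neg, coeff_mul_monomial, mul_zero, zero_sub, mul_one,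
          neg_eq_zero] at h4
        · rcases mul_eq_zero.1 h4 with h5 | h5
          · exact absurd h5 hU
          · exact h5
        · intro hle
          have h5 := hle 1
          have h6 : x 1 ≤ x.degree := Finsupp.le_degree 1 x
          simp at h5
          omega

/-- The annihilator of `(idealOfVars (Fin 2) K) ^ s` modulo `(x ^ s, y ^ s)`. -/
theorem socle {s : ℕ} {T : MvPolynomial (Fin 2) K}
    (h : ∀ a b : ℕ, a + b = s → ∃ W α β : MvPolynomial (Fin 2) K, constantCoeff W ≠ 0 ∧
      T * (X 0 ^ a * X 1 ^ b * W) = α * X 1 ^ s - β * X 0 ^ s) : T ∈ (idealOfVars (Fin 2) K) ^ (s - 1) := by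
  have key : ∀ τ, τ ≤ s - 1 → T ∈ (idealOfVars (Fin 2) K) ^ τ := by
    intro τ
    induction τ with
    | zero => simp
    | succ τ ih =>
      intro hτ
      have h1 := ih (by omega)
      rw [mem_pow_idealOfVars_iff']
      intro x hx
      have h1' := (mem_pow_idealOfVars_iff' _ _).1 h1
      by_cases hxm : x.degree < τ
      · exact h1' x hxm
      · have hxm' : x.degree = τ := by omega
        have hx01 : x 0 + x 1 = τ := by
          rw [← hxm', Finsupp.degree_eq_sum, Fin.sum_univ_two]
        obtain ⟨W, α, β, hW, hE⟩ := h (s - 1 - x 0) (x 0 + 1) (by omega)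
        have e1 : T * (X 0 ^ (s - 1 - x 0) * X 1 ^ (x 0 + 1) * (W - C (constantCoeff W))) ∈
            (idealOfVars (Fin 2) K) ^ (s + (τ + 1)) := by
          have : s + (τ + 1) = τ + ((s - 1 - x 0) + (x 0 + 1) + 1) := by omega
          rw [this, pow_add, pow_add, pow_add, pow_add]
          refine Ideal.mul_mem_mul h1 (Ideal.mul_mem_mul (Ideal.mul_mem_mul (Xpow_mem _ _)
            (by rw [← pow_add]; exact Xpow_mem _ _)) ?_)
          rw [pow_one]
          exact sub_const_mem W
        rw [mem_pow_idealOfVars_iff'] at e1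
        obtain ⟨z, hz⟩ : ∃ z : Fin 2 →₀ ℕ, z = x + (Finsupp.single 0 (s - 1 - x 0) +
            Finsupp.single 1 (x 0 + 1)) := ⟨_, rfl⟩
        have z0 : z 0 = s - 1 := by
          rw [hz]
          simp
          omega
        have z1 : z 1 = τ + 1 := by
          rw [hz]
          simp
          omega
        have h4 := e1 z (by
          rw [Finsupp.degree_eq_sum, Fin.sum_univ_two, z0, z1]
          omega)
        have e2 : T * (X 0 ^ (s - 1 - x 0) * X 1 ^ (x 0 + 1) * (W - C (constantCoeff W))) =
            (α * X 1 ^ s - β * X 0 ^ s) - C (constantCoeff W) * (T * monomial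
              (Finsupp.single 0 (s - 1 - x 0) + Finsupp.single 1 (x 0 + 1)) 1) := by
          rw [← hE, ← mul_one (1 : K), ← monomial_mul, ← X_pow_eq_monomial, ← X_pow_eq_monomial]
          ring
        rw [e2, coeff_sub, coeff_sub, coeff_C_mul, hz, coeff_mul_monomial, ← hz, mul_one,
          X_pow_eq_monomial, X_pow_eq_monomial, coeff_mul_monomial', if_neg, coeff_mul_monomial',
          if_neg, sub_zero, zero_sub, neg_eq_zero] at h4
        · rcases mul_eq_zero.1 h4 with h5 | h5
          · exact absurd h5 hW
          · exact h5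
        · intro hle
          have h5 := hle 0
          simp [z0] at h5
          omega
        · intro hle
          have h5 := hle 1
          simp [z1] at h5
          omega
  exact key _ le_rfl

end Pool.Agent.V5helper95.KV
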