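import Pool.Agent.TH167.TT.Reg
import Pool.Agent.V5helper95.KV.Ci
import Pool.Agent.V5helper95.KV.Loc

set_option autoImplicit false

/-!
# Dependent conditions and the form `T`
-/

namespace Pool.Agent.V5helper95.KV

open MvPolynomial Pool.Agent.W609 Pool.Agent.W609.CR Pool.Agent.TH167.SH Pool.Agent.H248R5
  Pool.Agent.H248R6

variable {K : Type} [Field K]

/-- The jets. -/
noncomputable def jet {n : ℕ} (s : Fin n → ℕ) (P : Fin n → Fin 2 → K) :
    (MvPolynomial (Fin 3) K) →ₗ[K] (∀ i, Quo K (s i)) :=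
  LinearMap.pi fun i => (Ideal.Quotient.mkₐ K ((idealOfVars (Fin 2) K) ^ (s i))).toLinearMap ∘ₗ (tau (P i)).toLinearMap

theorem jet_apply {n : ℕ} (s : Fin n → ℕ) (P : Fin n → Fin 2 → K) (f : (MvPolynomial (Fin 3) K)) (i : Fin n) :
    jet s P f i = Ideal.Quotient.mk _ (tau (P i) f) := rfl

theorem fr_eq {n : ℕ} (s : Fin n → ℕ) (P : Fin n → Fin 2 → K) (e : ℕ) :
    Module.finrank K ↥(forms s P e) = Module.finrank K ↥(LinearMap.ker (ev s P e)) := by
  rw [forms_eq_map]
  exact LinearEquiv.finrank_eq (Submodule.equivSubtypeMap _ _).symm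

theorem exists_phi {n : ℕ} {s : Fin n → ℕ} {P : Fin n → Fin 2 → K}
    (hP : Function.Injective P) {D : ℕ}
    (hdep : (D + 2).choose 2 < Module.finrank K ↥(forms s P D) + ∑ i, (s i + 1).choose 2) :
    ∃ φ : (MvPolynomial (Fin 3) K) →ₗ[K] K, (∀ f, φ (X 2 * f) = φ f) ∧
      (∀ f, (∀ i, tau (P i) f ∈ (idealOfVars (Fin 2) K) ^ (s i)) → φ f = 0) ∧
      (∀ (j : ℕ) (f : (MvPolynomial (Fin 3) K)), j < D + 1 → f.IsHomogeneous j → φ f = 0) ∧
      ∃ (k : ℕ) (f : (MvPolynomial (Fin 3) K)), f.IsHomogeneous k ∧ φ f ≠ 0 := by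
  classical
  have hfinD : Module.Finite K ↥(homogeneousSubmodule (Fin 3) K D) :=
    Module.Finite.iff_fg.2 (homogeneousSubmodule_fg _ _ D)
  have hfinN : Module.Finite K ↥(homogeneousSubmodule (Fin 3) K (∑ i, s i)) :=
    Module.Finite.iff_fg.2 (homogeneousSubmodule_fg _ _ _)
  have hq : ∀ i, Module.Finite K (Quo K (s i)) := fun i => quo_finite (s i)
  have h1 := Pool.Agent.TH167.TT.sum_le_dim hP s (d := ∑ i, s i) le_rfl
  rw [vs_eq_forms] at h1
  have hsurj := surj_of_ind h1
  have h2 := LinearMap.finrank_range_add_finrank_ker (ev s P (∑ i, s i))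
  rw [LinearMap.range_eq_top.2 hsurj, finrank_top, finrank_homog, ← fr_eq] at h2
  have h3 := LinearMap.finrank_range_add_finrank_ker (ev s P D)
  rw [finrank_homog, ← fr_eq] at h3
  have h4 : LinearMap.range (ev s P D) < ⊤ := by
    rw [lt_top_iff_ne_top]
    intro h
    rw [h, finrank_top] at h3
    omega
  obtain ⟨ψ, hψ0, hψ⟩ := Submodule.exists_le_ker_of_lt_top _ h4
  have h5 : ∀ f, f.IsHomogeneous D → (ψ ∘ₗ jet s P) f = 0 := by
    intro f hf
    exact hψ ⟨⟨f, hf⟩, rfl⟩
  have htwo : ∀ f, (ψ ∘ₗ jet s P) (X 2 * f) = (ψ ∘ₗ jet s P) f := by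
    intro f
    rw [LinearMap.comp_apply, LinearMap.comp_apply]
    congr 1
    funext i
    rw [jet_apply, jet_apply, map_mul, tau_X2, one_mul]
  refine ⟨ψ ∘ₗ jet s P, htwo, ?_, ?_, ?_⟩
  · intro f hf
    rw [LinearMap.comp_apply]
    have : jet s P f = 0 := by
      funext i
      rw [jet_apply]
      exact Ideal.Quotient.eq_zero_iff_mem.2 (hf i)
    rw [this, map_zero]
  · intro j f hj hf
    have h6 : ∀ r : ℕ, (ψ ∘ₗ jet s P) (X 2 ^ r * f) = (ψ ∘ₗ jet s P) f := by
      intro r
      induction r with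
      | zero => rw [pow_zero, one_mul]
      | succ r ih => rw [pow_succ', mul_assoc, htwo, ih]
    rw [← h6 (D - j)]
    refine h5 _ ?_
    have := (isHomogeneous_X_pow (R := K) (2 : Fin 3) (D - j)).mul hf
    rwa [show D - j + j = D by omega] at this
  · by_contra hcon
    push Not at hcon
    apply hψ0
    refine LinearMap.ext fun t => ?_
    obtain ⟨⟨H, hH⟩, rfl⟩ := hsurj t
    exact hcon _ H hH

/-- The socle of the module generated by the functional. -/
theorem exists_socle {n : ℕ} {s : Fin n → ℕ} {P : Fin n → Fin 2 → K} {φ : (MvPolynomial (Fin 3) K) →ₗ[K] K}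
    (h0 : ∀ f, (∀ i, tau (P i) f ∈ (idealOfVars (Fin 2) K) ^ (s i)) → φ f = 0) :
    ∀ (M : ℕ) (t : Fin n → ℕ), (∀ i, t i ≤ s i) → ∑ i, (s i - t i) = M →
      (∃ (k : ℕ) (f : (MvPolynomial (Fin 3) K)), f.IsHomogeneous k ∧ (∀ i, tau (P i) f ∈ (idealOfVars (Fin 2) K) ^ (t i)) ∧ φ f ≠ 0) →
      ∃ (i : Fin n) (k : ℕ) (G : (MvPolynomial (Fin 3) K)), 0 < s i ∧ G.IsHomogeneous k ∧ φ G ≠ 0 ∧
        (∀ f, φ (G * ((X 0 - C (P i 0) * X 2) * f)) = 0) ∧
        ∀ f, φ (G * ((X 1 - C (P i 1) * X 2) * f)) = 0 := by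
  classical
  intro M
  induction M with
  | zero =>
    rintro t ht hM ⟨k, f, hf, hft, hφ⟩
    exfalso
    refine hφ (h0 f fun i => ?_)
    have h1 := (Finset.sum_eq_zero_iff.1 hM) i (Finset.mem_univ i)
    have h2 : t i = s i := by
      have := ht i
      omega
    rw [← h2]
    exact hft i
  | succ M ih =>
    rintro t ht hM ⟨k, f, hf, hft, hφ⟩
    by_cases hcase : ∃ i, t i < s i ∧ ∃ (k : ℕ) (f : (MvPolynomial (Fin 3) K)), f.IsHomogeneous k ∧
        (∀ j, tau (P j) f ∈ (idealOfVars (Fin 2) K) ^ (Function.update t i (t i + 1) j)) ∧ φ f ≠ 0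
    · obtain ⟨i, hi, k', f', hf', hft', hφ'⟩ := hcase
      refine ih (Function.update t i (t i + 1)) (fun j => ?_) ?_ ⟨k', f', hf', hft', hφ'⟩
      · by_cases hj : j = i
        · subst hj
          rw [Function.update_self]
          omega
        · rw [Function.update_of_ne hj]
          exact ht j
      · rw [← Finset.add_sum_erase _ _ (Finset.mem_univ i)] at hM ⊢
        rw [Function.update_self]
        have : ∑ x ∈ Finset.univ.erase i, (s x - Function.update t i (t i + 1) x) =
            ∑ x ∈ Finset.univ.erase i, (s x - t x) :=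
          Finset.sum_congr rfl fun x hx => by
            rw [Function.update_of_ne (Finset.ne_of_mem_erase hx)]
        rw [this]
        omega
    · push Not at hcase
      obtain ⟨i, hi⟩ : ∃ i, t i < s i := by
        by_contra hcon
        push Not at hcon
        have : ∑ i, (s i - t i) = 0 := Finset.sum_eq_zero fun i _ => by
          have := hcon i
          omega
        omega
      have key : ∀ ℓ : (MvPolynomial (Fin 3) K), ℓ.IsHomogeneous 1 → tau (P i) ℓ ∈ (idealOfVars (Fin 2) K) → ∀ g, φ (f * (ℓ * g)) = 0 := by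
        intro ℓ hℓ hℓm g
        rw [← sum_homogeneousComponent g, Finset.mul_sum, Finset.mul_sum, map_sum]
        refine Finset.sum_eq_zero fun j _ => ?_
        refine hcase i hi _ _ (hf.mul (hℓ.mul (homogeneousComponent_isHomogeneous j g))) fun x => ?_
        by_cases hx : x = i
        · subst hx
          rw [Function.update_self, map_mul, map_mul, pow_succ]
          exact Ideal.mul_mem_mul (hft x) (Ideal.mul_mem_right _ _ hℓm)
        · rw [Function.update_of_ne hx, map_mul]
          exact Ideal.mul_mem_right _ _ (hft x)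
      refine ⟨i, k, f, by omega, hf, hφ, key _ (lin_homog 0 _) ?_, key _ (lin_homog 1 _) ?_⟩
      · rw [map_sub, map_mul, tau_X0, tau_X2, tau_C, mul_one, add_sub_cancel_right]
        exact X_mem 0
      · rw [map_sub, map_mul, tau_X1, tau_X2, tau_C, mul_one, add_sub_cancel_right]
        exact X_mem 1

/-- The products of lines through the points. -/
noncomputable def pr {n : ℕ} (c : Fin 3) (s : Fin n → ℕ) (a : Fin n → K) : (MvPolynomial (Fin 3) K) :=
  ∏ j, (X c - C (a j) * X 2) ^ s j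

/-- The list of the values. -/
def lst {n : ℕ} (s : Fin n → ℕ) (a : Fin n → K) : List K :=
  (List.finRange n).flatMap fun j => List.replicate (s j) (a j)

theorem pl_append (c : Fin 3) (l m : List K) : pl c (l ++ m) = pl c l * pl c m := by
  simp [pl]

theorem pl_replicate (c : Fin 3) (k : ℕ) (a : K) :
    pl c (List.replicate k a) = (X c - C a * X 2) ^ k := by
  simp [pl]

theorem pl_flatMap {n : ℕ} (c : Fin 3) (s : Fin n → ℕ) (a : Fin n → K) (L : List (Fin n)) :
    pl c (L.flatMap fun j => List.replicate (s j) (a j)) =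
      (L.map fun j => (X c - C (a j) * X 2) ^ s j).prod := by
  induction L with
  | nil => rfl
  | cons j L ih => rw [List.flatMap_cons, pl_append, pl_replicate, ih, List.map_cons,
      List.prod_cons]

theorem pl_lst {n : ℕ} (c : Fin 3) (s : Fin n → ℕ) (a : Fin n → K) :
    pl c (lst s a) = pr c s a := by
  unfold lst pr
  rw [pl_flatMap, ← List.ofFn_eq_map, List.prod_ofFn]

theorem length_lst {n : ℕ} (s : Fin n → ℕ) (a : Fin n → K) : (lst s a).length = ∑ j, s j := by
  unfold lst
  rw [List.length_flatMap]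
  simp only [List.length_replicate]
  rw [← List.ofFn_eq_map, List.sum_ofFn]

theorem mem_lst {n : ℕ} {s : Fin n → ℕ} {a : Fin n → K} {i : Fin n} (hi : 0 < s i) :
    a i ∈ lst s a := by
  unfold lst
  rw [List.mem_flatMap]
  exact ⟨i, List.mem_finRange i, List.mem_replicate.2 ⟨by omega, rfl⟩⟩

theorem pl_perm (c : Fin 3) {l m : List K} (h : l.Perm m) : pl c l = pl c m :=
  (h.map _).prod_eq

theorem exists_list {n : ℕ} (c : Fin 3) (s : Fin n → ℕ) (a : Fin n → K) {i : Fin n}
    (hi : 0 < s i) : ∃ l : List K, pl c (a i :: l) = pr c s a ∧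
      (a i :: l).length = ∑ j, s j := by
  classical
  have h := List.perm_cons_erase (mem_lst (a := a) hi)
  exact ⟨(lst s a).erase (a i), by rw [← pl_perm c h, pl_lst], by rw [← h.length_eq, length_lst]⟩

end Pool.Agent.V5helper95.KV
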