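import Pool.Agent.V5helper95.KV.Tex

set_option autoImplicit false

/-!
# The eigenvalue and the factorization
-/

namespace Pool.Agent.V5helper95.KV

open MvPolynomial Pool.Agent.W609 Pool.Agent.W609.CR Pool.Agent.TH167.SH Pool.Agent.H248R5
  Pool.Agent.H248R6

/-- Eigenvectors of a linear relation. -/
theorem exists_eig {K V : Type} [Field K] [IsAlgClosed K] [AddCommGroup V] [Module K V]
    [FiniteDimensional K V] (W : Submodule K (V × V)) (N : Submodule K V)
    (h1 : ∀ v, ∃ w, (v, w) ∈ W) (h2 : ∀ w, (0, w) ∈ W → w ∈ N) (h3 : ∀ v ∈ N, (v, 0) ∈ W)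
    (h4 : N ≠ ⊤) : ∃ (c : K) (v w : V), v ∉ N ∧ (v, w) ∈ W ∧ w - c • v ∈ N := by
  have hsurj : Function.Surjective ((LinearMap.fst K V V) ∘ₗ W.subtype) := by
    intro v
    obtain ⟨w, hw⟩ := h1 v
    exact ⟨⟨(v, w), hw⟩, rfl⟩
  obtain ⟨σ, hσ⟩ := LinearMap.exists_rightInverse_of_surjective _ (LinearMap.range_eq_top.2 hsurj)
  let f : V →ₗ[K] V := (LinearMap.snd K V V) ∘ₗ W.subtype ∘ₗ σ
  have hf : ∀ v, (v, f v) ∈ W := by
    intro v
    have h5 : (σ v : V × V).1 = v := LinearMap.congr_fun hσ v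
    have h6 : (v, f v) = (σ v : V × V) := by
      refine Prod.ext h5.symm rfl
    rw [h6]
    exact (σ v).2
  have hN : N ≤ N.comap f := by
    intro v hv
    have h5 := W.sub_mem (hf v) (h3 v hv)
    rw [Prod.mk_sub_mk, sub_self, sub_zero] at h5
    exact h2 _ h5
  have hnt : Nontrivial (V ⧸ N) := Submodule.Quotient.nontrivial_iff.2 h4
  obtain ⟨c, hc⟩ := Module.End.exists_eigenvalue (N.mapQ N f hN)
  obtain ⟨x, hx⟩ := hc.exists_hasEigenvector
  obtain ⟨v, rfl⟩ := N.mkQ_surjective x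
  refine ⟨c, v, f v, fun hv => hx.2 ?_, hf v, ?_⟩
  · rw [Submodule.mkQ_apply]
    exact (Submodule.Quotient.mk_eq_zero N).2 hv
  · have h5 := hx.apply_eq_smul
    rw [Submodule.mkQ_apply, Submodule.mapQ_apply, ← Submodule.Quotient.mk_smul] at h5
    exact (Submodule.Quotient.eq N).1 h5

variable {K : Type} [Field K]

theorem homog_of_mul {P S : (MvPolynomial (Fin 3) K)} {N D : ℕ} (hP : P.IsHomogeneous N) (hP0 : P ≠ 0)
    (h : (P * S).IsHomogeneous (N + D)) : S.IsHomogeneous D := by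
  by_cases hS : S = 0
  · rw [hS]
    exact isHomogeneous_zero _ _ _
  · have h1 := Pool.Agent.Chud.homog_of_dvd h (mul_ne_zero hP0 hS) ⟨P, mul_comm _ _⟩
    have h2 := h.totalDegree (mul_ne_zero hP0 hS)
    rw [totalDegree_mul_of_isDomain hP0 hS, hP.totalDegree hP0] at h2
    have h3 : S.totalDegree = D := by omega
    rwa [h3] at h1

theorem cop3_of_unit {A B b c x y : (MvPolynomial (Fin 3) K)} (hA : IsUnit A) (h : Cop3 B x y) (hb : b = A * x)
    (hc : c = A * y) : Cop3 (A * B) b c := by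
  intro d h1 h2 h3
  rw [hb] at h2
  rw [hc] at h3
  exact h d ((hA.dvd_mul_left).1 h1) ((hA.dvd_mul_left).1 h2) ((hA.dvd_mul_left).1 h3)

section

variable {n : ℕ} {s : Fin n → ℕ} {P : Fin n → Fin 2 → K}

/-- The quotient `g G'` for the function `g = g1 / Px = g2 / Qx` on the curve. -/
theorem action (hx : Function.Injective fun j => P j 0) (hy : Function.Injective fun j => P j 1)
    {T : (MvPolynomial (Fin 3) K)} {t e k N : ℕ} (hN : ∑ j, s j = N) (hTh : T.IsHomogeneous t) (hte : t + e = 2 * N)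
    (hT : ∀ (k : ℕ) (G : (MvPolynomial (Fin 3) K)), G.IsHomogeneous k → (∀ i, tau (P i) G ∈ (idealOfVars (Fin 2) K) ^ (s i)) →
      T * G ∈ JJ s P) (hk : N ≤ t + k)
    {B g1 g2 : (MvPolynomial (Fin 3) K)} {e1 e2 : ℕ} (he : e = e1 + e2) (he1 : e1 ≤ k) (heN : e1 ≤ N)
    (hB : B.IsHomogeneous e2) (hg1 : g1.IsHomogeneous (N - e1))
    (hE : T * B = g1 * Qx s P - g2 * Px s P) {β σ : Fin n → ℕ}
    (hβ : ∀ i, tau (P i) B ∈ (idealOfVars (Fin 2) K) ^ (β i)) (hσs : ∀ i, σ i ≤ s i) (hσβ : ∀ i, 0 < σ i → σ i < β i)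
    {G : (MvPolynomial (Fin 3) K)} (hG : G.IsHomogeneous k) (hGs : ∀ i, tau (P i) G ∈ (idealOfVars (Fin 2) K) ^ (s i)) :
    ∃ S : (MvPolynomial (Fin 3) K), S.IsHomogeneous (k - e1) ∧ (∀ i, tau (P i) S ∈ (idealOfVars (Fin 2) K) ^ (σ i)) ∧
      B ∣ G * g1 - Px s P * S ∧ B ∣ G * g2 - Qx s P * S := by
  have hTG := hT k G hG hGs
  obtain ⟨K1, K2, hK1, hK2, hK⟩ := JJ_homog (D := t + k - N) (by
    rw [hN, show N + (t + k - N) = t + k by omega]
    exact hTh.mul hG) hTG
  obtain ⟨S, hS1, hS2⟩ := syz (rel_PQ s P) (Px_ne s P) (Qx_ne s P)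
    (A := G * g1 - B * K1) (B := G * g2 - B * K2) (by linear_combination -G * hE + B * hK)
  refine ⟨S, ?_, ?_, ⟨K1, by rw [← hS1]; ring⟩, ⟨K2, by rw [← hS2]; ring⟩⟩
  · refine homog_of_mul (Px_homog s P) (Px_ne s P) ?_
    rw [hN, ← hS1]
    refine IsHomogeneous.sub ?_ ?_
    · have := hG.mul hg1
      rwa [show k + (N - e1) = N + (k - e1) by omega] at this
    · have := hB.mul hK1
      rwa [show e2 + (t + k - N) = N + (k - e1) by omega] at this
  · intro i
    rcases Nat.eq_zero_or_pos (σ i) with h0 | h0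
    · rw [h0, pow_zero, Ideal.one_eq_top]
      exact Submodule.mem_top
    · have h1 := hσβ i h0
      have h2 := hσs i
      have hTi := T_ord hx hy hT i
      have hKi := split_tau s hx hy i (m := s i - 1) (by omega) hK (by
        rw [map_mul, show s i + (s i - 1) = (s i - 1) + s i by omega, pow_add]
        exact Ideal.mul_mem_mul hTi (hGs i))
      have hgi := split_tau s hx hy i (m := σ i) h2 hE (by
        refine Ideal.pow_le_pow_right (show s i + σ i ≤ (s i - 1) + β i by omega) ?_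
        rw [map_mul, pow_add]
        exact Ideal.mul_mem_mul hTi (hβ i))
      have hSi := split_tau s hx hy i (m := σ i) h2 (A := 0) (B := -S) (H := Px s P * S)
        (by ring) (by
          rw [← hS1, map_sub, map_mul, map_mul]
          refine Ideal.sub_mem _ ?_ ?_
          · rw [pow_add]
            exact Ideal.mul_mem_mul (hGs i) hgi.1
          · refine Ideal.pow_le_pow_right (show s i + σ i ≤ β i + (s i - 1) by omega) ?_
            rw [pow_add]
            exact Ideal.mul_mem_mul (hβ i) hKi.1)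
      have := hSi.2
      rw [map_neg] at this
      exact neg_mem_iff.1 this

/-- The ideal of the complete intersection vanishes at the points. -/
theorem tau_Px_mem (i : Fin n) : tau (P i) (Px s P) ∈ (idealOfVars (Fin 2) K) ^ (s i) := by
  unfold Px pr
  rw [map_prod]
  refine Ideal.mem_of_dvd _ (Finset.dvd_prod_of_mem _ (Finset.mem_univ i)) ?_
  rw [map_pow]
  refine Ideal.pow_mem_pow ?_ _
  rw [map_sub, map_mul, tau_X0, tau_X2, tau_C, mul_one, add_sub_cancel_right]
  exact X_mem 0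

theorem tau_Qx_mem (i : Fin n) : tau (P i) (Qx s P) ∈ (idealOfVars (Fin 2) K) ^ (s i) := by
  unfold Qx pr
  rw [map_prod]
  refine Ideal.mem_of_dvd _ (Finset.dvd_prod_of_mem _ (Finset.mem_univ i)) ?_
  rw [map_pow]
  refine Ideal.pow_mem_pow ?_ _
  rw [map_sub, map_mul, tau_X1, tau_X2, tau_C, mul_one, add_sub_cancel_right]
  exact X_mem 1

theorem not_unit_of_tau {F : (MvPolynomial (Fin 3) K)} {i : Fin n} (h : tau (P i) F ∈ (idealOfVars (Fin 2) K) ^ 1) : ¬ IsUnit F := by
  intro hu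
  have h1 := hu.map (tau (P i))
  have h2 := Ideal.eq_top_of_isUnit_mem _ h h1
  have h3 : (1 : MvPolynomial (Fin 2) K) ∈ (idealOfVars (Fin 2) K) ^ 1 := by
    rw [h2]
    exact Submodule.mem_top
  have h4 := (mem_pow_idealOfVars_iff' 1 _).1 h3 0 (by simp)
  simp at h4

/-- Eigenvectors of the relation. -/
theorem eig_rel [IsAlgClosed K] {V0 : Submodule K (MvPolynomial (Fin 3) K)} (hfin : Module.Finite K ↥V0)
    {F P Q G1 G2 : (MvPolynomial (Fin 3) K)} (hrel : IsRelPrime P Q)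
    (h1 : ∀ v ∈ V0, ∃ w ∈ V0, F ∣ v * G1 - P * w ∧ F ∣ v * G2 - Q * w)
    (h4 : ∃ v ∈ V0, ¬ F ∣ v) : ∃ (c : K) (v w : (MvPolynomial (Fin 3) K)), v ∈ V0 ∧ w ∈ V0 ∧ ¬ F ∣ v ∧
      F ∣ v * G1 - P * w ∧ F ∣ v * G2 - Q * w ∧ F ∣ w - C c * v := by
  let W : Submodule K (↥V0 × ↥V0) :=
    { carrier := {x | F ∣ x.1.1 * G1 - P * x.2.1 ∧ F ∣ x.1.1 * G2 - Q * x.2.1}
      add_mem' := by
        rintro ⟨a, b⟩ ⟨c, d⟩ ⟨h1, h2⟩ ⟨h3, h4⟩
        have h1' : F ∣ a.1 * G1 - P * b.1 := h1
        have h2' : F ∣ a.1 * G2 - Q * b.1 := h2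
        have h3' : F ∣ c.1 * G1 - P * d.1 := h3
        have h4' : F ∣ c.1 * G2 - Q * d.1 := h4
        constructor
        · show F ∣ (a.1 + c.1) * G1 - P * (b.1 + d.1)
          have := dvd_add h1' h3'
          convert this using 1
          ring
        · show F ∣ (a.1 + c.1) * G2 - Q * (b.1 + d.1)
          have := dvd_add h2' h4'
          convert this using 1
          ring
      zero_mem' := by
        constructor
        · simp
        · simp
      smul_mem' := by
        rintro r ⟨a, b⟩ ⟨h1, h2⟩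
        have h1' : F ∣ a.1 * G1 - P * b.1 := h1
        have h2' : F ∣ a.1 * G2 - Q * b.1 := h2
        constructor
        · show F ∣ (r • a.1) * G1 - P * (r • b.1)
          have := Dvd.dvd.mul_left h1' (C r)
          convert this using 1
          rw [smul_eq_C_mul, smul_eq_C_mul]
          ring
        · show F ∣ (r • a.1) * G2 - Q * (r • b.1)
          have := Dvd.dvd.mul_left h2' (C r)
          convert this using 1
          rw [smul_eq_C_mul, smul_eq_C_mul]
          ring }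
  let N0 : Submodule K ↥V0 :=
    { carrier := {x | F ∣ x.1}
      add_mem' := fun {a b} ha hb => dvd_add ha hb
      zero_mem' := dvd_zero _
      smul_mem' := fun r a ha => by
        show F ∣ r • a.1
        rw [smul_eq_C_mul]
        exact Dvd.dvd.mul_left ha _ }
  obtain ⟨c, v, w, hv, ⟨h5, h6⟩, hw⟩ := exists_eig W N0 (fun v => by
      obtain ⟨w, hw, h2, h3⟩ := h1 v.1 v.2
      exact ⟨⟨w, hw⟩, h2, h3⟩)
    (fun w ⟨h2, h3⟩ => by
      have h2' : F ∣ 0 * G1 - P * w.1 := h2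
      have h3' : F ∣ 0 * G2 - Q * w.1 := h3
      rw [zero_mul, zero_sub, dvd_neg, mul_comm] at h2' h3'
      exact rel_dvd hrel h2' h3')
    (fun v hv => by
      have hv' : F ∣ v.1 := hv
      constructor
      · show F ∣ v.1 * G1 - P * 0
        rw [mul_zero, sub_zero]
        exact Dvd.dvd.mul_right hv' _
      · show F ∣ v.1 * G2 - Q * 0
        rw [mul_zero, sub_zero]
        exact Dvd.dvd.mul_right hv' _)
    (fun htop => by
      obtain ⟨v, hv, hFv⟩ := h4
      have h2 : (⟨v, hv⟩ : ↥V0) ∈ N0 := by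
        rw [htop]
        exact Submodule.mem_top
      exact hFv h2)
  refine ⟨c, v.1, w.1, v.2, w.2, hv, h5, h6, ?_⟩
  have h7 : F ∣ w.1 - c • v.1 := hw
  rwa [smul_eq_C_mul] at h7

/-- The factorization. -/
theorem exists_factor [IsAlgClosed K] (hx : Function.Injective fun j => P j 0)
    (hy : Function.Injective fun j => P j 1)
    {T : (MvPolynomial (Fin 3) K)} {t e N : ℕ} (hN : ∑ j, s j = N) (hTh : T.IsHomogeneous t) (hte : t + e = 2 * N)
    (hTn : T ∉ JJ s P)
    (hT : ∀ (k : ℕ) (G : (MvPolynomial (Fin 3) K)), G.IsHomogeneous k → (∀ i, tau (P i) G ∈ (idealOfVars (Fin 2) K) ^ (s i)) →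
      T * G ∈ JJ s P)
    {F : (MvPolynomial (Fin 3) K)} (hF0 : F ≠ 0) (hF : F.IsHomogeneous e) (hFs : ∀ i, 0 < s i → tau (P i) F ∈
      (idealOfVars (Fin 2) K) ^ (s i + 1)) :
    ∃ A B g1 g2 : (MvPolynomial (Fin 3) K), F = A * B ∧ ¬ IsUnit A ∧ ¬ IsUnit B ∧ Cop3 B g1 g2 ∧
      T * B = g1 * Qx s P - g2 * Px s P ∧ (A * g1).IsHomogeneous N ∧
      (A * g2).IsHomogeneous N := by
  classical
  obtain ⟨i0, hi0⟩ : ∃ i, 0 < s i := by
    by_contra hcon
    push Not at hcon
    have h1 : ∀ i, s i = 0 := fun i => Nat.le_zero.1 (hcon i)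
    apply hTn
    have h2 : Px s P = 1 := by
      unfold Px pr
      exact Finset.prod_eq_one fun j _ => by rw [h1 j, pow_zero]
    have h3 : (1 : (MvPolynomial (Fin 3) K)) ∈ JJ s P := by
      rw [← h2]
      exact Ideal.subset_span (Or.inl rfl)
    rw [(Ideal.eq_top_iff_one _).2 h3]
    exact Submodule.mem_top
  have hFs' : ∀ i, tau (P i) F ∈ (idealOfVars (Fin 2) K) ^ (s i) := by
    intro i
    rcases Nat.eq_zero_or_pos (s i) with h0 | h0
    · rw [h0, pow_zero, Ideal.one_eq_top]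
      exact Submodule.mem_top
    · exact Ideal.pow_le_pow_right (Nat.le_succ _) (hFs i h0)
  obtain ⟨G1, G2, hG1, hG2, hE⟩ := JJ_homog (D := N) (by
    rw [hN, show N + N = t + e by omega]
    exact hTh.mul hF) (hT e F hF hFs')
  have hfin : Module.Finite K ↥(forms s P N) := by
    rw [← vs_eq_forms]
    exact vs_fin _ _ _
  obtain ⟨c, v, w, -, -, hv, hv1, hv2, hw'⟩ := eig_rel hfin (rel_PQ s P) (F := F) (G1 := G1)
    (G2 := G2) (fun v hv => by
      obtain ⟨hv1, hv2⟩ := mem_forms.1 hv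
      obtain ⟨S, h1, h2, h3, h4⟩ := action hx hy hN hTh hte hT (k := N) (by omega) (B := F)
        (g1 := G1) (g2 := G2) (e1 := 0) (e2 := e) (by omega) (Nat.zero_le _) (Nat.zero_le _) hF
        (by rwa [Nat.sub_zero]) hE (β := fun i => if 0 < s i then s i + 1 else 0) (σ := s)
        (fun i => by
          by_cases h0 : 0 < s i
          · rw [if_pos h0]
            exact hFs i h0
          · rw [if_neg h0, pow_zero, Ideal.one_eq_top]
            exact Submodule.mem_top) (fun i => le_rfl) (fun i h0 => by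
              rw [if_pos h0]
              omega) hv1 hv2
      exact ⟨S, mem_forms.2 ⟨by simpa using h1, h2⟩, h3, h4⟩)
    (by
      by_contra hcon
      push Not at hcon
      have hP1 : Px s P ∈ forms s P N := mem_forms.2 ⟨hN ▸ Px_homog s P, tau_Px_mem⟩
      have hQ1 : Qx s P ∈ forms s P N := mem_forms.2 ⟨hN ▸ Qx_homog s P, tau_Qx_mem⟩
      have h3 : IsUnit F := rel_PQ s P (hcon _ hP1) (hcon _ hQ1)
      exact not_unit_of_tau (Ideal.pow_le_pow_right (by omega) (hFs i0 hi0)) h3)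
  have hd1 : F ∣ v * (G1 - C c * Px s P) := by
    have := dvd_add hv1 (Dvd.dvd.mul_left hw' (Px s P))
    convert this using 1
    ring
  have hd2 : F ∣ v * (G2 - C c * Qx s P) := by
    have := dvd_add hv2 (Dvd.dvd.mul_left hw' (Qx s P))
    convert this using 1
    ring
  obtain ⟨A, B, g1, g2, hAB, hg1, hg2, hcop⟩ := exists_gcd3 F (G1 - C c * Px s P)
    (G2 - C c * Qx s P) hF0
  have hA0 : A ≠ 0 := by
    rintro rfl
    rw [zero_mul] at hAB
    exact hF0 hAB
  have hTB : T * B = g1 * Qx s P - g2 * Px s P := by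
    refine mul_left_cancel₀ hA0 ?_
    linear_combination hE - T * hAB + Qx s P * hg1 - Px s P * hg2
  have hc1 : ∀ {Z : (MvPolynomial (Fin 3) K)} {m : ℕ}, Z.IsHomogeneous m → (C c * Z).IsHomogeneous m := by
    intro Z m hZ
    have := (isHomogeneous_C (Fin 3) c).mul hZ
    rwa [zero_add] at this
  refine ⟨A, B, g1, g2, hAB, fun hu => ?_, fun hu => ?_, hcop, hTB, ?_, ?_⟩
  · have h1 := cop3_of_unit hu hcop hg1 hg2
    rw [← hAB] at h1
    exact hv (cop3_dvd h1 hd1 hd2)
  · apply hTn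
    obtain ⟨B', hB'⟩ := hu.exists_right_inv
    have h1 : T = (B' * g1) * Qx s P - (B' * g2) * Px s P := by
      linear_combination -T * hB' + B' * hTB
    rw [h1]
    exact Ideal.sub_mem _ (Ideal.mul_mem_left _ _ (Ideal.subset_span (Or.inr rfl)))
      (Ideal.mul_mem_left _ _ (Ideal.subset_span (Or.inl rfl)))
  · rw [← hg1]
    exact hG1.sub (hc1 (hN ▸ Px_homog s P))
  · rw [← hg2]
    exact hG2.sub (hc1 (hN ▸ Qx_homog s P))

end

end Pool.Agent.V5helper95.KV
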