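import Pool.Agent.W609.CR.Prime
import Pool.Agent.TH167.SH.Base

set_option autoImplicit false

/-!
# The matrix of the conditions imposed by fat points, over any commutative ring
-/

namespace Pool.Agent.V5helper95.KV

open MvPolynomial Pool.Agent.H248R5

/-- The pairs with sum less than `m`. -/
def J (m : ℕ) : Finset (ℕ × ℕ) := (Finset.range m).biUnion Finset.HasAntidiagonal.antidiagonal

theorem mem_J {m : ℕ} {x : ℕ × ℕ} : x ∈ J m ↔ x.1 + x.2 < m := by
  unfold J
  simp only [Finset.mem_biUnion, Finset.mem_range, Finset.HasAntidiagonal.mem_antidiagonal]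
  constructor
  · rintro ⟨a, h1, h2⟩
    omega
  · intro h
    exact ⟨_, h, rfl⟩

theorem card_J (m : ℕ) : (J m).card = (m + 1).choose 2 := by
  unfold J
  rw [Finset.card_biUnion]
  · simp only [Finset.Nat.card_antidiagonal]
    induction m with
    | zero => rfl
    | succ m ih =>
      rw [Finset.sum_range_succ, ih, Nat.choose_succ_succ (m + 1) 1, Nat.choose_one_right]
      ring
  · intro a _ b _ hab
    show Disjoint (Finset.HasAntidiagonal.antidiagonal a) (Finset.HasAntidiagonal.antidiagonal b)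
    rw [Finset.disjoint_left]
    intro x h1 h2
    rw [Finset.HasAntidiagonal.mem_antidiagonal] at h1 h2
    exact hab (h1.symm.trans h2)

/-- The exponents of `X 0 ^ a * X 1 ^ b`. -/
noncomputable def ex (x : ℕ × ℕ) : Fin 2 →₀ ℕ := Finsupp.single 0 x.1 + Finsupp.single 1 x.2

theorem ex_zero (x : ℕ × ℕ) : ex x 0 = x.1 := by simp [ex]
theorem ex_one (x : ℕ × ℕ) : ex x 1 = x.2 := by simp [ex]

theorem ex_inj {x y : ℕ × ℕ} : ex x = ex y ↔ x = y := by
  constructor
  · intro h
    have h1 := DFunLike.congr_fun h 0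
    have h2 := DFunLike.congr_fun h 1
    rw [ex_zero, ex_zero] at h1
    rw [ex_one, ex_one] at h2
    exact Prod.ext h1 h2
  · rintro rfl
    rfl

theorem ex_degree (x : ℕ × ℕ) : (ex x).degree = x.1 + x.2 := by
  rw [Finsupp.degree_eq_sum, Fin.sum_univ_two, ex_zero, ex_one]

theorem eq_ex (s : Fin 2 →₀ ℕ) : s = ex (s 0, s 1) := by
  ext i
  fin_cases i
  · show s 0 = ex (s 0, s 1) 0
    exact (ex_zero (s 0, s 1)).symm
  · show s 1 = ex (s 0, s 1) 1
    exact (ex_one (s 0, s 1)).symm

theorem mono_ex {R : Type} [CommRing R] (x : ℕ × ℕ) (c : R) :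
    monomial (ex x) c = C c * X 0 ^ x.1 * X 1 ^ x.2 := by
  unfold ex
  rw [X_pow_eq_monomial, X_pow_eq_monomial, C_mul_monomial, monomial_mul, mul_one, mul_one]

theorem coeff_shift {R : Type} [CommRing R] (a b : R) (i j : ℕ) (x : ℕ × ℕ) :
    coeff (ex x) ((X 0 + C a) ^ i * (X 1 + C b) ^ j : MvPolynomial (Fin 2) R) =
      ((i.choose x.1 * j.choose x.2 : ℕ) : R) * a ^ (i - x.1) * b ^ (j - x.2) := by
  rw [add_pow, add_pow, Finset.sum_mul_sum, coeff_sum]
  have h1 : ∀ m l : ℕ, (X 0 ^ m * C a ^ (i - m) * (i.choose m : MvPolynomial (Fin 2) R)) *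
      (X 1 ^ l * C b ^ (j - l) * (j.choose l : MvPolynomial (Fin 2) R)) =
      monomial (ex (m, l)) (((i.choose m * j.choose l : ℕ) : R) * a ^ (i - m) * b ^ (j - l)) := by
    intro m l
    rw [mono_ex]
    simp only [map_mul, map_pow, map_natCast, Nat.cast_mul]
    ring
  have h2 : ∀ m ∈ Finset.range (i + 1), coeff (ex x) (∑ l ∈ Finset.range (j + 1),
      (X 0 ^ m * C a ^ (i - m) * (i.choose m : MvPolynomial (Fin 2) R)) *
      (X 1 ^ l * C b ^ (j - l) * (j.choose l : MvPolynomial (Fin 2) R))) =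
      ∑ l ∈ Finset.range (j + 1), if (m, l) = x then
        ((i.choose m * j.choose l : ℕ) : R) * a ^ (i - m) * b ^ (j - l) else 0 := by
    intro m _
    rw [coeff_sum]
    refine Finset.sum_congr rfl fun l _ => ?_
    rw [h1, coeff_monomial]
    simp only [ex_inj]
  rw [Finset.sum_congr rfl h2]
  by_cases hx : x.1 ≤ i ∧ x.2 ≤ j
  · rw [Finset.sum_eq_single x.1]
    · rw [Finset.sum_eq_single x.2]
      · rw [if_pos rfl]
      · intro l _ hl
        rw [if_neg fun h => hl (by rw [← h])]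
      · intro h
        exact absurd (Finset.mem_range.2 (by omega)) h
    · intro m _ hm
      refine Finset.sum_eq_zero fun l _ => ?_
      rw [if_neg fun h => hm (by rw [← h])]
    · intro h
      exact absurd (Finset.mem_range.2 (by omega)) h
  · have h3 : i.choose x.1 * j.choose x.2 = 0 := by
      rw [not_and_or] at hx
      rcases hx with hx | hx
      · rw [Nat.choose_eq_zero_of_lt (by omega), zero_mul]
      · rw [Nat.choose_eq_zero_of_lt (show j < x.2 by omega), mul_zero]
    rw [h3, Nat.cast_zero, zero_mul, zero_mul]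
    refine Finset.sum_eq_zero fun m hm => Finset.sum_eq_zero fun l hl => ?_
    rw [if_neg]
    rintro rfl
    rw [Finset.mem_range] at hm hl
    exact hx ⟨by omega, by omega⟩

/-- The matrix of the conditions. -/
def cm {R : Type} [CommRing R] {n : ℕ} (w : Fin n → ℕ) (P : Fin n → Fin 2 → R) (d : ℕ) :
    Matrix (Σ l : Fin n, {x // x ∈ J (w l)}) {x // x ∈ J (d + 1)} R :=
  Matrix.of fun r c => ((c.1.1.choose r.2.1.1 * c.1.2.choose r.2.1.2 : ℕ) : R) *
    P r.1 0 ^ (c.1.1 - r.2.1.1) * P r.1 1 ^ (c.1.2 - r.2.1.2)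

theorem cm_map {R S : Type} [CommRing R] [CommRing S] (φ : R →+* S) {n : ℕ} (w : Fin n → ℕ)
    (P : Fin n → Fin 2 → R) (d : ℕ) :
    (cm w P d).map φ = cm w (fun i j => φ (P i j)) d := by
  ext r c
  unfold cm
  simp

/-- The exponents of a form of degree `d`. -/
noncomputable def e3 (d : ℕ) (x : ℕ × ℕ) : Fin 3 →₀ ℕ :=
  Finsupp.single 0 x.1 + Finsupp.single 1 x.2 + Finsupp.single 2 (d - x.1 - x.2)

theorem e3_zero (d : ℕ) (x : ℕ × ℕ) : e3 d x 0 = x.1 := by simp [e3]
theorem e3_one (d : ℕ) (x : ℕ × ℕ) : e3 d x 1 = x.2 := by simp [e3]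
theorem e3_two (d : ℕ) (x : ℕ × ℕ) : e3 d x 2 = d - x.1 - x.2 := by simp [e3]

theorem e3_inj {d : ℕ} {x y : ℕ × ℕ} : e3 d x = e3 d y ↔ x = y := by
  constructor
  · intro h
    have h1 := DFunLike.congr_fun h 0
    have h2 := DFunLike.congr_fun h 1
    rw [e3_zero, e3_zero] at h1
    rw [e3_one, e3_one] at h2
    exact Prod.ext h1 h2
  · rintro rfl
    rfl

variable {K : Type} [Field K]

theorem tau_mono (p : Fin 2 → K) (d : ℕ) (x : ℕ × ℕ) (c : K) :
    tau p (monomial (e3 d x) c) = C c * ((X 0 + C (p 0)) ^ x.1 * (X 1 + C (p 1)) ^ x.2) := by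
  have h : (monomial (e3 d x) c : MvPolynomial (Fin 3) K) =
      C c * X 0 ^ x.1 * X 1 ^ x.2 * X 2 ^ (d - x.1 - x.2) := by
    unfold e3
    rw [X_pow_eq_monomial, X_pow_eq_monomial, X_pow_eq_monomial, C_mul_monomial, monomial_mul,
      monomial_mul, mul_one, mul_one, mul_one]
  rw [h, map_mul, map_mul, map_mul, map_pow, map_pow, map_pow, tau_X0, tau_X1, tau_X2, tau_C,
    one_pow]
  ring

/-- The form with given coefficients. -/
noncomputable def frm (d : ℕ) : ({x // x ∈ J (d + 1)} → K) →ₗ[K] MvPolynomial (Fin 3) K where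
  toFun c := ∑ x, monomial (e3 d x.1) (c x)
  map_add' c c' := by
    rw [← Finset.sum_add_distrib]
    exact Finset.sum_congr rfl fun a _ => by rw [Pi.add_apply, map_add]
  map_smul' c c' := by
    rw [Finset.smul_sum]
    exact Finset.sum_congr rfl fun a _ => by
      rw [Pi.smul_apply, map_smul, RingHom.id_apply]

theorem frm_apply (d : ℕ) (c : {x // x ∈ J (d + 1)} → K) :
    frm d c = ∑ x, monomial (e3 d x.1) (c x) := rfl

theorem coeff_frm (d : ℕ) (c : {x // x ∈ J (d + 1)} → K) (x : {x // x ∈ J (d + 1)}) :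
    coeff (e3 d x.1) (frm d c) = c x := by
  rw [frm_apply, coeff_sum, Finset.sum_eq_single x]
  · rw [coeff_monomial, if_pos rfl]
  · intro b _ hb
    rw [coeff_monomial, if_neg (fun h => hb (Subtype.ext (e3_inj.1 h)))]
  · intro h
    exact absurd (Finset.mem_univ x) h

theorem frm_inj (d : ℕ) : Function.Injective (frm (K := K) d) := by
  intro x y hxy
  funext a
  rw [← coeff_frm d x a, ← coeff_frm d y a, hxy]

theorem frm_homog (d : ℕ) (c : {x // x ∈ J (d + 1)} → K) : (frm d c).IsHomogeneous d := by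
  rw [frm_apply]
  refine IsHomogeneous.sum _ _ _ fun x _ => ?_
  refine isHomogeneous_monomial _ ?_
  have h1 := mem_J.1 x.2
  rw [Finsupp.degree_eq_sum, Fin.sum_univ_three, e3_zero, e3_one, e3_two]
  omega

theorem frm_surj {d : ℕ} {G : MvPolynomial (Fin 3) K} (hG : G.IsHomogeneous d) :
    frm d (fun x => coeff (e3 d x.1) G) = G := by
  ext a
  by_cases ha : a.degree = d
  · have h1 : a 0 + a 1 + a 2 = d := by
      rw [← ha, Finsupp.degree_eq_sum, Fin.sum_univ_three]
    have h2 : (a 0, a 1) ∈ J (d + 1) := mem_J.2 (by show a 0 + a 1 < d + 1; omega)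
    have h3 : a = e3 d (a 0, a 1) := by
      ext i
      fin_cases i
      · show a 0 = e3 d (a 0, a 1) 0
        exact (e3_zero d (a 0, a 1)).symm
      · show a 1 = e3 d (a 0, a 1) 1
        exact (e3_one d (a 0, a 1)).symm
      · show a 2 = e3 d (a 0, a 1) 2
        rw [e3_two]
        show a 2 = d - a 0 - a 1
        omega
    conv_lhs => rw [h3]
    conv_rhs => rw [h3]
    exact coeff_frm d (fun x => coeff (e3 d x.1) G) ⟨_, h2⟩
  · have h1 : ∀ H : MvPolynomial (Fin 3) K, H.IsHomogeneous d → coeff a H = 0 := by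
      intro H hH
      exact hH.coeff_eq_zero ha
    rw [h1 _ (frm_homog d _), h1 G hG]

theorem coeff_tau_frm {n : ℕ} (w : Fin n → ℕ) (P : Fin n → Fin 2 → K) (d : ℕ)
    (c : {x // x ∈ J (d + 1)} → K) (r : Σ l : Fin n, {x // x ∈ J (w l)}) :
    coeff (ex r.2.1) (tau (P r.1) (frm d c)) = (cm w P d).mulVec c r := by
  rw [frm_apply, map_sum, coeff_sum]
  unfold Matrix.mulVec dotProduct
  refine Finset.sum_congr rfl fun x _ => ?_
  rw [tau_mono, coeff_C_mul, coeff_shift]
  exact mul_comm _ _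

theorem forms_eq {n : ℕ} (w : Fin n → ℕ) (P : Fin n → Fin 2 → K) (d : ℕ) :
    forms w P d = Submodule.map (frm d) (LinearMap.ker (cm w P d).mulVecLin) := by
  ext G
  rw [mem_forms, Submodule.mem_map]
  constructor
  · rintro ⟨h1, h2⟩
    refine ⟨_, ?_, frm_surj h1⟩
    rw [LinearMap.mem_ker]
    funext r
    rw [Matrix.mulVecLin_apply, ← coeff_tau_frm, frm_surj h1]
    have h3 := (mem_pow_idealOfVars_iff' _ _).1 (h2 r.1)
    exact h3 _ (by
      have := mem_J.1 r.2.2
      rw [ex_degree]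
      exact this)
  · rintro ⟨c, hc, rfl⟩
    rw [LinearMap.mem_ker] at hc
    refine ⟨frm_homog d c, fun i => ?_⟩
    rw [mem_pow_idealOfVars_iff']
    intro s hs
    rw [eq_ex s] at hs ⊢
    rw [ex_degree] at hs
    have h3 := coeff_tau_frm w P d c ⟨i, ⟨(s 0, s 1), mem_J.2 hs⟩⟩
    rw [← Matrix.mulVecLin_apply, hc] at h3
    exact h3

theorem rank_forms {n : ℕ} (w : Fin n → ℕ) (P : Fin n → Fin 2 → K) (d : ℕ) :
    (cm w P d).rank + Module.finrank K ↥(forms w P d) = (d + 2).choose 2 := by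
  have h1 := LinearMap.finrank_range_add_finrank_ker (cm w P d).mulVecLin
  rw [forms_eq, ← LinearEquiv.finrank_eq (Submodule.equivMapOfInjective (frm d) (frm_inj d) _)]
  rw [Module.finrank_fintype_fun_eq_card, Fintype.card_coe, card_J] at h1
  exact h1

theorem card_rows {n : ℕ} (w : Fin n → ℕ) :
    Fintype.card (Σ l : Fin n, {x // x ∈ J (w l)}) = ∑ l, (w l + 1).choose 2 := by
  rw [Fintype.card_sigma]
  exact Finset.sum_congr rfl fun l _ => by rw [Fintype.card_coe, card_J]

/-- Independent conditions. -/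
theorem reg_iff {n : ℕ} (w : Fin n → ℕ) (P : Fin n → Fin 2 → K) (d : ℕ) :
    Module.finrank K ↥(forms w P d) + ∑ i, (w i + 1).choose 2 = (d + 2).choose 2 ↔
      ∀ y, (cm w P d).transpose.mulVec y = 0 → y = 0 := by
  have h1 := rank_forms w P d
  have h2 := LinearMap.finrank_range_add_finrank_ker (cm w P d).transpose.mulVecLin
  have h3 : Module.finrank K ↥(LinearMap.range (cm w P d).transpose.mulVecLin) =
      (cm w P d).rank := by
    rw [← Matrix.rank_transpose]
    rfl
  rw [h3, Module.finrank_fintype_fun_eq_card, card_rows] at h2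
  constructor
  · intro h y hy
    have h4 : Module.finrank K ↥(LinearMap.ker (cm w P d).transpose.mulVecLin) = 0 := by omega
    rw [Submodule.finrank_eq_zero] at h4
    have h5 : y ∈ LinearMap.ker (cm w P d).transpose.mulVecLin := hy
    rw [h4] at h5
    exact (Submodule.mem_bot K).1 h5
  · intro h
    have h4 : LinearMap.ker (cm w P d).transpose.mulVecLin = ⊥ :=
      (Submodule.eq_bot_iff _).2 fun y hy => h y hy
    rw [h4, finrank_bot] at h2
    omega

/-- No forms. -/
theorem emp_iff {n : ℕ} (w : Fin n → ℕ) (P : Fin n → Fin 2 → K) (d : ℕ) :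
    forms w P d = ⊥ ↔ ∀ c, (cm w P d).mulVec c = 0 → c = 0 := by
  rw [forms_eq]
  constructor
  · intro h c hc
    have h1 : frm d c ∈ Submodule.map (frm (K := K) d) (LinearMap.ker (cm w P d).mulVecLin) :=
      Submodule.mem_map_of_mem hc
    rw [h, Submodule.mem_bot] at h1
    exact frm_inj d (h1.trans (map_zero _).symm)
  · intro h
    have h1 : LinearMap.ker (cm w P d).mulVecLin = ⊥ :=
      (Submodule.eq_bot_iff _).2 fun c hc => h c hc
    rw [h1, Submodule.map_bot]

end Pool.Agent.V5helper95.KV
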