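import Pool.Agent.V5helper95.KV.Defs
import Pool.Agent.V5helper95.KV.Avoid
import Pool.Agent.R355.Round4
import Pool.Agent.Results.MP_309968_ag.SexticDistance
import Pool.Agent.Results.MP_309968_ag.FewCoefficients

set_option autoImplicit false

/-!
# The classes of the cone `Nice` are nef
-/

namespace Pool.Agent.V5helper95.KV

open MvPolynomial Pool.Agent.W609 Pool.Agent.W609.CR Pool.Agent.TH167 Pool.Agent.TH167.SH
open Pool.Agent.R355.ConeAct (curveClasses curvCone dot kap nef_of_gen nagata_nef nef_carries)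
open Pool.Agent.Results.MP_309968_ag.BoundaryRays (MultGE)
open Pool.Agent.Results.MP_309968_ag (SexticDistance.mult_iff)

theorem dot_exc {n : ℕ} (D : ℝ × (Fin n → ℝ)) (i : Fin n) :
    dot D ((0 : ℝ), (Pi.single i (-1 : ℝ) : Fin n → ℝ)) = D.2 i := by
  unfold dot
  simp [Pi.single_apply]

/-- from all forms to the cone -/
theorem cone_of_forms {n : ℕ} {P : Fin n → Fin 2 → ℂ} {x : ℝ} {y : Fin n → ℝ}
    (hy : ∀ i, 0 ≤ y i)
    (h : ∀ (F : MvPolynomial (Fin 3) ℂ) (e : ℕ) (m : Fin n → ℕ), F.IsHomogeneous e → F ≠ 0 →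
      (∀ i, MultGE (P i) F (m i)) → ∑ i, y i * (m i : ℝ) ≤ x * e) :
    ∀ z ∈ curvCone P, 0 ≤ dot (x, y) z := by
  refine nef_of_gen ?_
  rintro z (⟨G, d, w, hG, rfl⟩ | ⟨i, rfl⟩)
  · obtain ⟨g1, g2, g3⟩ := curve_iff.1 hG
    have := h G d w g2 g1.ne_zero ((SexticDistance.mult_iff g2 w).2 fun i => (g3 i).1)
    unfold dot
    simp only
    linarith
  · rw [dot_exc]
    exact hy i

theorem dot_add {n : ℕ} (a b z : ℝ × (Fin n → ℝ)) : dot (a + b) z = dot a z + dot b z := by
  unfold dot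
  simp only [Prod.fst_add, Prod.snd_add, Pi.add_apply, add_mul, Finset.sum_add_distrib]
  ring

theorem dot_smul' {n : ℕ} (c : ℝ) (a z : ℝ × (Fin n → ℝ)) : dot (c • a) z = c * dot a z := by
  unfold dot
  simp only [Prod.smul_fst, Prod.smul_snd, Pi.smul_apply, smul_eq_mul]
  rw [mul_sub, Finset.mul_sum]
  congr 1
  · ring
  · exact Finset.sum_congr rfl fun l _ => by ring

/-- There are points at which all classes of the cone `Nice` are nef. -/
theorem exists_pts (r : ℕ) : ∃ P : Fin (r + 4) → Fin 2 → ℂ,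
    AlgebraicIndependent ℚ (fun ij : Fin (r + 4) × Fin 2 => P ij.1 ij.2) ∧
      ∀ D, Nice D → ∀ z ∈ curvCone P, 0 ≤ dot D z := by
  classical
  obtain ⟨f1, hf1, h1⟩ := exists_fam (Fin (r + 4) × Fin 2)
  obtain ⟨f2, hf2, h2⟩ :=
    Pool.Agent.Results.MP_309968_ag.SexticDistance.form_le (n := r + 4) (by omega)
  obtain ⟨f3, hf3, h3⟩ := Pool.Agent.Results.MP_309968_ag.FewCoefficients.form_le (r + 4)
  obtain ⟨x, hx⟩ := avoid (fun k => f1 k * f2 k * f3 k) fun k =>
    mul_ne_zero (mul_ne_zero (hf1 k) (hf2 k)) (hf3 k)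
  obtain ⟨P, hPx⟩ : ∃ P : Fin (r + 4) → Fin 2 → ℂ, P = fun i j => x (i, j) := ⟨_, rfl⟩
  have e0 : (fun q : Fin (r + 4) × Fin 2 => P q.1 q.2) = x := by
    rw [hPx]
  have hP : AlgebraicIndependent ℚ (fun ij : Fin (r + 4) × Fin 2 => P ij.1 ij.2) := by
    rw [e0]
    refine (h1 x).1 fun k => ?_
    have := hx k
    rw [map_mul, map_mul] at this
    exact left_ne_zero_of_mul (left_ne_zero_of_mul this)
  have k2 := h2 P fun k => by
    rw [e0]
    have := hx k
    rw [map_mul, map_mul] at this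
    exact right_ne_zero_of_mul (left_ne_zero_of_mul this)
  have k3 := h3 P fun k => by
    rw [e0]
    have := hx k
    rw [map_mul, map_mul] at this
    exact right_ne_zero_of_mul this
  refine ⟨P, hP, fun D hD => ?_⟩
  have hx0 : ∀ (x : ℝ) (y : Fin (r + 4) → ℝ), (∀ i, 0 ≤ y i) → Std x y → 0 ≤ x := by
    intro x y hy hs
    obtain ⟨a, b, c, hab, hac, hbc, -⟩ :=
      Pool.Agent.R355.Round.top_three (n := r + 4) (by omega) y
    have := hs a b c hab hac hbc
    linarith [hy a, hy b, hy c]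
  induction hD with
  | nine x y T hy hs hT h =>
    exact nef_of_gen (Pool.Agent.R355.Round.nef_crit hP (D := (x, y)) (hx0 x y hy hs)
      (Pool.Agent.R355.Round.std_exc (D := (x, y)) hy hs) (Or.inl ⟨hT, h⟩))
  | sext x y M hM hy hyM hs h =>
    exact cone_of_forms hy fun F e m hF hF0 hm => k2 y x M hM hy hyM hs h F e m hF hF0 hm
  | few x y M hy hyM hq h12 h =>
    exact cone_of_forms hy fun F e m hF hF0 hm => k3 y x M hy hyM hq h12 h F e m hF hF0 hm
  | root T hT => exact nagata_nef hP (by omega)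
  | add a b ha hb iha ihb =>
    intro z hz
    rw [dot_add]
    exact add_nonneg (iha z hz) (ihb z hz)
  | smul c a hc ha iha =>
    intro z hz
    rw [dot_smul']
    exact mul_nonneg hc (iha z hz)
  | refl i hi a ha iha =>
    exact (nef_carries hP (D' := Pool.Agent.R355.ConeAct.refl i a)
      (Relation.ReflTransGen.single ⟨i, hi, rfl⟩) iha).1

end Pool.Agent.V5helper95.KV
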