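import Pool.Agent.V5helper95.KV.Cnt
import Pool.Agent.TH167.TT.Move

set_option autoImplicit false

/-!
# The factorization of Ramanujam
-/

namespace Pool.Agent.V5helper95.KV

open MvPolynomial Pool.Agent.W609 Pool.Agent.W609.CR Pool.Agent.TH167.SH Pool.Agent.H248R5
  Pool.Agent.H248R6

variable {K : Type} [Field K]

theorem local_id (s β : ℕ) : (s + 1).choose 2 = (min s (β - 1) + 1).choose 2 +
    (s - β + 1).choose 2 + min (s + 1) β * (s + 1 - min (s + 1) β) := by
  rcases Nat.eq_zero_or_pos β with rfl | hβ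
  · simp
  · rcases Nat.lt_or_ge s β with h | h
    · rw [min_eq_left (show s ≤ β - 1 by omega), min_eq_left (show s + 1 ≤ β by omega),
        show s - β = 0 by omega]
      simp
    · obtain ⟨r, rfl⟩ : ∃ r, s = β + r := ⟨s - β, by omega⟩
      obtain ⟨b, rfl⟩ : ∃ b, β = b + 1 := ⟨β - 1, by omega⟩
      rw [min_eq_right (show b + 1 - 1 ≤ b + 1 + r by omega),
        min_eq_right (show b + 1 ≤ b + 1 + r + 1 by omega), show b + 1 - 1 = b by omega,
        show b + 1 + r - (b + 1) = r by omega, show b + 1 + r + 1 - (b + 1) = r + 1 by omega]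
      have h1 := two_choose (b + 1 + r)
      have h2 := two_choose b
      have h3 := two_choose r
      nlinarith

theorem forms_finite {n : ℕ} (w : Fin n → ℕ) (P : Fin n → Fin 2 → K) (d : ℕ) :
    Module.Finite K ↥(forms w P d) := by
  rw [← vs_eq_forms]
  exact vs_fin _ _ _

theorem pos_of_not_unit {A : (MvPolynomial (Fin 3) K)} {e : ℕ} (hA : A.IsHomogeneous e) (hA0 : A ≠ 0)
    (h : ¬ IsUnit A) : 0 < e := by
  rcases Nat.eq_zero_or_pos e with rfl | h0
  · exfalso
    apply h
    have h1 := hA.totalDegree hA0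
    rw [totalDegree_eq_zero_iff_eq_C] at h1
    rw [h1]
    refine (isUnit_iff_ne_zero.2 fun h2 => hA0 ?_).map C
    rw [h1, h2, map_zero]
  · exact h0

/-- If the conditions of order `s i` at the points are dependent in degree `e - 3`, then every form
of degree `e` with orders `≥ s i + 1` decomposes. -/
theorem ramanujam [IsAlgClosed K] {n : ℕ} {s : Fin n → ℕ} {P : Fin n → Fin 2 → K}
    (hx : Function.Injective fun j => P j 0) (hy : Function.Injective fun j => P j 1) {e : ℕ}
    (he : 3 ≤ e) (hdep : (e - 3 + 2).choose 2 <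
      Module.finrank K ↥(forms s P (e - 3)) + ∑ i, (s i + 1).choose 2)
    {F : (MvPolynomial (Fin 3) K)} (hF0 : F ≠ 0) (hF : F.IsHomogeneous e)
    (hFs : ∀ i, 0 < s i → tau (P i) F ∈ (idealOfVars (Fin 2) K) ^ (s i + 1)) :
    ∃ (A B : (MvPolynomial (Fin 3) K)) (e1 e2 : ℕ) (β : Fin n → ℕ), F = A * B ∧ A.IsHomogeneous e1 ∧
      B.IsHomogeneous e2 ∧ e = e1 + e2 ∧ 0 < e1 ∧ 0 < e2 ∧
      (∀ i, Pool.Agent.W609.CR.Ord (aff (P i)) (β i) B) ∧
      e1 * e2 ≤ ∑ i, min (s i + 1) (β i) * (s i + 1 - min (s i + 1) (β i)) := by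
  classical
  have hP : Function.Injective P := fun i j h => hx (congrFun h 0)
  obtain ⟨T, t, hTh, ht, hTn, hT⟩ := exists_T hP hdep
  obtain ⟨N, hN⟩ : ∃ N, ∑ i, s i = N := ⟨_, rfl⟩
  rw [hN] at ht
  have hte : t + e = 2 * N := by omega
  obtain ⟨A, B, g1, g2, hAB, hAu, hBu, hcop, hTB, hg1, hg2⟩ :=
    exists_factor hx hy hN hTh hte hTn hT hF0 hF hFs
  have hA0 : A ≠ 0 := by
    rintro rfl
    rw [zero_mul] at hAB
    exact hF0 hAB
  have hB0 : B ≠ 0 := by
    rintro rfl
    rw [mul_zero] at hAB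
    exact hF0 hAB
  have hAh := Pool.Agent.Chud.homog_of_dvd hF hF0 ⟨B, hAB⟩
  have hBh := Pool.Agent.Chud.homog_of_dvd hF hF0 ⟨A, by rw [hAB, mul_comm]⟩
  obtain ⟨e1, he1⟩ : ∃ e1, A.totalDegree = e1 := ⟨_, rfl⟩
  obtain ⟨e2, he2⟩ : ∃ e2, B.totalDegree = e2 := ⟨_, rfl⟩
  rw [he1] at hAh
  rw [he2] at hBh
  have hee : e = e1 + e2 := by
    rw [← he1, ← he2, ← totalDegree_mul_of_isDomain hA0 hB0, ← hAB, hF.totalDegree hF0]
  have h1 := pos_of_not_unit hAh hA0 hAu
  have h2 := pos_of_not_unit hBh hB0 hBu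
  choose β hβ using fun j => Pool.Agent.TH167.TT.exists_ord (p := P j) hB0 hBh
  have hβt : ∀ i, tau (P i) B ∈ (idealOfVars (Fin 2) K) ^ (β i) := fun i =>
    (Pool.Agent.TH167.TT.van_tau hBh).1 (hβ i).1
  have hT0 : T ≠ 0 := by
    rintro rfl
    exact hTn (Submodule.zero_mem _)
  have heN : e1 ≤ N := by
    have h3 : T * B ≠ 0 := mul_ne_zero hT0 hB0
    have key : ∀ g : (MvPolynomial (Fin 3) K), (A * g).IsHomogeneous N → g ≠ 0 → e1 ≤ N := by
      intro g hg hg0
      have := hg.totalDegree (mul_ne_zero hA0 hg0)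
      rw [totalDegree_mul_of_isDomain hA0 hg0] at this
      omega
    by_cases h4 : g1 = 0
    · refine key g2 hg2 fun h5 => h3 ?_
      rw [hTB, h4, h5, zero_mul, zero_mul, sub_zero]
    · exact key g1 hg1 h4
  have hg1' : g1.IsHomogeneous (N - e1) :=
    homog_of_mul hAh hA0 (by rwa [show e1 + (N - e1) = N by omega])
  obtain ⟨k, hk⟩ : ∃ k, k = e + N := ⟨_, rfl⟩
  have hcount := count (K := K) (V1 := forms s P k)
    (V2 := forms (fun i => min (s i) (β i - 1)) P (k - e1))
    (V3 := forms (fun i => s i - β i) P (k - e2)) (V4 := homogeneousSubmodule (Fin 3) K (k - e))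
    (forms_finite _ _ _) (forms_finite _ _ _) (forms_finite _ _ _) (B := B) (g1 := g1) (g2 := g2)
    (P := Px s P) (Q := Qx s P) hB0 (fun G hG => by
      obtain ⟨hG1, hG2⟩ := mem_forms.1 hG
      obtain ⟨S, a1, a2, a3, a4⟩ := action hx hy hN hTh hte hT (k := k) (by omega) (B := B)
        (g1 := g1) (g2 := g2) (e1 := e1) (e2 := e2) hee (by omega) heN hBh hg1' hTB (β := β)
        (σ := fun i => min (s i) (β i - 1)) hβt (fun i => min_le_left _ _) (fun i h0 => by
          have : min (s i) (β i - 1) ≤ β i - 1 := min_le_right _ _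
          have h0' : 0 < min (s i) (β i - 1) := h0
          show min (s i) (β i - 1) < β i
          omega) hG1 hG2
      exact ⟨S, mem_forms.2 ⟨a1, a2⟩, a3, a4⟩)
    (fun H hH => by
      rw [mem_homogeneousSubmodule] at hH
      refine mem_forms.2 ⟨?_, fun i => ?_⟩
      · have := hBh.mul hH
        rwa [show e2 + (k - e) = k - e1 by omega] at this
      · rw [map_mul]
        refine Ideal.mul_mem_right _ _ (Ideal.pow_le_pow_right ?_ (hβt i))
        have : min (s i) (β i - 1) ≤ β i - 1 := min_le_right _ _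
        omega)
    (fun G hG d1 d2 => by
      obtain ⟨hG1, hG2⟩ := mem_forms.1 hG
      obtain ⟨H, hH⟩ := cop3_dvd hcop d1 d2
      have hHh : H.IsHomogeneous (k - e2) := homog_of_mul hBh hB0 (by
        rw [← hH, show e2 + (k - e2) = k by omega]
        exact hG1)
      refine ⟨H, mem_forms.2 ⟨hHh, fun i => ?_⟩, hH⟩
      rcases Nat.lt_or_ge (s i) (β i) with h3 | h3
      · rw [show s i - β i = 0 by omega, pow_zero, Ideal.one_eq_top]
        exact Submodule.mem_top
      · refine (Pool.Agent.TH167.TT.van_tau hHh).1 (van_of_mul (hβ i) ?_)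
        rw [show β i + (s i - β i) = s i by omega, ← hH]
        exact (Pool.Agent.TH167.TT.van_tau hG1).2 (hG2 i))
  have c1 := le_dim s P k
  have c2 := Pool.Agent.TH167.TT.sum_le_dim hP (fun i => min (s i) (β i - 1)) (d := k - e1) (by
    have : ∑ i, min (s i) (β i - 1) ≤ ∑ i, s i := Finset.sum_le_sum fun i _ => min_le_left _ _
    omega)
  have c3 := Pool.Agent.TH167.TT.sum_le_dim hP (fun i => s i - β i) (d := k - e2) (by
    have : ∑ i, (s i - β i) ≤ ∑ i, s i := Finset.sum_le_sum fun i _ => Nat.sub_le _ _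
    omega)
  rw [vs_eq_forms] at c2 c3
  rw [finrank_homog] at hcount
  have c4 := choose_second (k - e) e1 e2
  rw [show k - e + e1 + e2 = k by omega, show k - e + e1 = k - e2 by omega,
    show k - e + e2 = k - e1 by omega] at c4
  have c5 : ∑ i, (s i + 1).choose 2 = ∑ i, (min (s i) (β i - 1) + 1).choose 2 +
      ∑ i, (s i - β i + 1).choose 2 +
        ∑ i, min (s i + 1) (β i) * (s i + 1 - min (s i + 1) (β i)) := by
    rw [← Finset.sum_add_distrib, ← Finset.sum_add_distrib]
    exact Finset.sum_congr rfl fun i _ => local_id _ _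
  refine ⟨A, B, e1, e2, β, hAB, hAh, hBh, hee, h1, h2, hβ, ?_⟩
  omega

end Pool.Agent.V5helper95.KV
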