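import Mathlib

set_option autoImplicit false

/-!
# Kernels of matrices over a domain, and reduction modulo large primes
-/

namespace Pool.Agent.V5helper95.KV

section mat

variable {m n : Type} [Fintype m] [Fintype n] [DecidableEq m] [DecidableEq n]

/-- Either there is a left inverse up to a nonzero factor, or a nonzero vector in the kernel. -/
theorem dich {R : Type} [CommRing R] [IsDomain R] (A : Matrix m n R) :
    (∃ (b : R) (C : Matrix n m R), b ≠ 0 ∧ C * A = b • (1 : Matrix n n R)) ∨
      ∃ y : n → R, y ≠ 0 ∧ A.mulVec y = 0 := by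
  classical
  have hinj := IsFractionRing.injective R (FractionRing R)
  by_cases h : ∀ v, (A.map (algebraMap R (FractionRing R))).mulVec v = 0 → v = 0
  · left
    have hker : LinearMap.ker (A.map (algebraMap R (FractionRing R))).mulVecLin = ⊥ :=
      (Submodule.eq_bot_iff _).2 fun v hv => h v hv
    obtain ⟨g, hg⟩ := (A.map (algebraMap R (FractionRing R))).mulVecLin.exists_leftInverse_of_injective
      hker
    obtain ⟨B, hB⟩ : ∃ B : Matrix n m (FractionRing R), B = LinearMap.toMatrix' g := ⟨_, rfl⟩
    have hBA : B * A.map (algebraMap R (FractionRing R)) = 1 := by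
      apply Matrix.toLin'.injective
      rw [Matrix.toLin'_mul, hB, Matrix.toLin'_toMatrix', Matrix.toLin'_one]
      exact hg
    obtain ⟨b, hb⟩ := IsLocalization.exist_integer_multiples_of_finite (nonZeroDivisors R)
      (fun ij : n × m => B ij.1 ij.2)
    choose B0 hB0 using fun ij => hb ij
    let C : Matrix n m R := Matrix.of fun i j => B0 (i, j)
    have hC : C.map (algebraMap R (FractionRing R)) =
        (algebraMap R (FractionRing R) b) • B := by
      ext i j
      rw [Matrix.map_apply, Matrix.smul_apply, smul_eq_mul]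
      have h1 := hB0 (i, j)
      simp only at h1
      rw [Algebra.smul_def] at h1
      exact h1
    refine ⟨b, C, nonZeroDivisors.coe_ne_zero b, ?_⟩
    apply Matrix.map_injective hinj
    show (C * A).map (algebraMap R (FractionRing R)) =
      ((b : R) • (1 : Matrix n n R)).map (algebraMap R (FractionRing R))
    rw [Matrix.map_mul, hC, Matrix.smul_mul, hBA]
    ext i j
    rw [Matrix.smul_apply, Matrix.map_apply, Matrix.smul_apply, smul_eq_mul, smul_eq_mul, map_mul,
      Matrix.one_apply, Matrix.one_apply]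
    split_ifs
    · rw [map_one]
    · rw [map_zero]
  · right
    push Not at h
    obtain ⟨v, hv, hv0⟩ := h
    obtain ⟨b, hb⟩ := IsLocalization.exist_integer_multiples_of_finite (nonZeroDivisors R) v
    choose y hy using fun i => hb i
    have hy' : ∀ i, algebraMap R (FractionRing R) (y i) =
        algebraMap R (FractionRing R) b * v i := by
      intro i
      have h1 := hy i
      rw [Algebra.smul_def] at h1
      exact h1
    refine ⟨y, fun h0 => hv0 ?_, ?_⟩
    · funext i
      have h1 := hy' i
      rw [h0, Pi.zero_apply, map_zero] at h1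
      have h2 : algebraMap R (FractionRing R) (b : R) ≠ 0 := by
        rw [Ne, map_eq_zero_iff _ hinj]
        exact nonZeroDivisors.coe_ne_zero b
      exact (mul_eq_zero.1 h1.symm).resolve_left h2
    · funext r
      apply hinj
      have h1 := congrFun hv r
      unfold Matrix.mulVec dotProduct at h1 ⊢
      rw [map_sum, Pi.zero_apply, map_zero]
      simp only [map_mul, hy', Matrix.map_apply, Pi.zero_apply] at h1 ⊢
      have h2 : ∀ j, algebraMap R (FractionRing R) (A r j) *
          (algebraMap R (FractionRing R) b * v j) =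
          algebraMap R (FractionRing R) b * (algebraMap R (FractionRing R) (A r j) * v j) :=
        fun j => by ring
      rw [Finset.sum_congr rfl fun j _ => h2 j, ← Finset.mul_sum, h1, mul_zero]

omit [DecidableEq m] in
theorem ker_of_left {R : Type} [CommRing R] {A : Matrix m n R} {b : R} {C : Matrix n m R}
    (h : C * A = b • (1 : Matrix n n R)) {K : Type} [Field K] (φ : R →+* K) (hb : φ b ≠ 0)
    (v : n → K) (hv : (A.map φ).mulVec v = 0) : v = 0 := by
  have h1 : (C.map φ * A.map φ).mulVec v = 0 := by
    rw [← Matrix.mulVec_mulVec, hv, Matrix.mulVec_zero]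
  have h2 : C.map φ * A.map φ = φ b • (1 : Matrix n n K) := by
    rw [← Matrix.map_mul, h]
    ext i j
    rw [Matrix.smul_apply, Matrix.map_apply, Matrix.smul_apply, smul_eq_mul, smul_eq_mul, map_mul,
      Matrix.one_apply, Matrix.one_apply]
    split_ifs
    · rw [map_one]
    · rw [map_zero]
  rw [h2, Matrix.smul_mulVec, Matrix.one_mulVec] at h1
  exact (smul_eq_zero.1 h1).resolve_left hb

omit [Fintype m] [DecidableEq m] [DecidableEq n] in
theorem ker_of_vec {R : Type} [CommRing R] {A : Matrix m n R} {y : n → R}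
    (h : A.mulVec y = 0) {K : Type} [Field K] (φ : R →+* K) :
    (A.map φ).mulVec (fun i => φ (y i)) = 0 := by
  funext r
  have h1 := congrFun h r
  unfold Matrix.mulVec dotProduct at h1 ⊢
  simp only [Matrix.map_apply, Pi.zero_apply] at h1 ⊢
  have h2 := congrArg φ h1
  rw [map_sum, map_zero] at h2
  simpa only [map_mul] using h2

/-- A trivial kernel stays trivial. -/
theorem ker_spread {R : Type} [CommRing R] [IsDomain R] {A : Matrix m n R} {K0 : Type} [Field K0]
    (ψ : R →+* K0) (hψ : Function.Injective ψ) (h : ∀ v, (A.map ψ).mulVec v = 0 → v = 0) :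
    ∃ b : R, b ≠ 0 ∧ ∀ (K : Type) [Field K] (φ : R →+* K), φ b ≠ 0 →
      ∀ v, (A.map φ).mulVec v = 0 → v = 0 := by
  rcases dich A with ⟨b, C, hb, hC⟩ | ⟨y, hy0, hy⟩
  · exact ⟨b, hb, fun K _ φ hφ v hv => ker_of_left hC φ hφ v hv⟩
  · exfalso
    apply hy0
    have h1 := h _ (ker_of_vec hy ψ)
    funext i
    exact hψ ((congrFun h1 i).trans (map_zero ψ).symm)

/-- A nontrivial kernel stays nontrivial. -/
theorem ker_spread' {R : Type} [CommRing R] [IsDomain R] {A : Matrix m n R} {K0 : Type}
    [Field K0] (ψ : R →+* K0) (hψ : Function.Injective ψ)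
    (h : ¬ ∀ v, (A.map ψ).mulVec v = 0 → v = 0) :
    ∃ b : R, b ≠ 0 ∧ ∀ (K : Type) [Field K] (φ : R →+* K), φ b ≠ 0 →
      ¬ ∀ v, (A.map φ).mulVec v = 0 → v = 0 := by
  rcases dich A with ⟨b, C, hb, hC⟩ | ⟨y, hy0, hy⟩
  · exfalso
    apply h
    intro v hv
    refine ker_of_left hC ψ (fun h0 => hb ?_) v hv
    exact hψ (h0.trans (map_zero ψ).symm)
  · obtain ⟨i, hi⟩ : ∃ i, y i ≠ 0 := by
      by_contra hcon
      push Not at hcon
      exact hy0 (funext hcon)
    refine ⟨y i, hi, fun K _ φ hφ hall => hφ ?_⟩
    exact congrFun (hall _ (ker_of_vec hy φ)) i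

end mat

/-- The algebraic closure of the field of rational functions. -/
abbrev Kp (σ : Type) (p : ℕ) [Fact p.Prime] : Type :=
  AlgebraicClosure (FractionRing (MvPolynomial σ (ZMod p)))

/-- Reduction modulo `p`. -/
noncomputable def phi (σ : Type) (p : ℕ) [Fact p.Prime] : MvPolynomial σ ℤ →+* Kp σ p :=
  ((algebraMap (FractionRing (MvPolynomial σ (ZMod p))) (Kp σ p)).comp
    (algebraMap (MvPolynomial σ (ZMod p)) (FractionRing (MvPolynomial σ (ZMod p))))).comp
      (MvPolynomial.map (Int.castRingHom (ZMod p)))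

theorem phi_eq_zero {σ : Type} {p : ℕ} [Fact p.Prime] {b : MvPolynomial σ ℤ}
    (h : phi σ p b = 0) : MvPolynomial.map (Int.castRingHom (ZMod p)) b = 0 := by
  have h1 : algebraMap (FractionRing (MvPolynomial σ (ZMod p))) (Kp σ p)
      (algebraMap (MvPolynomial σ (ZMod p)) (FractionRing (MvPolynomial σ (ZMod p)))
        (MvPolynomial.map (Int.castRingHom (ZMod p)) b)) = 0 := h
  have h2 := (algebraMap (FractionRing (MvPolynomial σ (ZMod p))) (Kp σ p)).injective
    (h1.trans (map_zero _).symm)
  exact IsFractionRing.injective (MvPolynomial σ (ZMod p)) (FractionRing (MvPolynomial σ (ZMod p)))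
    (h2.trans (map_zero _).symm)

theorem phi_ne {σ : Type} {b : MvPolynomial σ ℤ} (hb : b ≠ 0) :
    ∃ B : ℕ, ∀ (p : ℕ) [Fact p.Prime], B < p → phi σ p b ≠ 0 := by
  obtain ⟨a, ha⟩ := MvPolynomial.ne_zero_iff.1 hb
  refine ⟨(MvPolynomial.coeff a b).natAbs, fun p _ hp h => ?_⟩
  have h1 := phi_eq_zero h
  have h2 := congrArg (MvPolynomial.coeff a) h1
  rw [MvPolynomial.coeff_map, MvPolynomial.coeff_zero, eq_intCast,
    ZMod.intCast_zmod_eq_zero_iff_dvd] at h2
  have h3 := Int.natAbs_dvd_natAbs.2 h2
  rw [Int.natAbs_natCast] at h3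
  have h4 := Nat.le_of_dvd (Int.natAbs_pos.2 ha) h3
  omega

instance kp_char (σ : Type) (p : ℕ) [Fact p.Prime] : CharP (Kp σ p) p := by
  have h : Function.Injective
      (((algebraMap (FractionRing (MvPolynomial σ (ZMod p))) (Kp σ p)).comp
        (algebraMap (MvPolynomial σ (ZMod p)) (FractionRing (MvPolynomial σ (ZMod p))))).comp
          (MvPolynomial.C : ZMod p →+* MvPolynomial σ (ZMod p))) := RingHom.injective _
  exact charP_of_injective_ringHom h p

end Pool.Agent.V5helper95.KV
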