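import Pool.Agent.V5helper95.KV.Dep

set_option autoImplicit false

/-!
# The form `T` and its multiples
-/

namespace Pool.Agent.V5helper95.KV

open MvPolynomial Pool.Agent.W609 Pool.Agent.W609.CR Pool.Agent.TH167.SH Pool.Agent.H248R5
  Pool.Agent.H248R6

variable {K : Type} [Field K]

/-- The product of the lines `x = x j`. -/
noncomputable def Px {n : ℕ} (s : Fin n → ℕ) (P : Fin n → Fin 2 → K) : (MvPolynomial (Fin 3) K) :=
  pr 0 s fun j => P j 0

/-- The product of the lines `y = y j`. -/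
noncomputable def Qx {n : ℕ} (s : Fin n → ℕ) (P : Fin n → Fin 2 → K) : (MvPolynomial (Fin 3) K) :=
  pr 1 s fun j => P j 1

/-- The ideal of the complete intersection. -/
noncomputable def JJ {n : ℕ} (s : Fin n → ℕ) (P : Fin n → Fin 2 → K) : Ideal (MvPolynomial (Fin 3) K) :=
  Ideal.span {Px s P, Qx s P}

theorem CI_eq {n : ℕ} {s : Fin n → ℕ} {P : Fin n → Fin 2 → K} {l m : List K}
    (hl : pl 0 l = Px s P) (hm : pl 1 m = Qx s P) : CI l m = JJ s P := by
  unfold CI JJ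
  rw [hl, hm]

theorem Px_homog {n : ℕ} (s : Fin n → ℕ) (P : Fin n → Fin 2 → K) :
    (Px s P).IsHomogeneous (∑ j, s j) := by
  unfold Px
  rw [← pl_lst, ← length_lst s fun j => P j 0]
  exact pl_homog _ _

theorem Qx_homog {n : ℕ} (s : Fin n → ℕ) (P : Fin n → Fin 2 → K) :
    (Qx s P).IsHomogeneous (∑ j, s j) := by
  unfold Qx
  rw [← pl_lst, ← length_lst s fun j => P j 1]
  exact pl_homog _ _

theorem Px_ne {n : ℕ} (s : Fin n → ℕ) (P : Fin n → Fin 2 → K) : Px s P ≠ 0 := by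
  unfold Px
  rw [← pl_lst]
  exact pl_ne 0 (by decide) _

theorem Qx_ne {n : ℕ} (s : Fin n → ℕ) (P : Fin n → Fin 2 → K) : Qx s P ≠ 0 := by
  unfold Qx
  rw [← pl_lst]
  exact pl_ne 1 (by decide) _

theorem rel_PQ {n : ℕ} (s : Fin n → ℕ) (P : Fin n → Fin 2 → K) :
    IsRelPrime (Px s P) (Qx s P) := by
  unfold Px Qx
  rw [← pl_lst, ← pl_lst]
  exact rel_pl _ _

theorem JJ_homog {n : ℕ} {s : Fin n → ℕ} {P : Fin n → Fin 2 → K} {H : (MvPolynomial (Fin 3) K)} {D : ℕ}
    (hH : H.IsHomogeneous (∑ j, s j + D)) (h : H ∈ JJ s P) : ∃ A B : (MvPolynomial (Fin 3) K), A.IsHomogeneous D ∧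
      B.IsHomogeneous D ∧ H = A * Qx s P - B * Px s P := by
  have h1 : pl 0 (lst s fun j => P j 0) = Px s P := pl_lst _ _ _
  have h2 : pl 1 (lst s fun j => P j 1) = Qx s P := pl_lst _ _ _
  rw [← CI_eq h1 h2] at h
  rw [← h1, ← h2]
  exact CI_homog (length_lst _ _) (length_lst _ _) hH h

theorem exists_T {n : ℕ} {s : Fin n → ℕ} {P : Fin n → Fin 2 → K}
    (hP : Function.Injective P) {D : ℕ}
    (hdep : (D + 2).choose 2 < Module.finrank K ↥(forms s P D) + ∑ i, (s i + 1).choose 2) :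
    ∃ (T : (MvPolynomial (Fin 3) K)) (t : ℕ), T.IsHomogeneous t ∧ t + D + 3 = 2 * ∑ i, s i ∧ T ∉ JJ s P ∧
      ∀ (k : ℕ) (G : (MvPolynomial (Fin 3) K)), G.IsHomogeneous k → (∀ i, tau (P i) G ∈ (idealOfVars (Fin 2) K) ^ (s i)) →
        T * G ∈ JJ s P := by
  classical
  obtain ⟨φ, h1, h2, h3, h4⟩ := exists_phi hP hdep
  obtain ⟨k0, f0, hf0, hφ0⟩ := h4
  obtain ⟨i, k, G, hi, hG, hφG, hx, hy⟩ := exists_socle h2 (∑ i, (s i - 0)) (fun _ => 0)
    (fun i => Nat.zero_le _) rfl ⟨k0, f0, hf0, fun i => by simp, hφ0⟩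
  obtain ⟨l, hl1, hl2⟩ := exists_list 0 s (fun j => P j 0) hi
  obtain ⟨m, hm1, hm2⟩ := exists_list 1 s (fun j => P j 1) hi
  have hCI : CI (P i 0 :: l) (P i 1 :: m) = JJ s P := CI_eq hl1 hm1
  have htP : ∀ j, tau (P j) (Px s P) ∈ (idealOfVars (Fin 2) K) ^ (s j) := by
    intro j
    unfold Px pr
    rw [map_prod]
    refine Ideal.mem_of_dvd _ (Finset.dvd_prod_of_mem _ (Finset.mem_univ j)) ?_
    rw [map_pow]
    refine Ideal.pow_mem_pow ?_ _
    rw [map_sub, map_mul, tau_X0, tau_X2, tau_C, mul_one, add_sub_cancel_right]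
    exact X_mem 0
  have htQ : ∀ j, tau (P j) (Qx s P) ∈ (idealOfVars (Fin 2) K) ^ (s j) := by
    intro j
    unfold Qx pr
    rw [map_prod]
    refine Ideal.mem_of_dvd _ (Finset.dvd_prod_of_mem _ (Finset.mem_univ j)) ?_
    rw [map_pow]
    refine Ideal.pow_mem_pow ?_ _
    rw [map_sub, map_mul, tau_X1, tau_X2, tau_C, mul_one, add_sub_cancel_right]
    exact X_mem 1
  have hadm : Adm (P i 0 :: l) (P i 1 :: m) φ := by
    refine ⟨h1, fun f => h2 _ fun j => ?_, fun f => h2 _ fun j => ?_⟩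
    · have : pl 0 (P i 0 :: l) = Px s P := hl1
      rw [this, map_mul]
      exact Ideal.mul_mem_right _ _ (htP j)
    · have : pl 1 (P i 1 :: m) = Qx s P := hm1
      rw [this, map_mul]
      exact Ideal.mul_mem_right _ _ (htQ j)
  -- the Bezoutian form is not in the ideal
  have hnot : Tf (P i 0 :: l) (P i 1 :: m) φ ∉ CI (P i 0 :: l) (P i 1 :: m) := by
    intro hmem
    have e1 := Tf_mul hadm hG
    have e2 : X 2 ^ k * Tf (P i 0 :: l) (P i 1 :: m) (φ ∘ₗ LinearMap.mulLeft K G) ∈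
        CI (P i 0 :: l) (P i 1 :: m) := by
      have := Ideal.sub_mem _ (Ideal.mul_mem_left _ G hmem) e1
      rwa [sub_sub_cancel] at this
    have e3 := CI_X2_pow k e2
    rw [Tf_eval (P i 0) (P i 1) l m (fun f => hx f) (fun f => hy f)] at e3
    refine notMem_CI (P i 0) (P i 1) l m ?_ e3
    simpa using hφG
  obtain ⟨T, hT⟩ := Tf_dvd (P i 0 :: l) (P i 1 :: m) (r := D + 1) h3
  have hne : Tf (P i 0 :: l) (P i 1 :: m) φ ≠ 0 := by
    intro h0
    rw [h0] at hnot
    exact hnot (Submodule.zero_mem _)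
  have hT0 : T ≠ 0 := by
    rintro rfl
    rw [mul_zero] at hT
    exact hne hT
  have hhom := Tf_homog (P i 0) (P i 1) l m φ
  have hTh := Pool.Agent.Chud.homog_of_dvd hhom hne ⟨X 2 ^ (D + 1), by rw [hT, mul_comm]⟩
  refine ⟨T, T.totalDegree, hTh, ?_, ?_, ?_⟩
  · have e1 := hhom.totalDegree hne
    rw [hT, totalDegree_mul_of_isDomain (pow_ne_zero _ (X_ne_zero _)) hT0,
      (isHomogeneous_X_pow (R := K) (2 : Fin 3) (D + 1)).totalDegree
        (pow_ne_zero _ (X_ne_zero _))] at e1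
    rw [List.length_cons] at hl2 hm2
    omega
  · intro hmem
    apply hnot
    rw [hT, hCI]
    exact Ideal.mul_mem_left _ _ hmem
  · intro k' G' hG' ht'
    have e1 := Tf_mem hadm hG' fun f => h2 _ fun j => by
      rw [map_mul]
      exact Ideal.mul_mem_right _ _ (ht' j)
    rw [hT, mul_left_comm] at e1
    have e2 := CI_X2_pow _ e1
    rw [hCI, mul_comm] at e2
    exact e2

/-! ## Local orders -/

/-- The product of the lines `x = x j` at a point. -/
theorem tau_Px {n : ℕ} (s : Fin n → ℕ) {P : Fin n → Fin 2 → K}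
    (hx : Function.Injective fun j => P j 0) (i : Fin n) :
    ∃ U, constantCoeff U ≠ 0 ∧ tau (P i) (Px s P) = X 0 ^ s i * U := by
  classical
  refine ⟨∏ j ∈ Finset.univ.erase i, (X 0 + C (P i 0 - P j 0)) ^ s j, ?_, ?_⟩
  · rw [map_prod, Finset.prod_ne_zero_iff]
    intro j hj
    rw [map_pow, map_add, constantCoeff_X, constantCoeff_C, zero_add]
    refine pow_ne_zero _ (sub_ne_zero.2 fun h => Finset.ne_of_mem_erase hj (hx h.symm))
  · unfold Px pr
    rw [map_prod, ← Finset.mul_prod_erase _ _ (Finset.mem_univ i)]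
    congr 1
    · rw [map_pow, map_sub, map_mul, tau_X0, tau_X2, tau_C, mul_one, add_sub_cancel_right]
    · refine Finset.prod_congr rfl fun j _ => ?_
      rw [map_pow, map_sub, map_mul, tau_X0, tau_X2, tau_C, mul_one, C_sub]
      congr 1
      ring

theorem tau_Qx {n : ℕ} (s : Fin n → ℕ) {P : Fin n → Fin 2 → K}
    (hy : Function.Injective fun j => P j 1) (i : Fin n) :
    ∃ U, constantCoeff U ≠ 0 ∧ tau (P i) (Qx s P) = X 1 ^ s i * U := by
  classical
  refine ⟨∏ j ∈ Finset.univ.erase i, (X 1 + C (P i 1 - P j 1)) ^ s j, ?_, ?_⟩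
  · rw [map_prod, Finset.prod_ne_zero_iff]
    intro j hj
    rw [map_pow, map_add, constantCoeff_X, constantCoeff_C, zero_add]
    refine pow_ne_zero _ (sub_ne_zero.2 fun h => Finset.ne_of_mem_erase hj (hy h.symm))
  · unfold Qx pr
    rw [map_prod, ← Finset.mul_prod_erase _ _ (Finset.mem_univ i)]
    congr 1
    · rw [map_pow, map_sub, map_mul, tau_X1, tau_X2, tau_C, mul_one, add_sub_cancel_right]
    · refine Finset.prod_congr rfl fun j _ => ?_
      rw [map_pow, map_sub, map_mul, tau_X1, tau_X2, tau_C, mul_one, C_sub]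
      congr 1
      ring

/-- The orders of the cofactors. -/
theorem split_tau {n : ℕ} (s : Fin n → ℕ) {P : Fin n → Fin 2 → K}
    (hx : Function.Injective fun j => P j 0) (hy : Function.Injective fun j => P j 1) (i : Fin n)
    {m : ℕ} (hm : m ≤ s i) {A B H : (MvPolynomial (Fin 3) K)} (hE : H = A * Qx s P - B * Px s P)
    (hH : tau (P i) H ∈ (idealOfVars (Fin 2) K) ^ (s i + m)) : tau (P i) A ∈ (idealOfVars (Fin 2) K) ^ m ∧ tau (P i) B ∈ (idealOfVars (Fin 2) K) ^ m := by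
  obtain ⟨U, hU, hPU⟩ := tau_Px s hx i
  obtain ⟨V, hV, hQV⟩ := tau_Qx s hy i
  rw [hE, map_sub, map_mul, map_mul, hPU, hQV] at hH
  exact split hU hV hm hH

theorem T_ord {n : ℕ} {s : Fin n → ℕ} {P : Fin n → Fin 2 → K}
    (hx : Function.Injective fun j => P j 0) (hy : Function.Injective fun j => P j 1) {T : (MvPolynomial (Fin 3) K)}
    (hT : ∀ (k : ℕ) (G : (MvPolynomial (Fin 3) K)), G.IsHomogeneous k → (∀ i, tau (P i) G ∈ (idealOfVars (Fin 2) K) ^ (s i)) →
      T * G ∈ JJ s P) (i : Fin n) : tau (P i) T ∈ (idealOfVars (Fin 2) K) ^ (s i - 1) := by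
  classical
  refine socle fun a b hab => ?_
  obtain ⟨G, hG⟩ : ∃ G : (MvPolynomial (Fin 3) K), G = (X 0 - C (P i 0) * X 2) ^ a * (X 1 - C (P i 1) * X 2) ^ b *
      ∏ j ∈ Finset.univ.erase i, (X 0 - C (P j 0) * X 2) ^ s j := ⟨_, rfl⟩
  have hGt : tau (P i) G = X 0 ^ a * X 1 ^ b *
      ∏ j ∈ Finset.univ.erase i, (X 0 + C (P i 0 - P j 0)) ^ s j := by
    rw [hG, map_mul, map_mul, map_pow, map_pow, map_sub, map_mul, tau_X0, tau_X2, tau_C, mul_one,
      add_sub_cancel_right, map_sub, map_mul, tau_X1, tau_X2, tau_C, mul_one,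
      add_sub_cancel_right, map_prod]
    congr 1
    refine Finset.prod_congr rfl fun j _ => ?_
    rw [map_pow, map_sub, map_mul, tau_X0, tau_X2, tau_C, mul_one, C_sub]
    congr 1
    ring
  have hGh : G.IsHomogeneous (1 * a + 1 * b + ∑ j ∈ Finset.univ.erase i, 1 * s j) := by
    rw [hG]
    refine (((lin_homog 0 _).pow a).mul ((lin_homog 1 _).pow b)).mul ?_
    exact IsHomogeneous.prod _ _ _ fun j _ => (lin_homog 0 _).pow (s j)
  have hmem := hT _ G hGh fun j => by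
    by_cases hj : j = i
    · subst hj
      rw [hGt]
      refine Ideal.mul_mem_right _ _ ?_
      rw [← hab, pow_add]
      exact Ideal.mul_mem_mul (Xpow_mem 0 a) (Xpow_mem 1 b)
    · rw [hG, map_mul, map_prod]
      refine Ideal.mul_mem_left _ _ (Ideal.mem_of_dvd _ (Finset.dvd_prod_of_mem _
        (Finset.mem_erase.2 ⟨hj, Finset.mem_univ j⟩)) ?_)
      rw [map_pow]
      refine Ideal.pow_mem_pow ?_ _
      rw [map_sub, map_mul, tau_X0, tau_X2, tau_C, mul_one, add_sub_cancel_right]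
      exact X_mem 0
  obtain ⟨U, hU, hPU⟩ := tau_Px s hx i
  obtain ⟨V, hV, hQV⟩ := tau_Qx s hy i
  unfold JJ at hmem
  rw [Ideal.mem_span_pair] at hmem
  obtain ⟨α, β, hE⟩ := hmem
  refine ⟨∏ j ∈ Finset.univ.erase i, (X 0 + C (P i 0 - P j 0)) ^ s j, tau (P i) β * V,
    -(tau (P i) α * U), ?_, ?_⟩
  · rw [map_prod, Finset.prod_ne_zero_iff]
    intro j hj
    rw [map_pow, map_add, constantCoeff_X, constantCoeff_C, zero_add]
    refine pow_ne_zero _ (sub_ne_zero.2 fun h => Finset.ne_of_mem_erase hj (hx h.symm))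
  · have e1 := congrArg (tau (P i)) hE
    rw [map_add, map_mul, map_mul, map_mul, hPU, hQV, hGt] at e1
    rw [← e1]
    ring

end Pool.Agent.V5helper95.KV
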